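import Pool.Agent.KS6_87.Inv4.Uni

set_option autoImplicit false
set_option linter.unusedSectionVars false

open scoped InnerProductSpace ENNReal
open Cardinal Filter Topology
open Pool.Agent.H100R3.Inv

namespace Pool.Agent.KS6_87.Inv4

universe u

variable {H : Type u} [NormedAddCommGroup H] [InnerProductSpace ℂ H] [CompleteSpace H]

/-- orthonormal families avoiding small sets -/
theorem exists_choice {ι J : Type u} (b : HilbertBasis ι ℂ H) (hH : ¬ FiniteDimensional ℂ H)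
    (hJ : #J ≤ #ι) (t : J → Set H) (ht : ∀ j, #(t j) < #ι) :
    ∃ f : J → H, Orthonormal ℂ f ∧ ∀ j, ∀ v ∈ t j, ⟪v, f j⟫_ℂ = 0 := by
  classical
  have hinf : Infinite ι := infinite_index b hH
  have hι : ℵ₀ ≤ #ι := Cardinal.aleph0_le_mk ι
  obtain ⟨r, wo, hr⟩ := Cardinal.exists_ord_eq J
  have hcard : ∀ j, #{i // r i j} < #ι := fun j => by
    have h1 : Ordinal.card (Ordinal.typein r j) < #J := Cardinal.card_typein_lt j hr
    rw [Ordinal.card_typein] at h1
    exact lt_of_lt_of_le h1 hJ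
  let P : (j : J) → ((i : J) → r i j → H) → H → Prop := fun j rec x =>
    ‖x‖ = 1 ∧ ∀ v ∈ t j ∪ Set.range (fun i : {i // r i j} => rec i.1 i.2), ⟪v, x⟫_ℂ = 0
  have hP : ∀ j rec, ∃ x, P j rec x := fun j rec => by
    refine exists_unit_orthogonal b hH _ (small_union hι (ht j) ?_)
    exact lt_of_le_of_lt Cardinal.mk_range_le (hcard j)
  let f : J → H := wo.wf.fix (fun j rec => (hP j rec).choose)
  have hf : ∀ j, P j (fun i _ => f i) (f j) := fun j => by
    have h1 : f j = (hP j (fun i _ => f i)).choose := wo.wf.fix_eq _ j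
    rw [h1]
    exact (hP j (fun i _ => f i)).choose_spec
  refine ⟨f, ⟨fun j => (hf j).1, fun i j hij => ?_⟩, fun j v hv => (hf j).2 v (Or.inl hv)⟩
  by_cases h : r i j
  · exact (hf j).2 _ (Or.inr ⟨⟨i, h⟩, rfl⟩)
  · by_cases h' : r j i
    · have := (hf i).2 _ (Or.inr ⟨⟨j, h'⟩, rfl⟩)
      show ⟪f i, f j⟫_ℂ = 0
      rw [← inner_conj_symm]
      show (starRingEnd ℂ) ⟪f j, f i⟫_ℂ = 0
      rw [this, map_zero]
    · exact absurd (wo.trichotomous i j h h') hij

/-- the adjoint of a negligible operator is negligible -/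
theorem negl_adjoint {ι : Type u} (b : HilbertBasis ι ℂ H) {K : H →L[ℂ] H} (hK : Negl b K) :
    Negl b (ContinuousLinearMap.adjoint K) := by
  intro ε hε
  obtain ⟨s, hs, h⟩ := hK ε hε
  refine ⟨K '' s, lt_of_le_of_lt Cardinal.mk_image_le hs, fun y hy => ?_⟩
  set z := ContinuousLinearMap.adjoint K y with hz
  have h1 : ‖K z‖ ≤ ε * ‖z‖ := h z fun v hv => by
    rw [hz, ContinuousLinearMap.adjoint_inner_right]
    exact hy _ ⟨v, hv, rfl⟩
  have h2 : ‖z‖ ^ 2 ≤ ε * ‖z‖ * ‖y‖ := by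
    have e : ‖⟪z, z⟫_ℂ‖ = ‖z‖ ^ 2 := by
      rw [inner_self_eq_norm_sq_to_K, norm_pow]
      simp
    rw [← e]
    have e2 : ⟪z, z⟫_ℂ = ⟪K z, y⟫_ℂ := by
      conv_lhs => rw [hz]
      rw [ContinuousLinearMap.adjoint_inner_right]
    rw [e2]
    exact (norm_inner_le_norm _ _).trans (by gcongr)
  by_contra hcon
  push Not at hcon
  have h3 : 0 < ‖z‖ := lt_of_le_of_lt (by positivity) hcon
  nlinarith [norm_nonneg y]

/-- a Hilbert basis indexed by `ℤ × ι` that avoids given small sets off the zeroth block -/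
theorem exists_adapted {ι : Type u} (b : HilbertBasis ι ℂ H) (hH : ¬ FiniteDimensional ℂ H)
    (t : ℤ → Set H) (ht : ∀ j, #(t j) < #ι) :
    ∃ e : HilbertBasis (ℤ × ι) ℂ H, ∀ (j : ℤ) (i : ι), j ≠ 0 → ∀ v ∈ t j, ⟪v, e (j, i)⟫_ℂ = 0 := by
  classical
  have hinf : Infinite ι := infinite_index b hH
  have hι : ℵ₀ ≤ #ι := Cardinal.aleph0_le_mk ι
  have hcard : #(ℤ × ι) = #ι := by
    rw [Cardinal.mk_prod]
    simp only [Cardinal.lift_uzero, Cardinal.mk_eq_aleph0 ℤ, Cardinal.lift_aleph0]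
    exact Cardinal.aleph0_mul_eq hι
  obtain ⟨f, hf, hft⟩ := exists_choice b hH hcard.le (fun p : ℤ × ι => t p.1) (fun p => ht p.1)
  have hfi : Function.Injective f := hf.linearIndependent.injective
  obtain ⟨w, b', hw, hb'⟩ := hf.toSubtypeRange.exists_hilbertBasis_extension
  have hwι : #w ≤ #ι := by
    by_contra hlt
    rw [not_le] at hlt
    obtain ⟨x, hx1, hx2⟩ := exists_unit_orthogonal b' hH (Set.range b)
      (lt_of_le_of_lt Cardinal.mk_range_le hlt)
    have : x = 0 := eq_zero_of_orth b x fun i => hx2 _ ⟨i, rfl⟩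
    rw [this, norm_zero] at hx1
    exact zero_ne_one hx1
  -- the zeroth block
  let w0 : Set H := {x | x ∈ w ∧ ∀ (j : ℤ) (i : ι), j ≠ 0 → x ≠ f (j, i)}
  have hw0 : w0 ⊆ w := fun x hx => hx.1
  have h1 : #w0 = #ι := by
    refine le_antisymm ((Cardinal.mk_le_mk_of_subset hw0).trans hwι) ?_
    refine Cardinal.mk_le_of_injective (f := fun i : ι => (⟨f (0, i), hw ⟨(0, i), rfl⟩, ?_⟩ : w0)) ?_
    · intro j k hj h
      have := hfi h
      exact hj (congrArg Prod.fst this).symm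
    · intro i k h
      have h2 : f (0, i) = f (0, k) := congrArg Subtype.val h
      exact congrArg Prod.snd (hfi h2)
  obtain ⟨g⟩ : Nonempty (ι ≃ w0) := Cardinal.eq.1 h1.symm
  let e' : ℤ × ι → w := fun p => if p.1 = 0 then ⟨(g p.2 : H), hw0 (g p.2).2⟩ else
    ⟨f p, hw ⟨p, rfl⟩⟩
  have he0 : ∀ i, (e' (0, i) : H) = g i := fun i => by simp [e']
  have he1 : ∀ (j : ℤ) (i : ι), j ≠ 0 → (e' (j, i) : H) = f (j, i) := fun j i hj => by
    simp [e', hj]
  have hinj : Function.Injective e' := by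
    rintro ⟨j, i⟩ ⟨k, l⟩ h
    have hv : (e' (j, i) : H) = e' (k, l) := congrArg Subtype.val h
    by_cases hj : j = 0
    · subst hj
      by_cases hk : k = 0
      · subst hk
        rw [he0, he0] at hv
        rw [g.injective (Subtype.ext hv)]
      · rw [he0, he1 k l hk] at hv
        exact absurd hv ((g i).2.2 k l hk)
    · by_cases hk : k = 0
      · subst hk
        rw [he0, he1 j i hj] at hv
        exact absurd hv.symm ((g l).2.2 j i hj)
      · rw [he1 j i hj, he1 k l hk] at hv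
        exact hfi hv
  have hsurj : ∀ x : w, ∃ p, e' p = x := by
    rintro ⟨x, hx⟩
    by_cases h : ∃ (j : ℤ) (i : ι), j ≠ 0 ∧ x = f (j, i)
    · obtain ⟨j, i, hj, rfl⟩ := h
      exact ⟨(j, i), Subtype.ext (he1 j i hj)⟩
    · push Not at h
      refine ⟨(0, g.symm ⟨x, hx, h⟩), Subtype.ext ?_⟩
      rw [he0, Equiv.apply_symm_apply]
  have ho1 : Orthonormal ℂ (fun p : ℤ × ι => b' (e' p)) := b'.orthonormal.comp _ hinj
  have hz1 : (Submodule.span ℂ (Set.range fun p : ℤ × ι => b' (e' p)))ᗮ = ⊥ := by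
    rw [eq_bot_iff]
    intro v hv
    rw [Submodule.mem_bot]
    apply eq_zero_of_orth b'
    intro x
    obtain ⟨p, rfl⟩ := hsurj x
    have hmem : b' (e' p) ∈ Submodule.span ℂ (Set.range fun p : ℤ × ι => b' (e' p)) :=
      Submodule.subset_span (Set.mem_range_self p)
    exact Submodule.inner_right_of_mem_orthogonal hmem hv
  refine ⟨HilbertBasis.mkOfOrthogonalEqBot ho1 hz1, fun j i hj v hv => ?_⟩
  rw [HilbertBasis.coe_mkOfOrthogonalEqBot]
  show ⟪v, b' (e' (j, i))⟫_ℂ = 0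
  rw [hb', he1 j i hj]
  exact hft (j, i) v hv

/-- `H` as a space of two-sided sequences -/
theorem exists_model {ι : Type u} (b : HilbertBasis ι ℂ H) (e : HilbertBasis (ℤ × ι) ℂ H) :
    ∃ Φ : H ≃ₗᵢ[ℂ] Z H, ∀ (j : ℤ) (i : ι), Φ.symm (lp.single 2 j (b i)) = e (j, i) := by
  classical
  have ho2 : Orthonormal ℂ (fun p : ℤ × ι => (lp.single 2 p.1 (b p.2) : Z H)) := by
    rw [orthonormal_iff_ite]
    rintro ⟨n, i⟩ ⟨m, j⟩
    rw [lp.inner_single_left]
    by_cases h : n = m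
    · subst h
      rw [lp.single_apply_self, orthonormal_iff_ite.1 b.orthonormal i j]
      simp
    · rw [lp.single_apply_ne _ _ _ h, inner_zero_right]
      simp [h]
  have hz2 : (Submodule.span ℂ (Set.range fun p : ℤ × ι =>
      (lp.single 2 p.1 (b p.2) : Z H)))ᗮ = ⊥ := by
    rw [eq_bot_iff]
    intro f hf
    rw [Submodule.mem_bot]
    ext n
    apply eq_zero_of_orth b
    intro j
    have h1 : (lp.single 2 n (b j) : Z H) ∈ Submodule.span ℂ (Set.range fun p : ℤ × ι =>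
      (lp.single 2 p.1 (b p.2) : Z H)) := Submodule.subset_span ⟨(n, j), rfl⟩
    have h2 := Submodule.inner_right_of_mem_orthogonal h1 hf
    rw [lp.inner_single_left] at h2
    exact h2
  let b2 : HilbertBasis (ℤ × ι) ℂ (Z H) := HilbertBasis.mkOfOrthogonalEqBot ho2 hz2
  refine ⟨e.repr.trans b2.repr.symm, fun j i => ?_⟩
  have h3 : (lp.single 2 j (b i) : Z H) = b2 (j, i) := by
    rw [HilbertBasis.coe_mkOfOrthogonalEqBot]
  show e.repr.symm (b2.repr (lp.single 2 j (b i))) = e (j, i)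
  rw [h3, b2.repr_self, e.repr_symm_single]

end Pool.Agent.KS6_87.Inv4
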