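import Pool.Graph.R_seed8.H100R3.InvE

set_option autoImplicit false
set_option linter.unusedSectionVars false

open Pool.Agent.H100R3.Inv

namespace Pool.Agent.KS6_87.Inv4

universe u

section Alg

variable {R : Type u} [Ring R] {X Xs Y Ys : R}

/-- `x` is a product of two elements, each a product of two involutions and without the eigenvalue
`1` (the difference with `1` is invertible). -/
def I4s (x : R) : Prop := ∃ B C : R, I2 B ∧ I2 C ∧ IsUnit (1 - B) ∧ IsUnit (1 - C) ∧ x = B * C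

theorem lower_unit (S : Sys X Xs Y Ys) {a c d : R} (ha : IsUnit a) (hd : IsUnit d) :
    IsUnit (Phi X Xs Y Ys a 0 c d) := by
  obtain ⟨u, rfl⟩ := ha
  obtain ⟨v, rfl⟩ := hd
  refine ⟨⟨Phi X Xs Y Ys u 0 c v, Phi X Xs Y Ys u.inv 0 (-(v.inv * c * u.inv)) v.inv, ?_, ?_⟩, rfl⟩
  · rw [Phi_mul S]
    have h1 : (u : R) * u.inv = 1 := u.val_inv
    have h2 : (v : R) * v.inv = 1 := v.val_inv
    apply Phi_eq_one S
    · rw [h1]; noncomm_ring
    · noncomm_ring
    · have : c * u.inv + (v : R) * -(v.inv * c * u.inv) = c * u.inv - ((v : R) * v.inv) * c * u.inv := by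
        noncomm_ring
      rw [this, h2]; noncomm_ring
    · rw [h2]; noncomm_ring
  · rw [Phi_mul S]
    have h1 : u.inv * (u : R) = 1 := u.inv_val
    have h2 : v.inv * (v : R) = 1 := v.inv_val
    apply Phi_eq_one S
    · rw [h1]; noncomm_ring
    · noncomm_ring
    · have : -(v.inv * c * u.inv) * (u : R) + v.inv * c = v.inv * c - v.inv * c * (u.inv * (u : R)) := by
        noncomm_ring
      rw [this, h1]; noncomm_ring
    · rw [h2]; noncomm_ring

theorem upper_unit (S : Sys X Xs Y Ys) {a b d : R} (ha : IsUnit a) (hd : IsUnit d) :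
    IsUnit (Phi X Xs Y Ys a b 0 d) := by
  obtain ⟨u, rfl⟩ := ha
  obtain ⟨v, rfl⟩ := hd
  refine ⟨⟨Phi X Xs Y Ys u b 0 v, Phi X Xs Y Ys u.inv (-(u.inv * b * v.inv)) 0 v.inv, ?_, ?_⟩, rfl⟩
  · rw [Phi_mul S]
    have h1 : (u : R) * u.inv = 1 := u.val_inv
    have h2 : (v : R) * v.inv = 1 := v.val_inv
    apply Phi_eq_one S
    · rw [h1]; noncomm_ring
    · have : (u : R) * -(u.inv * b * v.inv) + b * v.inv = b * v.inv - ((u : R) * u.inv) * b * v.inv := by
        noncomm_ring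
      rw [this, h1]; noncomm_ring
    · noncomm_ring
    · rw [h2]; noncomm_ring
  · rw [Phi_mul S]
    have h1 : u.inv * (u : R) = 1 := u.inv_val
    have h2 : v.inv * (v : R) = 1 := v.inv_val
    apply Phi_eq_one S
    · rw [h1]; noncomm_ring
    · have : u.inv * b + -(u.inv * b * v.inv) * (v : R) = u.inv * b - u.inv * b * (v.inv * (v : R)) := by
        noncomm_ring
      rw [this, h2]; noncomm_ring
    · noncomm_ring
    · rw [h2]; noncomm_ring

theorem one_sub_Phi (S : Sys X Xs Y Ys) (a b c d : R) :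
    1 - Phi X Xs Y Ys a b c d = Phi X Xs Y Ys (1 - a) (-b) (-c) (1 - d) := by
  have h : 1 - Phi X Xs Y Ys a b c d = Phi X Xs Y Ys 1 0 0 1 - Phi X Xs Y Ys a b c d := by
    rw [Phi_one S]
  rw [h]
  unfold Phi
  noncomm_ring

/-- the algebraic core, with the additional information on the factors -/
theorem core_I4s (S : Sys X Xs Y Ys) (g gi r ri h hi q qi b d z y : R)
    (g1 : g * gi = 1) (g2 : gi * g = 1) (r1 : r * ri = 1) (r2 : ri * r = 1)
    (k1 : h * hi = 1) (k2 : hi * h = 1) (q1 : q * qi = 1) (q2 : qi * q = 1)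
    (hb : (r * g * ri) * (q * h * qi) = -(h * g * b))
    (hz : r * g * ri * z - z * gi = h)
    (hy : hi * y - y * (q * h * qi) = g * (b + gi * hi * (d - gi * hi)))
    (ug : IsUnit (1 - g)) (uh : IsUnit (1 - h)) :
    I4s (Phi X Xs Y Ys 0 b 1 d) := by
  have hX := lower_I2 S g gi r ri h z g1 g2 r1 r2 hz
  have hY := upper_I2 S h hi q qi (g * (b + gi * hi * (d - gi * hi))) y k1 k2 q1 q2 hy
  have e1 : Phi X Xs Y Ys 1 (gi * hi) 0 1 * Phi X Xs Y Ys 1 (-(gi * hi)) 0 1 = 1 := by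
    rw [Phi_mul S]
    apply Phi_eq_one S <;> noncomm_ring
  have e2 : Phi X Xs Y Ys 1 (-(gi * hi)) 0 1 * Phi X Xs Y Ys 1 (gi * hi) 0 1 = 1 := by
    rw [Phi_mul S]
    apply Phi_eq_one S <;> noncomm_ring
  -- units
  have ugi : IsUnit (1 - gi) := by
    have : 1 - gi = -((1 - g) * gi) := by
      have : -((1 - g) * gi) = g * gi - gi := by noncomm_ring
      rw [this, g1]
    rw [this]
    exact (ug.mul ⟨⟨gi, g, g2, g1⟩, rfl⟩).neg
  have uhi : IsUnit (1 - hi) := by
    have : 1 - hi = -((1 - h) * hi) := by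
      have : -((1 - h) * hi) = h * hi - hi := by noncomm_ring
      rw [this, k1]
    rw [this]
    exact (uh.mul ⟨⟨hi, h, k2, k1⟩, rfl⟩).neg
  have ur : IsUnit (1 - r * g * ri) := by
    have : 1 - r * g * ri = r * (1 - g) * ri := by
      have : r * (1 - g) * ri = r * ri - r * g * ri := by noncomm_ring
      rw [this, r1]
    rw [this]
    exact IsUnit.mul (IsUnit.mul ⟨⟨r, ri, r1, r2⟩, rfl⟩ ug) ⟨⟨ri, r, r2, r1⟩, rfl⟩
  have uq : IsUnit (1 - q * h * qi) := by
    have : 1 - q * h * qi = q * (1 - h) * qi := by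
      have : q * (1 - h) * qi = q * qi - q * h * qi := by noncomm_ring
      rw [this, q1]
    rw [this]
    exact IsUnit.mul (IsUnit.mul ⟨⟨q, qi, q1, q2⟩, rfl⟩ uh) ⟨⟨qi, q, q2, q1⟩, rfl⟩
  set Ei := Phi X Xs Y Ys 1 (gi * hi) 0 1 with hEi
  set E := Phi X Xs Y Ys 1 (-(gi * hi)) 0 1 with hE
  have uE : IsUnit E := ⟨⟨E, Ei, e2, e1⟩, rfl⟩
  have uEi : IsUnit Ei := ⟨⟨Ei, E, e1, e2⟩, rfl⟩
  refine ⟨E * Phi X Xs Y Ys gi 0 h (r * g * ri) * Ei,
    E * Phi X Xs Y Ys hi (g * (b + gi * hi * (d - gi * hi))) 0 (q * h * qi) * Ei,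
    hX.conj E Ei e1 e2, hY.conj E Ei e1 e2, ?_, ?_, ?_⟩
  · have : 1 - E * Phi X Xs Y Ys gi 0 h (r * g * ri) * Ei =
        E * (1 - Phi X Xs Y Ys gi 0 h (r * g * ri)) * Ei := by
      have : E * (1 - Phi X Xs Y Ys gi 0 h (r * g * ri)) * Ei =
        E * Ei - E * Phi X Xs Y Ys gi 0 h (r * g * ri) * Ei := by noncomm_ring
      rw [this, e2]
    rw [this, one_sub_Phi S, neg_zero]
    exact (uE.mul (lower_unit S ugi ur)).mul uEi
  · have : 1 - E * Phi X Xs Y Ys hi (g * (b + gi * hi * (d - gi * hi))) 0 (q * h * qi) * Ei =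
        E * (1 - Phi X Xs Y Ys hi (g * (b + gi * hi * (d - gi * hi))) 0 (q * h * qi)) * Ei := by
      have : E * (1 - Phi X Xs Y Ys hi (g * (b + gi * hi * (d - gi * hi))) 0 (q * h * qi)) * Ei =
        E * Ei - E * Phi X Xs Y Ys hi (g * (b + gi * hi * (d - gi * hi))) 0 (q * h * qi) * Ei := by
        noncomm_ring
      rw [this, e2]
    rw [this, one_sub_Phi S, neg_zero]
    exact (uE.mul (upper_unit S uhi uq)).mul uEi
  · have e3 : E * Phi X Xs Y Ys gi 0 h (r * g * ri) * Ei *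
        (E * Phi X Xs Y Ys hi (g * (b + gi * hi * (d - gi * hi))) 0 (q * h * qi) * Ei) =
        E * (Phi X Xs Y Ys gi 0 h (r * g * ri) *
          Phi X Xs Y Ys hi (g * (b + gi * hi * (d - gi * hi))) 0 (q * h * qi)) * Ei := by
      calc _ = E * Phi X Xs Y Ys gi 0 h (r * g * ri) * (Ei * E) *
            Phi X Xs Y Ys hi (g * (b + gi * hi * (d - gi * hi))) 0 (q * h * qi) * Ei := by
            noncomm_ring
        _ = _ := by rw [e1]; noncomm_ring
    rw [e3, hE, hEi, Phi_mul S, Phi_mul S, Phi_mul S]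
    have m1 : h * g * (gi * hi) = 1 := by
      have : h * g * (gi * hi) = h * (g * gi) * hi := by noncomm_ring
      rw [this, g1, mul_one, k1]
    have m2 : gi * (g * (b + gi * hi * (d - gi * hi))) = b + gi * hi * (d - gi * hi) := by
      rw [← mul_assoc, g2, one_mul]
    have m3 : h * (g * (b + gi * hi * (d - gi * hi))) + r * g * ri * (q * h * qi) =
        d - gi * hi := by
      have : h * (g * (b + gi * hi * (d - gi * hi))) + r * g * ri * (q * h * qi) =
        h * g * b + (h * g * (gi * hi)) * (d - gi * hi) + r * g * ri * (q * h * qi) := by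
        noncomm_ring
      rw [this, m1, hb]
      noncomm_ring
    apply Phi_congr
    · simp only [mul_zero, add_zero, zero_mul, one_mul, k1, mul_one]
      abel
    · simp only [mul_zero, add_zero, zero_mul, one_mul, k1, mul_one]
      rw [m2, m3]
      noncomm_ring
    · simp only [mul_zero, add_zero, zero_mul, one_mul, k1, mul_one, zero_add]
    · simp only [mul_zero, add_zero, zero_mul, one_mul, k1, mul_one, zero_add]
      rw [m3]
      noncomm_ring

/-- diagonal sums of products of two involutions -/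
theorem one_diag_I2 (S : Sys X Xs Y Ys) {B : R} (hB : I2 B) : I2 (Phi X Xs Y Ys 1 0 0 B) := by
  obtain ⟨P, Q, p, q, rfl⟩ := hB
  refine ⟨Phi X Xs Y Ys 1 0 0 P, Phi X Xs Y Ys 1 0 0 Q, ?_, ?_, ?_⟩
  · rw [Phi_mul S]
    apply Phi_eq_one S
    · noncomm_ring
    · noncomm_ring
    · noncomm_ring
    · rw [p]; noncomm_ring
  · rw [Phi_mul S]
    apply Phi_eq_one S
    · noncomm_ring
    · noncomm_ring
    · noncomm_ring
    · rw [q]; noncomm_ring
  · rw [Phi_mul S]
    apply Phi_congr <;> noncomm_ring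

/-- **The extension step**: if the Schur complement is good, then the matrix with upper left corner
`1` is a product of four involutions. -/
theorem extend_I4 (S : Sys X Xs Y Ys) (l m d : R) (hZ : I4s (d - l * m)) :
    I4 (Phi X Xs Y Ys 1 m l d) := by
  obtain ⟨B, C, hB, hC, ⟨uB, huB⟩, ⟨uC, huC⟩, hBC⟩ := hZ
  have hb1 : (1 - B) * uB.inv = 1 := by rw [← huB]; exact uB.val_inv
  have hc1 : uC.inv * (1 - C) = 1 := by rw [← huC]; exact uC.inv_val
  set z := uB.inv * l with hz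
  set y := -(m * uC.inv) with hy
  have hz1 : z - B * z = l := by
    have : z - B * z = ((1 - B) * uB.inv) * l := by rw [hz]; noncomm_ring
    rw [this, hb1, one_mul]
  have hy1 : -y + y * C = m := by
    have : -y + y * C = m * (uC.inv * (1 - C)) := by rw [hy]; noncomm_ring
    rw [this, hc1, mul_one]
  have e1 : Phi X Xs Y Ys 1 0 z 1 * Phi X Xs Y Ys 1 0 (-z) 1 = 1 := by
    rw [Phi_mul S]
    apply Phi_eq_one S <;> noncomm_ring
  have e2 : Phi X Xs Y Ys 1 0 (-z) 1 * Phi X Xs Y Ys 1 0 z 1 = 1 := by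
    rw [Phi_mul S]
    apply Phi_eq_one S <;> noncomm_ring
  have f1 : Phi X Xs Y Ys 1 y 0 1 * Phi X Xs Y Ys 1 (-y) 0 1 = 1 := by
    rw [Phi_mul S]
    apply Phi_eq_one S <;> noncomm_ring
  have f2 : Phi X Xs Y Ys 1 (-y) 0 1 * Phi X Xs Y Ys 1 y 0 1 = 1 := by
    rw [Phi_mul S]
    apply Phi_eq_one S <;> noncomm_ring
  have h1 := (one_diag_I2 S hB).conj _ _ e2 e1
  have h2 := (one_diag_I2 S hC).conj _ _ f2 f1
  have g1 : Phi X Xs Y Ys 1 0 z 1 * Phi X Xs Y Ys 1 0 0 B * Phi X Xs Y Ys 1 0 (-z) 1 =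
      Phi X Xs Y Ys 1 0 l B := by
    rw [Phi_mul S, Phi_mul S]
    apply Phi_congr
    · noncomm_ring
    · noncomm_ring
    · rw [← hz1]; noncomm_ring
    · noncomm_ring
  have g2 : Phi X Xs Y Ys 1 y 0 1 * Phi X Xs Y Ys 1 0 0 C * Phi X Xs Y Ys 1 (-y) 0 1 =
      Phi X Xs Y Ys 1 m 0 C := by
    rw [Phi_mul S, Phi_mul S]
    apply Phi_congr
    · noncomm_ring
    · rw [← hy1]; noncomm_ring
    · noncomm_ring
    · noncomm_ring
  rw [g1] at h1
  rw [g2] at h2
  have h3 := h1.mul h2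
  rw [Phi_mul S] at h3
  have : Phi X Xs Y Ys (1 * 1 + 0 * 0) (1 * m + 0 * C) (l * 1 + B * 0) (l * m + B * C) =
      Phi X Xs Y Ys 1 m l d := by
    apply Phi_congr
    · noncomm_ring
    · noncomm_ring
    · noncomm_ring
    · rw [← hBC]; noncomm_ring
  rwa [this] at h3

/-- The extension step for a general matrix: `w` is a solution of `a + w c = 1`. -/
theorem extend_I4' (S : Sys X Xs Y Ys) (a b c d w : R) (hw : a + w * c = 1)
    (hZ : I4s (d - c * (b + w * d))) :
    I4 (Phi X Xs Y Ys a b c d) := by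
  have e1 : Phi X Xs Y Ys 1 w 0 1 * Phi X Xs Y Ys 1 (-w) 0 1 = 1 := by
    rw [Phi_mul S]
    apply Phi_eq_one S <;> noncomm_ring
  have e2 : Phi X Xs Y Ys 1 (-w) 0 1 * Phi X Xs Y Ys 1 w 0 1 = 1 := by
    rw [Phi_mul S]
    apply Phi_eq_one S <;> noncomm_ring
  have h1 := extend_I4 S c (b + w * d - w) (d - c * w) (by
    have : d - c * w - c * (b + w * d - w) = d - c * (b + w * d) := by noncomm_ring
    rw [this]; exact hZ)
  have h2 := h1.conj _ _ e1 e2
  have : Phi X Xs Y Ys 1 (-w) 0 1 * Phi X Xs Y Ys 1 (b + w * d - w) c (d - c * w) *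
      Phi X Xs Y Ys 1 w 0 1 = Phi X Xs Y Ys a b c d := by
    rw [Phi_mul S, Phi_mul S]
    apply Phi_congr
    · have : (1 * 1 + -w * c) * 1 + (1 * (b + w * d - w) + -w * (d - c * w)) * 0 = 1 - w * c := by
        noncomm_ring
      rw [this, ← hw]; abel
    · have : (1 * 1 + -w * c) * w + (1 * (b + w * d - w) + -w * (d - c * w)) * 1 = b := by
        noncomm_ring
      rw [this]
    · noncomm_ring
    · noncomm_ring
  rwa [this] at h2

end Alg

end Pool.Agent.KS6_87.Inv4
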