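import Pool.Agent.KS6_87.Inv4.Fam

set_option autoImplicit false
set_option linter.unusedSectionVars false

open scoped InnerProductSpace ENNReal
open Cardinal Filter Topology

namespace Pool.Agent.KS6_87.Inv4

universe u

variable {H : Type u} [NormedAddCommGroup H] [InnerProductSpace ℂ H] [CompleteSpace H]

/-- compact operators are small off finite sets -/
theorem small_of_compact (K : H →L[ℂ] H) (hK : IsCompactOperator K) (ε : ℝ) (hε : 0 < ε) :
    ∃ s : Set H, s.Finite ∧ ∀ x : H, (∀ v ∈ s, ⟪v, x⟫_ℂ = 0) → ‖K x‖ ≤ ε * ‖x‖ := by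
  obtain ⟨C, hC, hsub⟩ := IsCompactOperator.image_closedBall_subset_compact
    (f := (K : H →ₗ[ℂ] H)) hK 1
  obtain ⟨t, ht, hcov⟩ := Metric.totallyBounded_iff.1 hC.totallyBounded ε hε
  refine ⟨(fun y => ContinuousLinearMap.adjoint K y) '' t, ht.image _, fun x hx => ?_⟩
  by_cases hx0 : x = 0
  · rw [hx0]; simp
  have hn : ‖x‖ ≠ 0 := norm_ne_zero_iff.2 hx0
  set u : H := ((‖x‖⁻¹ : ℝ) : ℂ) • x with hu
  have hu1 : ‖u‖ = 1 := by
    rw [hu, norm_smul, Complex.norm_real, norm_inv, norm_norm, inv_mul_cancel₀ hn]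
  have hxu : x = ((‖x‖ : ℝ) : ℂ) • u := by
    rw [hu, smul_smul, ← Complex.ofReal_mul, mul_inv_cancel₀ hn, Complex.ofReal_one, one_smul]
  have hmem : K u ∈ C := hsub ⟨u, by rw [mem_closedBall_zero_iff, hu1], rfl⟩
  obtain ⟨y, hy, hyd⟩ := Set.mem_iUnion₂.1 (hcov hmem)
  rw [Metric.mem_ball, dist_eq_norm] at hyd
  have h0 : ⟪y, K u⟫_ℂ = 0 := by
    rw [← ContinuousLinearMap.adjoint_inner_left]
    have := hx _ ⟨y, hy, rfl⟩
    rw [hu, inner_smul_right, this, mul_zero]
  have h1 : ‖K u‖ ^ 2 ≤ ε * ‖K u‖ := by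
    have e : ⟪K u, K u⟫_ℂ = ⟪K u - y, K u⟫_ℂ := by rw [inner_sub_left, h0, sub_zero]
    have e2 : ‖⟪K u, K u⟫_ℂ‖ = ‖K u‖ ^ 2 := by
      rw [inner_self_eq_norm_sq_to_K, norm_pow]
      simp
    rw [← e2, e]
    exact (norm_inner_le_norm _ _).trans (by gcongr)
  have h2 : ‖K u‖ ≤ ε := by
    by_contra hcon
    push Not at hcon
    nlinarith [norm_nonneg (K u)]
  rw [hxu, map_smul, norm_smul, norm_smul, hu1, Complex.norm_real, norm_norm]
  nlinarith [norm_nonneg x]

/-- operators that are small off finite sets are compact -/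
theorem compact_of_small (K : H →L[ℂ] H) (h : ∀ ε : ℝ, 0 < ε → ∃ s : Set H, s.Finite ∧
    ∀ x : H, (∀ v ∈ s, ⟪v, x⟫_ℂ = 0) → ‖K x‖ ≤ ε * ‖x‖) : IsCompactOperator K := by
  have hcl := isClosed_setOfPred_isCompactOperator (𝕜₁ := ℂ) (𝕜₂ := ℂ) (σ₁₂ := RingHom.id ℂ)
    (M₁ := H) (M₂ := H)
  have : K ∈ closure {f : H →L[ℂ] H | IsCompactOperator f} := by
    rw [Metric.mem_closure_iff]
    intro ε hε
    obtain ⟨s, hs, hx⟩ := h (ε / 2) (by positivity)
    have hfd : FiniteDimensional ℂ (Submodule.span ℂ s) := FiniteDimensional.span_of_finite ℂ hs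
    set P := (Submodule.span ℂ s).starProjection with hP
    refine ⟨(K ∘L (Submodule.span ℂ s).subtypeL) ∘L (Submodule.span ℂ s).orthogonalProjectionOnto,
      ?_, ?_⟩
    · exact (isCompactOperator_of_locallyCompactSpace_rng
        (K ∘L (Submodule.span ℂ s).subtypeL)).comp_clm _
    · rw [dist_eq_norm]
      refine lt_of_le_of_lt (ContinuousLinearMap.opNorm_le_bound _ (show 0 ≤ ε / 2 by positivity) ?_)
        (half_lt_self hε)
      intro x
      have e : (K - (K ∘L (Submodule.span ℂ s).subtypeL) ∘L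
          (Submodule.span ℂ s).orthogonalProjectionOnto) x = K (x - P x) := by
        rw [map_sub]; rfl
      rw [e]
      have horth : x - P x ∈ (Submodule.span ℂ s)ᗮ := Submodule.sub_starProjection_mem_orthogonal x
      have hle : ‖x - P x‖ ≤ ‖x‖ := by
        have h2 : (Submodule.span ℂ s)ᗮ.starProjection x = x - P x :=
          Submodule.starProjection_orthogonal_val x
        rw [← h2]
        exact Submodule.norm_starProjection_apply_le _ x
      refine (hx _ fun v hv => ?_).trans (by gcongr)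
      exact (Submodule.mem_orthogonal _ _).1 horth v (Submodule.subset_span hv)
  rwa [hcl.closure_eq] at this

/-- Hilbert bases of separable spaces are countable -/
theorem countable_of_separable [TopologicalSpace.SeparableSpace H] {ι : Type u}
    (b : HilbertBasis ι ℂ H) : Countable ι := by
  obtain ⟨D, hDc, hD⟩ := TopologicalSpace.exists_countable_dense H
  have h : ∀ i : ι, ∃ d : D, dist (b i) (d : H) < 1 / 2 := fun i => by
    obtain ⟨d, hd, hdist⟩ := Metric.mem_closure_iff.1 (hD (b i)) (1 / 2) (by norm_num)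
    exact ⟨⟨d, hd⟩, hdist⟩
  choose d hd using h
  have hinj : Function.Injective d := by
    intro i j hij
    by_contra hne
    have h1 : ‖b i - b j‖ < 1 := by
      rw [← dist_eq_norm]
      calc dist (b i) (b j) ≤ dist (b i) (d i : H) + dist (b j) (d i : H) := dist_triangle_right _ _ _
        _ < 1 / 2 + 1 / 2 := add_lt_add (hd i) (by rw [hij]; exact hd j)
        _ = 1 := by norm_num
    have h2 : ‖b i - b j‖ ^ 2 = 2 := by
      have := norm_sub_sq (𝕜 := ℂ) (b i) (b j)
      rw [b.orthonormal.2 hne, b.orthonormal.1 i, b.orthonormal.1 j] at this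
      rw [this]; norm_num
    nlinarith [norm_nonneg (b i - b j)]
  have : Countable D := hDc.to_subtype
  exact hinj.countable

/-- with a countable Hilbert basis negligible means compact -/
theorem negl_iff_compact {ι : Type u} [Infinite ι] [Countable ι] (b : HilbertBasis ι ℂ H)
    (K : H →L[ℂ] H) : Negl b K ↔ IsCompactOperator K := by
  have hι : #ι = ℵ₀ := Cardinal.mk_eq_aleph0 ι
  constructor
  · intro h
    refine compact_of_small K fun ε hε => ?_
    obtain ⟨s, hs, hx⟩ := h ε hε
    rw [hι, Cardinal.lt_aleph0_iff_set_finite] at hs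
    exact ⟨s, hs, hx⟩
  · intro h ε hε
    obtain ⟨s, hs, hx⟩ := small_of_compact K h ε hε
    exact ⟨s, by rw [hι, Cardinal.lt_aleph0_iff_set_finite]; exact hs, hx⟩

end Pool.Agent.KS6_87.Inv4
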