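import Pool.Agent.KS6_87.Inv4.Struct

set_option autoImplicit false
set_option linter.unusedSectionVars false

open scoped InnerProductSpace ENNReal
open Cardinal Filter Topology
open Pool.Agent.H100R3.Inv

namespace Pool.Agent.KS6_87.Inv4

universe u

variable {H : Type u} [NormedAddCommGroup H] [InnerProductSpace ℂ H] [CompleteSpace H]

/-- `K` is negligible: small, in norm, on the orthogonal complements of sets with fewer elements
than a Hilbert basis. (If the Hilbert basis is countable: `K` is compact.) -/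
def Negl {ι : Type u} (_ : HilbertBasis ι ℂ H) (K : H →L[ℂ] H) : Prop :=
  ∀ ε : ℝ, 0 < ε → ∃ s : Set H, #s < #ι ∧ ∀ x : H, (∀ v ∈ s, ⟪v, x⟫_ℂ = 0) → ‖K x‖ ≤ ε * ‖x‖

/-- families of unit vectors `p` which `A` moves off themselves by `ε`, such that the spaces spanned
by `p, A p, A² p` are orthogonal -/
def Adm2 (A : H →L[ℂ] H) (ε : ℝ) (S : Set H) : Prop :=
  ∀ p ∈ S, ‖p‖ = 1 ∧ ε ≤ ‖A p - ⟪p, A p⟫_ℂ • p‖ ∧ ∀ q ∈ S, p ≠ q →
    ⟪p, q⟫_ℂ = 0 ∧ ⟪p, A q⟫_ℂ = 0 ∧ ⟪p, A (A q)⟫_ℂ = 0 ∧ ⟪A p, A q⟫_ℂ = 0 ∧ ⟪A p, A (A q)⟫_ℂ = 0 ∧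
      ⟪A (A p), A (A q)⟫_ℂ = 0

theorem exists_maximal2 (A : H →L[ℂ] H) (ε : ℝ) : ∃ S, Maximal (Adm2 A ε) S := by
  refine zorn_subset {S | Adm2 A ε S} ?_
  intro c hc hchain
  refine ⟨⋃₀ c, ?_, fun s hs => Set.subset_sUnion_of_mem hs⟩
  intro p hp
  obtain ⟨s, hs, hps⟩ := hp
  have h1 : Adm2 A ε s := hc hs
  refine ⟨(h1 p hps).1, (h1 p hps).2.1, ?_⟩
  rintro q ⟨t, ht, hqt⟩
  rcases hchain.total hs ht with h | h
  · exact ((hc ht : Adm2 A ε t) p (h hps)).2.2 q hqt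
  · exact (h1 p hps).2.2 q (h hqt)

theorem small_list {κ : Cardinal.{u}} (hκ : ℵ₀ ≤ κ) (S : Set H) (hS : #S < κ) (L : List (H → H)) :
    #{v : H | ∃ f ∈ L, ∃ q ∈ S, v = f q} < κ := by
  induction L with
  | nil =>
    have : {v : H | ∃ f ∈ ([] : List (H → H)), ∃ q ∈ S, v = f q} = ∅ := by
      ext v; simp
    rw [this, Cardinal.mk_eq_zero]
    exact lt_of_lt_of_le Cardinal.aleph0_pos hκ
  | cons f L ih =>
    have hsub : {v : H | ∃ g ∈ f :: L, ∃ q ∈ S, v = g q} ⊆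
        (f '' S) ∪ {v : H | ∃ g ∈ L, ∃ q ∈ S, v = g q} := by
      rintro v ⟨g, hg, q, hq, rfl⟩
      rcases List.mem_cons.1 hg with rfl | hg
      · exact Or.inl ⟨q, hq, rfl⟩
      · exact Or.inr ⟨g, hg, q, hq, rfl⟩
    refine lt_of_le_of_lt (Cardinal.mk_le_mk_of_subset hsub) ?_
    refine lt_of_le_of_lt (Cardinal.mk_union_le _ _) ?_
    exact Cardinal.add_lt_of_lt hκ (lt_of_le_of_lt Cardinal.mk_image_le hS) ih

theorem small_union {κ : Cardinal.{u}} (hκ : ℵ₀ ≤ κ) {s t : Set H} (hs : #s < κ) (ht : #t < κ) :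
    #(s ∪ t : Set H) < κ :=
  lt_of_le_of_lt (Cardinal.mk_union_le _ _) (Cardinal.add_lt_of_lt hκ hs ht)

theorem small_pair {κ : Cardinal.{u}} (hκ : ℵ₀ ≤ κ) (x y : H) : #({x, y} : Set H) < κ :=
  lt_of_lt_of_le (Cardinal.lt_aleph0_iff_set_finite.2 (Set.toFinite _)) hκ

/-- if a maximal family is small then `A` is almost scalar off a small set -/
theorem almost_of_maximal {ι : Type u} (b : HilbertBasis ι ℂ H)
    (hH : ¬ FiniteDimensional ℂ H) (A : H →L[ℂ] H) (ε : ℝ) (S : Set H)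
    (hS : Maximal (Adm2 A ε) S) (hlt : #S < #ι) :
    ∃ s : Set H, #s < #ι ∧ ∀ x : H, ‖x‖ = 1 → (∀ v ∈ s, ⟪v, x⟫_ℂ = 0) →
      ‖A x - ⟪x, A x⟫_ℂ • x‖ < ε := by
  have hinf : Infinite ι := infinite_index b hH
  have hι : ℵ₀ ≤ #ι := Cardinal.aleph0_le_mk ι
  set As := ContinuousLinearMap.adjoint A with hAs
  have ad : ∀ u v : H, ⟪As u, v⟫_ℂ = ⟪u, A v⟫_ℂ := fun u v => ContinuousLinearMap.adjoint_inner_left A v u
  refine ⟨_, small_list hι S hlt [fun q => q, fun q => A q, fun q => A (A q), fun q => As (A q),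
    fun q => As (A (A q)), fun q => As (As (A (A q))), fun q => As q, fun q => As (As q),
    fun q => As (As (A q))], ?_⟩
  intro x hx1 hx
  by_contra hcon
  push Not at hcon
  have symm0 : ∀ u v : H, ⟪u, v⟫_ℂ = 0 → ⟪v, u⟫_ℂ = 0 := fun u v h => by
    rw [← inner_conj_symm, h, map_zero]
  have e0 : ∀ q ∈ S, ⟪q, x⟫_ℂ = 0 := fun q hq => hx _ ⟨fun q => q, by simp, q, hq, rfl⟩
  have e1 : ∀ q ∈ S, ⟪A q, x⟫_ℂ = 0 := fun q hq => hx _ ⟨fun q => A q, by simp, q, hq, rfl⟩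
  have e2 : ∀ q ∈ S, ⟪A (A q), x⟫_ℂ = 0 := fun q hq => hx _ ⟨fun q => A (A q), by simp, q, hq, rfl⟩
  have e3 : ∀ q ∈ S, ⟪A q, A x⟫_ℂ = 0 := fun q hq => by
    rw [← ad]; exact hx _ ⟨fun q => As (A q), by simp, q, hq, rfl⟩
  have e4 : ∀ q ∈ S, ⟪A (A q), A x⟫_ℂ = 0 := fun q hq => by
    rw [← ad]; exact hx _ ⟨fun q => As (A (A q)), by simp, q, hq, rfl⟩
  have e5 : ∀ q ∈ S, ⟪A (A q), A (A x)⟫_ℂ = 0 := fun q hq => by
    rw [← ad, ← ad]; exact hx _ ⟨fun q => As (As (A (A q))), by simp, q, hq, rfl⟩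
  have e6 : ∀ q ∈ S, ⟪q, A x⟫_ℂ = 0 := fun q hq => by
    rw [← ad]; exact hx _ ⟨fun q => As q, by simp, q, hq, rfl⟩
  have e7 : ∀ q ∈ S, ⟪q, A (A x)⟫_ℂ = 0 := fun q hq => by
    rw [← ad, ← ad]; exact hx _ ⟨fun q => As (As q), by simp, q, hq, rfl⟩
  have e8 : ∀ q ∈ S, ⟪A q, A (A x)⟫_ℂ = 0 := fun q hq => by
    rw [← ad, ← ad]; exact hx _ ⟨fun q => As (As (A q)), by simp, q, hq, rfl⟩
  have hnew : Adm2 A ε (insert x S) := by
    intro p hp
    rcases hp with rfl | hp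
    · refine ⟨hx1, hcon, ?_⟩
      intro q hq hne
      rcases hq with rfl | hq
      · exact absurd rfl hne
      · exact ⟨symm0 _ _ (e0 q hq), symm0 _ _ (e1 q hq), symm0 _ _ (e2 q hq), symm0 _ _ (e3 q hq),
          symm0 _ _ (e4 q hq), symm0 _ _ (e5 q hq)⟩
    · refine ⟨(hS.prop p hp).1, (hS.prop p hp).2.1, ?_⟩
      intro q hq hne
      rcases hq with rfl | hq
      · exact ⟨e0 p hp, e6 p hp, e7 p hp, e3 p hp, e8 p hp, e5 p hp⟩
      · exact (hS.prop p hp).2.2 q hq hne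
  have hmem : x ∈ S := hS.le_of_ge hnew (Set.subset_insert _ _) (Set.mem_insert _ _)
  have := e0 _ hmem
  simp only [inner_self_eq_zero] at this
  rw [this, norm_zero] at hx1
  exact zero_ne_one hx1

/-- almost eigenvectors everywhere off `s` have almost the same eigenvalue -/
theorem almost_scalar {ι : Type u} (b : HilbertBasis ι ℂ H)
    (hH : ¬ FiniteDimensional ℂ H) (A : H →L[ℂ] H) (ε : ℝ) (hε : 0 ≤ ε) (s : Set H) (hs : #s < #ι)
    (h : ∀ x : H, ‖x‖ = 1 → (∀ v ∈ s, ⟪v, x⟫_ℂ = 0) → ‖A x - ⟪x, A x⟫_ℂ • x‖ < ε) :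
    ∃ lam : ℂ, ∀ x : H, (∀ v ∈ s, ⟪v, x⟫_ℂ = 0) → ‖A x - lam • x‖ ≤ 17 * ε * ‖x‖ := by
  have hinf : Infinite ι := infinite_index b hH
  have hι : ℵ₀ ≤ #ι := Cardinal.aleph0_le_mk ι
  -- scaled version of the hypothesis
  have h' : ∀ x : H, (∀ v ∈ s, ⟪v, x⟫_ℂ = 0) → ∃ μ : ℂ, ‖A x - μ • x‖ ≤ ε * ‖x‖ := by
    intro x hx
    by_cases hx0 : x = 0
    · exact ⟨0, by rw [hx0]; simp⟩
    · have hn : ‖x‖ ≠ 0 := norm_ne_zero_iff.2 hx0
      set y : H := ((‖x‖⁻¹ : ℝ) : ℂ) • x with hy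
      have hy1 : ‖y‖ = 1 := by
        rw [hy, norm_smul, Complex.norm_real, norm_inv, norm_norm, inv_mul_cancel₀ hn]
      have hxy : x = ((‖x‖ : ℝ) : ℂ) • y := by
        rw [hy, smul_smul, ← Complex.ofReal_mul, mul_inv_cancel₀ hn, Complex.ofReal_one, one_smul]
      refine ⟨⟪y, A y⟫_ℂ, ?_⟩
      have h2 := (h y hy1 (fun v hv => by rw [hy, inner_smul_right, hx v hv, mul_zero])).le
      have e : A x - ⟪y, A y⟫_ℂ • x = ((‖x‖ : ℝ) : ℂ) • (A y - ⟪y, A y⟫_ℂ • y) := by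
        conv_lhs => rw [hxy]
        rw [map_smul, smul_sub, smul_comm]
      rw [e, norm_smul, Complex.norm_real, norm_norm, mul_comm]
      gcongr
  -- two orthogonal unit vectors
  have h2 : ∀ x y : H, ‖x‖ = 1 → ‖y‖ = 1 → ⟪x, y⟫_ℂ = 0 → (∀ v ∈ s, ⟪v, x⟫_ℂ = 0) →
      (∀ v ∈ s, ⟪v, y⟫_ℂ = 0) → ∀ μ ν : ℂ, ‖A x - μ • x‖ ≤ ε → ‖A y - ν • y‖ ≤ ε →
      ‖μ - ν‖ ≤ 8 * ε := by
    intro x y hx hy hxy hxs hys μ ν h1 h2
    obtain ⟨τ, hτ⟩ := h' (x + y) (fun v hv => by rw [inner_add_right, hxs v hv, hys v hv, add_zero])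
    have hn : ‖x + y‖ ≤ 2 := (norm_add_le _ _).trans (by rw [hx, hy]; norm_num)
    set D : H := (μ - τ) • x + (ν - τ) • y with hD
    have hD1 : D = (A (x + y) - τ • (x + y)) - (A x - μ • x) - (A y - ν • y) := by
      rw [hD, map_add]
      module
    have hDn : ‖D‖ ≤ 4 * ε := by
      rw [hD1]
      calc _ ≤ ‖A (x + y) - τ • (x + y)‖ + ‖A x - μ • x‖ + ‖A y - ν • y‖ :=
            (norm_sub_le _ _).trans (add_le_add (norm_sub_le _ _) le_rfl)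
        _ ≤ ε * 2 + ε + ε := by
            gcongr
            exact hτ.trans (by gcongr)
        _ = 4 * ε := by ring
    have hyx : ⟪y, x⟫_ℂ = 0 := by rw [← inner_conj_symm, hxy, map_zero]
    have hxx : ⟪x, x⟫_ℂ = 1 := by rw [inner_self_eq_norm_sq_to_K, hx]; simp
    have hyy : ⟪y, y⟫_ℂ = 1 := by rw [inner_self_eq_norm_sq_to_K, hy]; simp
    have a1 : ⟪x, D⟫_ℂ = μ - τ := by
      rw [hD, inner_add_right, inner_smul_right, inner_smul_right, hxy, hxx]; ring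
    have a2 : ⟪y, D⟫_ℂ = ν - τ := by
      rw [hD, inner_add_right, inner_smul_right, inner_smul_right, hyx, hyy]; ring
    have c1 : ‖μ - τ‖ ≤ 4 * ε := by
      rw [← a1]
      refine (norm_inner_le_norm _ _).trans ?_
      rw [hx, one_mul]; exact hDn
    have c2 : ‖ν - τ‖ ≤ 4 * ε := by
      rw [← a2]
      refine (norm_inner_le_norm _ _).trans ?_
      rw [hy, one_mul]; exact hDn
    calc ‖μ - ν‖ = ‖(μ - τ) - (ν - τ)‖ := by congr 1; ring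
      _ ≤ ‖μ - τ‖ + ‖ν - τ‖ := norm_sub_le _ _
      _ ≤ 8 * ε := by linarith
  obtain ⟨x0, hx01, hx0⟩ := exists_unit_orthogonal b hH s hs
  obtain ⟨lam, hlam⟩ := h' x0 hx0
  rw [hx01, mul_one] at hlam
  refine ⟨lam, ?_⟩
  have key : ∀ x : H, ‖x‖ = 1 → (∀ v ∈ s, ⟪v, x⟫_ℂ = 0) → ‖A x - lam • x‖ ≤ 17 * ε := by
    intro x hx hxs
    obtain ⟨μ, hμ⟩ := h' x hxs
    rw [hx, mul_one] at hμ
    obtain ⟨z, hz1, hz⟩ := exists_unit_orthogonal b hH (s ∪ {x0, x})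
      (small_union hι hs (small_pair hι x0 x))
    obtain ⟨ν, hν⟩ := h' z (fun v hv => hz v (Or.inl hv))
    rw [hz1, mul_one] at hν
    have hzs : ∀ v ∈ s, ⟪v, z⟫_ℂ = 0 := fun v hv => hz v (Or.inl hv)
    have b1 := h2 x0 z hx01 hz1 (hz x0 (Or.inr (by simp))) hx0 hzs lam ν hlam hν
    have b2 := h2 x z hx hz1 (hz x (Or.inr (by simp))) hxs hzs μ ν hμ hν
    have b3 : ‖μ - lam‖ ≤ 16 * ε := by
      calc ‖μ - lam‖ = ‖(μ - ν) - (lam - ν)‖ := by congr 1; ring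
        _ ≤ ‖μ - ν‖ + ‖lam - ν‖ := norm_sub_le _ _
        _ ≤ 16 * ε := by linarith
    have e : A x - lam • x = (A x - μ • x) + (μ - lam) • x := by module
    calc ‖A x - lam • x‖ ≤ ‖A x - μ • x‖ + ‖(μ - lam) • x‖ := by rw [e]; exact norm_add_le _ _
      _ ≤ ε + 16 * ε := by
          rw [norm_smul, hx, mul_one]
          exact add_le_add hμ b3
      _ = 17 * ε := by ring
  intro x hxs
  by_cases hx0' : x = 0
  · rw [hx0']; simp
  · have hn : ‖x‖ ≠ 0 := norm_ne_zero_iff.2 hx0'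
    set y : H := ((‖x‖⁻¹ : ℝ) : ℂ) • x with hy
    have hy1 : ‖y‖ = 1 := by
      rw [hy, norm_smul, Complex.norm_real, norm_inv, norm_norm, inv_mul_cancel₀ hn]
    have hxy : x = ((‖x‖ : ℝ) : ℂ) • y := by
      rw [hy, smul_smul, ← Complex.ofReal_mul, mul_inv_cancel₀ hn, Complex.ofReal_one, one_smul]
    have h3 := key y hy1 (fun v hv => by rw [hy, inner_smul_right, hxs v hv, mul_zero])
    have e : A x - lam • x = ((‖x‖ : ℝ) : ℂ) • (A y - lam • y) := by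
      conv_lhs => rw [hxy]
      rw [map_smul, smul_sub, smul_comm]
    rw [e, norm_smul, Complex.norm_real, norm_norm, mul_comm]
    gcongr

/-- an operator that is almost scalar off small sets is a scalar plus a negligible operator -/
theorem scalar_add_negl {ι : Type u} (b : HilbertBasis ι ℂ H)
    (hH : ¬ FiniteDimensional ℂ H) (A : H →L[ℂ] H)
    (h : ∀ ε : ℝ, 0 < ε → ∃ (s : Set H) (lam : ℂ), #s < #ι ∧
      ∀ x : H, (∀ v ∈ s, ⟪v, x⟫_ℂ = 0) → ‖A x - lam • x‖ ≤ ε * ‖x‖) :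
    ∃ lam : ℂ, Negl b (A - lam • 1) := by
  have hinf : Infinite ι := infinite_index b hH
  have hι : ℵ₀ ≤ #ι := Cardinal.aleph0_le_mk ι
  choose! s lam hs hlam using h
  have hdist : ∀ ε δ : ℝ, 0 < ε → 0 < δ → ‖lam ε - lam δ‖ ≤ ε + δ := by
    intro ε δ hε hδ
    obtain ⟨x, hx1, hx⟩ := exists_unit_orthogonal b hH (s ε ∪ s δ)
      (small_union hι (hs ε hε) (hs δ hδ))
    have h1 := hlam ε hε x (fun v hv => hx v (Or.inl hv))
    have h2 := hlam δ hδ x (fun v hv => hx v (Or.inr hv))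
    rw [hx1, mul_one] at h1 h2
    have e : (lam ε - lam δ) • x = (A x - lam δ • x) - (A x - lam ε • x) := by module
    calc ‖lam ε - lam δ‖ = ‖(lam ε - lam δ) • x‖ := by rw [norm_smul, hx1, mul_one]
      _ ≤ ‖A x - lam δ • x‖ + ‖A x - lam ε • x‖ := by rw [e]; exact norm_sub_le _ _
      _ ≤ ε + δ := by linarith
  set f : ℕ → ℂ := fun n => lam (1 / ((n : ℝ) + 1)) with hf
  have hpos : ∀ n : ℕ, (0 : ℝ) < 1 / ((n : ℝ) + 1) := fun n => by positivity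
  have hc : CauchySeq f := by
    rw [Metric.cauchySeq_iff']
    intro ε hε
    obtain ⟨N, hN⟩ := exists_nat_one_div_lt (show 0 < ε / 2 by positivity)
    refine ⟨N, fun n hn => ?_⟩
    rw [dist_eq_norm]
    have h1 := hdist _ _ (hpos n) (hpos N)
    have h2 : 1 / ((n : ℝ) + 1) ≤ 1 / ((N : ℝ) + 1) := by
      apply one_div_le_one_div_of_le (by positivity)
      have : (N : ℝ) ≤ n := by exact_mod_cast hn
      linarith
    calc ‖f n - f N‖ ≤ 1 / ((n : ℝ) + 1) + 1 / ((N : ℝ) + 1) := h1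
      _ < ε := by linarith
  obtain ⟨l, hl⟩ := cauchySeq_tendsto_of_complete hc
  refine ⟨l, fun ε hε => ?_⟩
  have hb : ∀ n : ℕ, ‖f n - l‖ ≤ 1 / ((n : ℝ) + 1) := by
    intro n
    have h1 : Tendsto (fun m => ‖f n - f m‖) atTop (𝓝 ‖f n - l‖) :=
      (tendsto_const_nhds.sub hl).norm
    have h2 : Tendsto (fun m : ℕ => 1 / ((n : ℝ) + 1) + 1 / ((m : ℝ) + 1)) atTop
        (𝓝 (1 / ((n : ℝ) + 1) + 0)) :=
      tendsto_const_nhds.add tendsto_one_div_add_atTop_nhds_zero_nat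
    have h3 := le_of_tendsto_of_tendsto' h1 h2 (fun m => hdist _ _ (hpos n) (hpos m))
    rwa [add_zero] at h3
  obtain ⟨N, hN⟩ := exists_nat_one_div_lt (show 0 < ε / 2 by positivity)
  refine ⟨s (1 / ((N : ℝ) + 1)), hs _ (hpos N), fun x hx => ?_⟩
  have h1 := hlam _ (hpos N) x hx
  have e : (A - l • (1 : H →L[ℂ] H)) x = (A x - f N • x) + (f N - l) • x := by
    show A x - l • x = _
    module
  rw [e]
  calc ‖(A x - f N • x) + (f N - l) • x‖ ≤ ‖A x - f N • x‖ + ‖(f N - l) • x‖ := norm_add_le _ _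
    _ ≤ 1 / ((N : ℝ) + 1) * ‖x‖ + 1 / ((N : ℝ) + 1) * ‖x‖ := by
        rw [norm_smul]
        gcongr
        exact hb N
    _ ≤ ε * ‖x‖ := by
        have := norm_nonneg x
        nlinarith

/-- **Dichotomy.** -/
theorem exists_big_family {ι : Type u} (b : HilbertBasis ι ℂ H)
    (hH : ¬ FiniteDimensional ℂ H) (A : H →L[ℂ] H) (hA : ∀ lam : ℂ, ¬ Negl b (A - lam • 1)) :
    ∃ (ε : ℝ) (S : Set H), 0 < ε ∧ Adm2 A ε S ∧ #ι ≤ #S := by
  by_contra hcon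
  push Not at hcon
  obtain ⟨l, hl⟩ := scalar_add_negl b hH A (by
    intro ε hε
    obtain ⟨S, hS⟩ := exists_maximal2 A (ε / 17)
    have hlt : #S < #ι := hcon (ε / 17) S (by positivity) hS.prop
    obtain ⟨s, hs, h⟩ := almost_of_maximal b hH A (ε / 17) S hS hlt
    obtain ⟨lam, hlam⟩ := almost_scalar b hH A (ε / 17) (by positivity) s hs h
    refine ⟨s, lam, hs, fun x hx => ?_⟩
    have := hlam x hx
    have e : 17 * (ε / 17) = ε := by ring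
    rwa [e] at this)
  exact hA l hl

end Pool.Agent.KS6_87.Inv4
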