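import Pool.Agent.KS6_87.Inv4.Alg

set_option autoImplicit false
set_option linter.unusedSectionVars false

open Pool.Agent.H100R3.Inv

namespace Pool.Agent.KS6_87.Inv4

universe u

section Banach

variable {R : Type u} [NormedRing R] [NormedAlgebra ℂ R] [CompleteSpace R]

/-- a small positive scalar -/
theorem exists_small2 (a c : ℝ) (ha : 0 ≤ a) (hc : 0 ≤ c) : ∃ s : ℝ, 0 < s ∧ s * s * a < 1 ∧ s * c < 1 := by
  refine ⟨(1 + a + c)⁻¹, by positivity, ?_, ?_⟩
  · have h1 : (1 + a + c)⁻¹ * (1 + a + c) = 1 := inv_mul_cancel₀ (by positivity)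
    have h2 : (1 + a + c)⁻¹ ≤ 1 := inv_le_one_of_one_le₀ (by linarith)
    have h3 : 0 < (1 + a + c)⁻¹ := by positivity
    nlinarith [mul_nonneg h3.le ha, mul_nonneg h3.le hc]
  · have h1 : (1 + a + c)⁻¹ * (1 + a + c) = 1 := inv_mul_cancel₀ (by positivity)
    have h3 : 0 < (1 + a + c)⁻¹ := by positivity
    nlinarith [mul_nonneg h3.le ha]

/-- the block matrix `(0 b; 1 d)` is a product of two good factors when `-b` is a product of two
commutators -/
theorem block_I4s {X Xs Y Ys : R} (S : Sys X Xs Y Ys) (b d D Di r ri E Ei Q Qi : R)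
    (d1 : D * Di = 1) (d2 : Di * D = 1) (r1 : r * ri = 1) (r2 : ri * r = 1)
    (e1 : E * Ei = 1) (e2 : Ei * E = 1) (q1 : Q * Qi = 1) (q2 : Qi * Q = 1)
    (hb : -b = Di * (r * D * ri) * (Ei * (Q * E * Qi))) :
    I4s (Phi X Xs Y Ys 0 b 1 d) := by
  obtain ⟨s, s0, hs, hs'⟩ := exists_small2 (‖E * r * D * (ri * Ei)‖ * ‖D‖) ‖D‖ (by positivity)
    (norm_nonneg _)
  obtain ⟨t, t0, ht, ht'⟩ := exists_small2 (‖E‖ * ‖Q * E * Qi‖) ‖E‖ (by positivity) (norm_nonneg _)
  have sc : ((s : ℝ) : ℂ) ≠ 0 := Complex.ofReal_ne_zero.2 s0.ne'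
  have tc : ((t : ℝ) : ℂ) ≠ 0 := Complex.ofReal_ne_zero.2 t0.ne'
  have ns : ‖((s : ℝ) : ℂ)‖ = s := by rw [Complex.norm_real, Real.norm_of_nonneg s0.le]
  have nt : ‖((t : ℝ) : ℂ)‖ = t := by rw [Complex.norm_real, Real.norm_of_nonneg t0.le]
  set σ : ℂ := ((s : ℝ) : ℂ) with hσ
  set τ : ℂ := ((t : ℝ) : ℂ) with hτ
  have g1 : (σ • D) * (σ⁻¹ • Di) = 1 := by
    rw [smul_mul_smul_comm, d1, mul_inv_cancel₀ sc, one_smul]
  have g2 : (σ⁻¹ • Di) * (σ • D) = 1 := by
    rw [smul_mul_smul_comm, d2, inv_mul_cancel₀ sc, one_smul]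
  have k1 : (τ • E) * (τ⁻¹ • Ei) = 1 := by
    rw [smul_mul_smul_comm, e1, mul_inv_cancel₀ tc, one_smul]
  have k2 : (τ⁻¹ • Ei) * (τ • E) = 1 := by
    rw [smul_mul_smul_comm, e2, inv_mul_cancel₀ tc, one_smul]
  have rr1 : (E * r) * (ri * Ei) = 1 := by
    have : (E * r) * (ri * Ei) = E * (r * ri) * Ei := by noncomm_ring
    rw [this, r1, mul_one, e1]
  have rr2 : (ri * Ei) * (E * r) = 1 := by
    have : (ri * Ei) * (E * r) = ri * (Ei * E) * r := by noncomm_ring
    rw [this, e2, mul_one, r2]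
  have ug : IsUnit (1 - σ • D) := isUnit_one_sub_of_norm_lt_one (by
    rw [norm_smul, ns]; exact hs')
  have uh : IsUnit (1 - τ • E) := isUnit_one_sub_of_norm_lt_one (by
    rw [norm_smul, nt]; exact ht')
  -- the Sylvester equations
  obtain ⟨z, hz⟩ := sylvester (E * r * (σ • D) * (ri * Ei)) (σ • D) (-((τ • E) * (σ • D))) (by
    have : E * r * (σ • D) * (ri * Ei) = σ • (E * r * D * (ri * Ei)) := by
      rw [mul_smul_comm, smul_mul_assoc]
    rw [this, norm_smul, norm_smul, ns]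
    calc s * ‖E * r * D * (ri * Ei)‖ * (s * ‖D‖) = s * s * (‖E * r * D * (ri * Ei)‖ * ‖D‖) := by
          ring
      _ < 1 := hs)
  set g := σ • D with hg
  set gi := σ⁻¹ • Di with hgi
  set h := τ • E with hh
  set hi := τ⁻¹ • Ei with hhi
  have hz' : E * r * g * (ri * Ei) * z - z * gi = h := by
    have : E * r * g * (ri * Ei) * z - z * gi =
        -((z - E * r * g * (ri * Ei) * z * g) * gi) + E * r * g * (ri * Ei) * z * (1 - g * gi)
        := by noncomm_ring
    rw [this, hz, g1]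
    have : -(-(h * g) * gi) + E * r * g * (ri * Ei) * z * (1 - 1) = h * (g * gi) := by
      noncomm_ring
    rw [this, g1, mul_one]
  set U := g * (b + gi * hi * (d - gi * hi)) with hU
  obtain ⟨y, hy⟩ := sylvester h (Q * h * Qi) (h * U) (by
    have : Q * h * Qi = τ • (Q * E * Qi) := by
      rw [hh, mul_smul_comm, smul_mul_assoc]
    rw [this, hh, norm_smul, norm_smul, nt]
    calc t * ‖E‖ * (t * ‖Q * E * Qi‖) = t * t * (‖E‖ * ‖Q * E * Qi‖) := by ring
      _ < 1 := ht)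
  have hy' : hi * y - y * (Q * h * Qi) = U := by
    have : hi * y - y * (Q * h * Qi) = hi * (y - h * y * (Q * h * Qi)) - (1 - hi * h) * y *
      (Q * h * Qi) := by noncomm_ring
    rw [this, hy, k2]
    have : hi * (h * U) - (1 - 1) * y * (Q * h * Qi) = (hi * h) * U := by noncomm_ring
    rw [this, k2, one_mul]
  refine core_I4s S g gi (E * r) (ri * Ei) h hi Q Qi b d z y g1 g2 rr1 rr2 k1 k2 q1 q2 ?_ hz' hy'
    ug uh
  have hgg : g = σ • D := rfl
  have hhh : h = τ • E := rfl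
  have : h * g * b = (τ * σ) • (E * D * b) := by
    rw [hgg, hhh, smul_mul_smul_comm, smul_mul_assoc]
  rw [this]
  have hb' : E * D * b = -(E * (r * D * ri) * (Ei * (Q * E * Qi))) := by
    have : E * D * b = -(E * D * (-b)) := by noncomm_ring
    rw [this, hb]
    have : E * D * (Di * (r * D * ri) * (Ei * (Q * E * Qi))) =
      E * (D * Di) * (r * D * ri) * (Ei * (Q * E * Qi)) := by noncomm_ring
    rw [this, d1]
    noncomm_ring
  rw [hb', hgg, hhh]
  simp only [mul_smul_comm, smul_mul_assoc, smul_smul, smul_neg, neg_neg]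
  congr 1
  noncomm_ring

end Banach

variable {H : Type u} [NormedAddCommGroup H] [InnerProductSpace ℂ H] [CompleteSpace H]

/-- An invertible operator which maps a subspace onto a complement of it. -/
theorem good_I4s (hH : ¬ FiniteDimensional ℂ H) (B Bi : H →L[ℂ] H) (b1 : B * Bi = 1)
    (b2 : Bi * B = 1) {X Xs Y Ys : H →L[ℂ] H} (S : Sys X Xs Y Ys) (hY : B * X = Y) : I4s B := by
  have hBm := S.matrix B hY
  set b := Xs * B * Y with hb
  set d := Ys * B * Y with hd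
  set bi := Ys * Bi * X with hbi
  have hBiY : Bi * Y = X := by rw [← hY, ← mul_assoc, b2, one_mul]
  have c1 : b * bi = 1 := by
    have e1 : Y * Ys = 1 - X * Xs := by rw [← S.sum]; abel
    have e2 : b * bi = Xs * B * (Y * Ys) * Bi * X := by rw [hb, hbi]; noncomm_ring
    rw [e2, e1]
    have e3 : Xs * B * (1 - X * Xs) * Bi * X = Xs * (B * Bi) * X - Xs * (B * X) * Xs * Bi * X := by
      noncomm_ring
    rw [e3, b1, hY, mul_one, S.xx, S.xy]
    noncomm_ring
  have c2 : bi * b = 1 := by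
    have e1 : X * Xs = 1 - Y * Ys := by rw [← S.sum]; abel
    have e2 : bi * b = Ys * Bi * (X * Xs) * B * Y := by rw [hb, hbi]; noncomm_ring
    rw [e2, e1]
    have e3 : Ys * Bi * (1 - Y * Ys) * B * Y = Ys * (Bi * B) * Y - Ys * (Bi * Y) * Ys * B * Y := by
      noncomm_ring
    rw [e3, b2, hBiY, mul_one, S.yy, S.yx]
    noncomm_ring
  obtain ⟨D, Di, r, ri, E, Ei, Q, Qi, d1, d2, r1, r2, e1, e2, q1, q2, hcomm⟩ :=
    two_commutators hH (-b) (-bi) (by rw [neg_mul_neg, c1]) (by rw [neg_mul_neg, c2])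
  have h4 := block_I4s S b d D Di r ri E Ei Q Qi d1 d2 r1 r2 e1 e2 q1 q2 hcomm
  rwa [← hBm] at h4

/-- two copies of `H` in `H` -/
theorem exists_two (hH : ¬ FiniteDimensional ℂ H) : ∃ X Xs Y Ys : H →L[ℂ] H, Sys X Xs Y Ys := by
  obtain ⟨X, Xs, U, V, S, -⟩ := good_system hH (1 : H →L[ℂ] H) 1 (one_mul 1)
  exact ⟨X, Xs, U, V, S⟩

end Pool.Agent.KS6_87.Inv4
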