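import Pool.Agent.KS6_87.Inv4.Z

set_option autoImplicit false
set_option linter.unusedSectionVars false

open scoped InnerProductSpace ENNReal
open Cardinal Filter Topology

namespace Pool.Agent.KS6_87.Inv4

universe u

namespace ZZ

variable {E : Type u} [NormedAddCommGroup E] [NormedSpace ℂ E] [CompleteSpace E]

theorem norm_one_le : ‖(1 : E →L[ℂ] E)‖ ≤ 1 := ContinuousLinearMap.norm_id_le

/-- the shift: `(shf m g) n = g (n + m)` -/
noncomputable def shf (m : ℤ) : Z E →L[ℂ] Z E := blk (sh m) (fun _ => 1) 1 (fun _ => norm_one_le)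

theorem shf_apply (m : ℤ) (f : Z E) (n : ℤ) : (shf m f) n = f (n + m) := rfl

/-- the positive part of `x` -/
noncomputable def EX (x : E →L[ℂ] E) : Z E →L[ℂ] Z E :=
  blk (Equiv.refl ℤ) (fun m => if 1 ≤ m then x else 0) ‖x‖ (fun m => by
    split_ifs
    · exact le_rfl
    · rw [norm_zero]; exact norm_nonneg _)

theorem EX_sg (x : E →L[ℂ] E) (j : ℤ) (v : E) :
    EX x (sg j v) = sg j ((if 1 ≤ j then x else 0 : E →L[ℂ] E) v) := by
  ext n
  show (if 1 ≤ n then x else 0 : E →L[ℂ] E) ((sg j v) n) = _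
  by_cases h : n = j
  · subst h
    rw [sg_self, sg_self]
  · rw [sg_ne h, sg_ne h, map_zero]

theorem shf_sg (m j : ℤ) (v : E) : shf m (sg j v) = sg (j - m) v := by
  ext n
  rw [shf_apply]
  by_cases h : n = j - m
  · subst h
    have : j - m + m = j := by ring
    rw [this, sg_self, sg_self]
  · rw [sg_ne h, sg_ne (fun h' => h (by omega))]

/-- **Smooth perturbations** of a group of operators are similar to it. -/
theorem kato (U : ℤ → (E →L[ℂ] E)) (hU0 : U 0 = 1) (hU : ∀ m n, U (m + n) = U m * U n)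
    (b x : E →L[ℂ] E) (V : E →L[ℂ] Z E) (V' : Z E →L[ℂ] E)
    (hV : ∀ f m, (V f) m = b (U (-m) f)) (hV' : ∀ m v, V' (sg m v) = U m (b v))
    (Q : Z E →L[ℂ] Z E) (hQ1 : Q * shf 1 = shf 1 * Q) (hQ2 : ∀ g, (Q g) 0 = b (V' (EX x g)))
    (hQn : ‖Q‖ < 1) (hW : ‖V'‖ * ‖x‖ * (‖V‖ / (1 - ‖Q‖)) < 1) :
    ∃ W Wi : E →L[ℂ] E, W * Wi = 1 ∧ Wi * W = 1 ∧ U 1 * (1 + b * x * b) = W * U 1 * Wi := by
  -- the resolvent
  set u := Units.oneSub Q hQn with hu
  set R : Z E →L[ℂ] Z E := u.inv with hR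
  have r1 : (1 - Q) * R = 1 := u.val_inv
  have r2 : R * (1 - Q) = 1 := u.inv_val
  have hRQ : R = 1 + Q * R := by
    have : (1 - Q) * R = R - Q * R := by noncomm_ring
    rw [this] at r1
    rw [← r1]; noncomm_ring
  have hRs : R * shf 1 = shf 1 * R := by
    have e1 : R * (shf 1 * (1 - Q)) * R = R * shf 1 := by
      have : R * (shf 1 * (1 - Q)) * R = R * shf 1 * ((1 - Q) * R) := by noncomm_ring
      rw [this, r1, mul_one]
    have e2 : shf 1 * (1 - Q) = (1 - Q) * shf 1 := by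
      rw [mul_sub, sub_mul, hQ1, one_mul, mul_one]
    rw [e2] at e1
    rw [← e1]
    have : R * ((1 - Q) * shf 1) * R = (R * (1 - Q)) * shf 1 * R := by noncomm_ring
    rw [this, r2, one_mul]
  have hRn : ∀ g, ‖R g‖ ≤ ‖g‖ / (1 - ‖Q‖) := by
    intro g
    rw [le_div_iff₀ (by linarith)]
    have h1 : R g = g + Q (R g) := congrArg (fun T : Z E →L[ℂ] Z E => T g) hRQ
    have h2 : ‖R g‖ ≤ ‖g‖ + ‖Q‖ * ‖R g‖ := by
      calc ‖R g‖ = ‖g + Q (R g)‖ := by rw [← h1]
        _ ≤ ‖g‖ + ‖Q (R g)‖ := norm_add_le _ _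
        _ ≤ ‖g‖ + ‖Q‖ * ‖R g‖ := by gcongr; exact Q.le_opNorm _
    linarith
  -- `Y`
  have hY0 : ∀ f, (R (V f)) 0 = b f + b (V' (EX x (R (V f)))) := by
    intro f
    have h1 : R (V f) = V f + Q (R (V f)) := congrArg (fun T : Z E →L[ℂ] Z E => T (V f)) hRQ
    have h2 : (R (V f)) 0 = (V f) 0 + (Q (R (V f))) 0 := by
      conv_lhs => rw [h1]
      rfl
    rw [h2, hV, hQ2, neg_zero, hU0]
    rfl
  have hVs : ∀ f, V (U (-1) f) = shf 1 (V f) := by
    intro f
    ext m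
    rw [shf_apply, hV, hV]
    have : U (-(m + 1)) f = U (-m) (U (-1) f) := by
      have e : -(m + 1) = -m + -1 := by ring
      rw [e, hU]; rfl
    rw [this]
  have hYs : ∀ f, R (V (U (-1) f)) = shf 1 (R (V f)) := by
    intro f
    rw [hVs]
    exact congrArg (fun T : Z E →L[ℂ] Z E => T (V f)) hRs
  -- `W`
  set w : E →L[ℂ] E := V' ∘L EX x ∘L R ∘L V with hw
  set W : E →L[ℂ] E := 1 + w with hWd
  have hbW : ∀ f, (R (V f)) 0 = b (W f) := by
    intro f
    rw [hY0]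
    show _ = b (f + V' (EX x (R (V f))))
    rw [map_add]
  have key : ∀ g : Z E, V' (EX x g) = U 1 (V' (EX x (shf 1 g))) + U 1 (b (x (g 1))) := by
    intro g
    have : V' ∘L EX x = (U 1) ∘L V' ∘L EX x ∘L shf 1 + (U 1) ∘L b ∘L x ∘L ev 1 := by
      refine ext_sg fun j v => ?_
      show V' (EX x (sg j v)) = U 1 (V' (EX x (shf 1 (sg j v)))) + U 1 (b (x ((sg j v) 1)))
      rw [shf_sg, EX_sg, EX_sg, hV', hV']
      have hUU : ∀ w : E, U 1 (U (j - 1) w) = U j w := fun w => by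
        have e : j = 1 + (j - 1) := by ring
        conv_rhs => rw [e, hU]
        rfl
      rw [hUU]
      by_cases h1 : 1 ≤ j
      · rw [if_pos h1]
        by_cases h2 : 1 ≤ j - 1
        · rw [if_pos h2, sg_ne (by omega), map_zero, map_zero, map_zero, add_zero]
        · have h3 : j = 1 := by omega
          subst h3
          rw [if_neg h2, sg_self]
          simp
      · rw [if_neg h1, if_neg (by omega), sg_ne (by omega)]
        simp
    exact congrArg (fun T : Z E →L[ℂ] E => T g) this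
  have hint : W * U 1 = U 1 * (1 + b * x * b) * W := by
    refine ContinuousLinearMap.ext fun g => ?_
    show W (U 1 g) = U 1 (W g + b (x (b (W g))))
    have hinv : U (-1) (U 1 g) = g := by
      have : U (-1 + 1) = U (-1) * U 1 := hU _ _
      rw [neg_add_cancel, hU0] at this
      exact (congrArg (fun T : E →L[ℂ] E => T g) this).symm
    have h1 : W (U 1 g) = U 1 g + V' (EX x (R (V (U 1 g)))) := rfl
    have h2 : shf 1 (R (V (U 1 g))) = R (V g) := by rw [← hYs, hinv]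
    have h3 : (R (V (U 1 g))) 1 = b (W g) := by
      rw [← hbW, ← h2, shf_apply, zero_add]
    rw [h1, key, h2, h3, map_add, ← add_assoc, ← map_add (U 1) g]
    rfl
  have hWn : ‖w‖ < 1 := by
    refine lt_of_le_of_lt (ContinuousLinearMap.opNorm_le_bound _ ?_ fun f => ?_) hW
    · have : 0 < 1 - ‖Q‖ := by linarith
      positivity
    · show ‖V' (EX x (R (V f)))‖ ≤ _
      have hE : ‖EX (E := E) x‖ ≤ ‖x‖ := norm_blk_le _ _ _ _
      have h0 : 0 < 1 - ‖Q‖ := by linarith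
      calc ‖V' (EX x (R (V f)))‖ ≤ ‖V'‖ * ‖EX x (R (V f))‖ := V'.le_opNorm _
        _ ≤ ‖V'‖ * (‖x‖ * ‖R (V f)‖) := by
            gcongr
            exact (EX x).le_of_opNorm_le hE _
        _ ≤ ‖V'‖ * (‖x‖ * ((‖V‖ * ‖f‖) / (1 - ‖Q‖))) := by
            gcongr
            refine (hRn _).trans ?_
            gcongr
            exact V.le_opNorm _
        _ = ‖V'‖ * ‖x‖ * (‖V‖ / (1 - ‖Q‖)) * ‖f‖ := by ring
  have hWn' : ‖-w‖ < 1 := by rwa [norm_neg]
  set u' := Units.oneSub (-w) hWn' with hu'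
  have hval : (u' : E →L[ℂ] E) = W := by
    rw [hu', Units.val_oneSub, hWd]; abel
  refine ⟨W, u'.inv, ?_, ?_, ?_⟩
  · rw [← hval]; exact u'.val_inv
  · rw [← hval]; exact u'.inv_val
  · have h1 : W * u'.inv = 1 := by rw [← hval]; exact u'.val_inv
    rw [hint, mul_assoc (U 1 * (1 + b * x * b)) W u'.inv, h1, mul_one]

end ZZ

end Pool.Agent.KS6_87.Inv4
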