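import Pool.Agent.KS6_87.Inv4.Fam

set_option autoImplicit false
set_option linter.unusedSectionVars false

open scoped InnerProductSpace ENNReal
open Cardinal Filter Topology
open Pool.Agent.H100R3.Inv

namespace Pool.Agent.KS6_87.Inv4

universe u

variable {H : Type u} [NormedAddCommGroup H] [InnerProductSpace ℂ H] [CompleteSpace H]

theorem ext_basis {ι : Type u} (b : HilbertBasis ι ℂ H) {S T : H →L[ℂ] H}
    (h : ∀ i, S (b i) = T (b i)) : S = T := by
  refine ContinuousLinearMap.ext_on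
    (Submodule.dense_iff_topologicalClosure_eq_top.2 b.dense_span) ?_
  rintro _ ⟨i, rfl⟩
  exact h i

/-- a vector with one nonzero coordinate -/
theorem vec_of_single {ι : Type u} (b : HilbertBasis ι ℂ H) (i : ι) (y : H)
    (h : ∀ j, j ≠ i → ⟪b j, y⟫_ℂ = 0) : y = ⟪b i, y⟫_ℂ • b i := by
  rw [← sub_eq_zero]
  apply eq_zero_of_orth b
  intro j
  rw [inner_sub_right, inner_smul_right]
  by_cases hj : j = i
  · subst hj
    have : ⟪b j, b j⟫_ℂ = 1 := by rw [inner_self_eq_norm_sq_to_K, b.orthonormal.1 j]; simp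
    rw [this, mul_one, sub_self]
  · rw [h j hj, b.orthonormal.2 hj]; simp

/-- a diagonal operator with coefficients bounded below is invertible -/
theorem unit_of_diag {ι : Type u} (b : HilbertBasis ι ℂ H) (a : H →L[ℂ] H) (c : ι → ℂ)
    (ha : ∀ i, a (b i) = c i • b i) (δ : ℝ) (hδ : 0 < δ) (hc : ∀ i, δ ≤ (c i).re) : IsUnit a := by
  have hself : ∀ i, ⟪b i, b i⟫_ℂ = 1 := fun i => by
    rw [inner_self_eq_norm_sq_to_K, b.orthonormal.1 i]; simp
  have hdiag : ∀ i j, j ≠ i → ⟪b j, a (b i)⟫_ℂ = 0 := by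
    intro i j hij
    rw [ha, inner_smul_right, b.orthonormal.2 hij, mul_zero]
  have hre : ∀ x, δ * ‖x‖ ^ 2 ≤ (1 * ⟪x, a x⟫_ℂ).re :=
    diag_re b a hdiag 1 δ (fun i => by rw [ha, inner_smul_right, hself, one_mul, mul_one]; exact hc i)
  have hδn : (0 : NNReal) < ⟨δ, hδ.le⟩ := hδ
  refine ContinuousLinearMap.isUnit_of_forall_le_norm_inner_map _ hδn fun x => ?_
  calc ‖x‖ ^ 2 * ((⟨δ, hδ.le⟩ : NNReal) : ℝ) = δ * ‖x‖ ^ 2 := by
        show ‖x‖ ^ 2 * δ = _
        ring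
    _ ≤ (1 * ⟪x, a x⟫_ℂ).re := hre x
    _ ≤ ‖1 * ⟪x, a x⟫_ℂ‖ := Complex.re_le_norm _
    _ = ‖⟪a x, x⟫_ℂ‖ := by rw [one_mul, norm_inner_symm]

/-- unimodular diagonal operators -/
theorem exists_phase {ι : Type u} (b : HilbertBasis ι ℂ H) (c : ι → ℂ) (hc : ∀ i, ‖c i‖ = 1) :
    ∃ L : H →L[ℂ] H, ∀ i, L (b i) = c i • b i := by
  have ho : Orthonormal ℂ (fun i => c i • b i) := by
    refine ⟨fun i => by rw [norm_smul, hc, b.orthonormal.1 i, mul_one], fun i j hij => ?_⟩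
    show ⟪c i • b i, c j • b j⟫_ℂ = 0
    rw [inner_smul_left, inner_smul_right, b.orthonormal.2 hij]; simp
  obtain ⟨L, -, hL⟩ := isometry_of_family b _ ho
  exact ⟨L, hL⟩

/-- the vectors used in the proof of the main theorem -/
theorem exists_data {ι : Type u} (b : HilbertBasis ι ℂ H)
    (hH : ¬ FiniteDimensional ℂ H) (A : H →L[ℂ] H)
    (hA : ∀ lam : ℂ, ¬ Negl b (A - lam • 1)) :
    ∃ (ε : ℝ) (L : ι ⊕ ι → Submodule ℂ H) (x z v : ι → H) (al : ι → ℂ) (be : ι → ℝ), 0 < ε ∧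
      (∀ i j, i ≠ j → ∀ u ∈ L i, ∀ w ∈ L j, ⟪u, w⟫_ℂ = 0) ∧
      (∀ i, ‖x i‖ = 1) ∧ (∀ i, ‖z i‖ = 1) ∧ (∀ i, ‖v i‖ = 1) ∧
      (∀ i, x i ∈ L (Sum.inl i)) ∧ (∀ i, z i ∈ L (Sum.inl i)) ∧ (∀ i, A (z i) ∈ L (Sum.inl i)) ∧
      (∀ i, v i ∈ L (Sum.inr i)) ∧
      (∀ i, A (x i) = al i • x i + ((be i : ℝ) : ℂ) • z i) ∧ (∀ i, ⟪x i, z i⟫_ℂ = 0) ∧
      (∀ i, ε ≤ be i) := by
  classical
  have hinf : Infinite ι := infinite_index b hH
  have hι : ℵ₀ ≤ #ι := Cardinal.aleph0_le_mk ι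
  obtain ⟨ε, S, hε, hS, hcard⟩ := exists_big_family b hH A hA
  have hsum' : #(ι ⊕ ι) ≤ #S := by
    rw [Cardinal.mk_sum]
    simp only [Cardinal.lift_id]
    rw [Cardinal.add_eq_self hι]
    exact hcard
  obtain ⟨g⟩ : Nonempty (ι ⊕ ι ↪ S) := (Cardinal.le_def _ _).1 hsum'
  have hne : ∀ i j, i ≠ j → (g i : H) ≠ (g j : H) := fun i j hij h =>
    hij (g.injective (Subtype.ext h))
  -- the blocks
  let L : ι ⊕ ι → Submodule ℂ H := fun i => Submodule.span ℂ {(g i : H), A (g i : H), A (A (g i : H))}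
  have hL : ∀ i j, i ≠ j → ∀ u ∈ L i, ∀ v ∈ L j, ⟪u, v⟫_ℂ = 0 := by
    intro i j hij u hu v hv
    have h1 := (hS _ (g i).2).2.2 _ (g j).2 (hne i j hij)
    have h2 := (hS _ (g j).2).2.2 _ (g i).2 (hne j i (Ne.symm hij))
    obtain ⟨p1, p2, p3, p4, p5, p6⟩ := h1
    obtain ⟨q1, q2, q3, q4, q5, q6⟩ := h2
    have symm0 : ∀ u v : H, ⟪u, v⟫_ℂ = 0 → ⟪v, u⟫_ℂ = 0 := fun u v h => by
      rw [← inner_conj_symm, h, map_zero]
    have hortho : L i ⟂ L j := by
      rw [Submodule.isOrtho_span]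
      intro u hu v hv
      simp only [Set.mem_insert_iff, Set.mem_singleton_iff] at hu hv
      rcases hu with rfl | rfl | rfl <;> rcases hv with rfl | rfl | rfl
      · exact p1
      · exact p2
      · exact p3
      · exact symm0 _ _ q2
      · exact p4
      · exact p5
      · exact symm0 _ _ q3
      · exact symm0 _ _ q5
      · exact p6
    exact hortho.inner_eq hu hv
  set x : ι → H := fun i => (g (Sum.inl i) : H) with hx
  have hx1 : ∀ i, ‖x i‖ = 1 := fun i => (hS _ (g (Sum.inl i)).2).1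
  have mx : ∀ i, x i ∈ L (Sum.inl i) := fun i => Submodule.subset_span (by simp [hx])
  have mAx : ∀ i, A (x i) ∈ L (Sum.inl i) := fun i => Submodule.subset_span (by simp [hx])
  have mAAx : ∀ i, A (A (x i)) ∈ L (Sum.inl i) := fun i => Submodule.subset_span (by simp [hx])
  set al : ι → ℂ := fun i => ⟪x i, A (x i)⟫_ℂ with hal
  set be : ι → ℝ := fun i => ‖A (x i) - al i • x i‖ with hbe
  have hbe1 : ∀ i, ε ≤ be i := fun i => (hS _ (g (Sum.inl i)).2).2.1
  have hbe0 : ∀ i, 0 < be i := fun i => lt_of_lt_of_le hε (hbe1 i)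
  set z : ι → H := fun i => (((be i)⁻¹ : ℝ) : ℂ) • (A (x i) - al i • x i) with hz
  have mz : ∀ i, z i ∈ L (Sum.inl i) := fun i =>
    Submodule.smul_mem _ _ (Submodule.sub_mem _ (mAx i) (Submodule.smul_mem _ _ (mx i)))
  have hAz : ∀ i, A (z i) = (((be i)⁻¹ : ℝ) : ℂ) • (A (A (x i)) - al i • A (x i)) := by
    intro i; rw [hz]; simp only [map_smul, map_sub]
  have mAz : ∀ i, A (z i) ∈ L (Sum.inl i) := fun i => by
    rw [hAz]
    exact Submodule.smul_mem _ _ (Submodule.sub_mem _ (mAAx i) (Submodule.smul_mem _ _ (mAx i)))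
  have hzn : ∀ i, ‖z i‖ = 1 := fun i => by
    rw [hz]
    show ‖(((be i)⁻¹ : ℝ) : ℂ) • (A (x i) - al i • x i)‖ = 1
    rw [norm_smul, Complex.norm_real, norm_inv, Real.norm_of_nonneg (hbe0 i).le]
    exact inv_mul_cancel₀ (hbe0 i).ne'
  have hxx : ∀ i, ⟪x i, x i⟫_ℂ = 1 := fun i => by rw [inner_self_eq_norm_sq_to_K, hx1 i]; simp
  have hAx : ∀ i, A (x i) = al i • x i + ((be i : ℝ) : ℂ) • z i := by
    intro i
    rw [hz]
    show A (x i) = al i • x i + ((be i : ℝ) : ℂ) • (((be i)⁻¹ : ℝ) : ℂ) • (A (x i) - al i • x i)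
    rw [smul_smul, ← Complex.ofReal_mul, mul_inv_cancel₀ (hbe0 i).ne', Complex.ofReal_one, one_smul]
    abel
  have hxz : ∀ i, ⟪x i, z i⟫_ℂ = 0 := by
    intro i
    rw [hz]
    show ⟪x i, (((be i)⁻¹ : ℝ) : ℂ) • (A (x i) - al i • x i)⟫_ℂ = 0
    rw [inner_smul_right, inner_sub_right, inner_smul_right, hxx]
    simp [hal]
  exact ⟨ε, L, x, z, fun i => (g (Sum.inr i) : H), al, be, hε, hL, hx1, hzn,
    fun i => (hS _ (g (Sum.inr i)).2).1, mx, mz, mAz, fun i => Submodule.subset_span (by simp),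
    hAx, hxz, hbe1⟩

/-- **Main theorem.**  An invertible operator which is not the sum of a scalar and a negligible
operator is a product of four involutions. -/
theorem four_of_not_scalar {ι : Type u} (b : HilbertBasis ι ℂ H)
    (hH : ¬ FiniteDimensional ℂ H) (A Ai : H →L[ℂ] H) (a1 : A * Ai = 1) (a2 : Ai * A = 1)
    (hA : ∀ lam : ℂ, ¬ Negl b (A - lam • 1)) : I4 A := by
  classical
  obtain ⟨ε, L, x, z, v, al, be, hε, hL, hx1, hzn, hv1, mx, mz, mAz, mv, hAx, hxz, hbe1⟩ :=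
    exists_data b hH A hA
  have hbe0 : ∀ i, 0 < be i := fun i => lt_of_lt_of_le hε (hbe1 i)
  have hinl : ∀ i j : ι, i ≠ j → (Sum.inl i : ι ⊕ ι) ≠ Sum.inl j := fun i j h h' =>
    h (Sum.inl_injective h')
  have ox : Orthonormal ℂ x := ⟨hx1, fun i j hij => hL _ _ (hinl i j hij) _ (mx i) _ (mx j)⟩
  have oz : Orthonormal ℂ z := ⟨hzn, fun i j hij => hL _ _ (hinl i j hij) _ (mz i) _ (mz j)⟩
  have ov : Orthonormal ℂ v :=
    ⟨hv1, fun i j hij => hL _ _ (fun h => hij (Sum.inr_injective h)) _ (mv i) _ (mv j)⟩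
  obtain ⟨X, X1, X2⟩ := isometry_of_family b _ ox
  obtain ⟨Z, Z1, Z2⟩ := isometry_of_family b _ oz
  obtain ⟨W, W1, W2⟩ := isometry_of_family b _ ov
  set Xs := ContinuousLinearMap.adjoint X with hXs
  set Zs := ContinuousLinearMap.adjoint Z with hZs
  have aX : ∀ (y : H) (j : ι), ⟪b j, Xs y⟫_ℂ = ⟪x j, y⟫_ℂ := fun y j => by
    rw [hXs, ContinuousLinearMap.adjoint_inner_right, X2]
  have aZ : ∀ (y : H) (j : ι), ⟪b j, Zs y⟫_ℂ = ⟪z j, y⟫_ℂ := fun y j => by
    rw [hZs, ContinuousLinearMap.adjoint_inner_right, Z2]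
  have hXX : ∀ i, Xs (x i) = b i := fun i => by
    rw [← X2]; exact congrArg (fun T : H →L[ℂ] H => T (b i)) X1
  have hZZ : ∀ i, Zs (z i) = b i := fun i => by
    rw [← Z2]; exact congrArg (fun T : H →L[ℂ] H => T (b i)) Z1
  have hXZ : ∀ i, Xs (z i) = 0 := fun i => by
    apply eq_zero_of_orth b
    intro j
    rw [aX]
    by_cases hij : j = i
    · rw [hij]; exact hxz i
    · exact hL _ _ (hinl j i hij) _ (mx j) _ (mz i)
  have hZX : ∀ i, Zs (x i) = 0 := fun i => by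
    apply eq_zero_of_orth b
    intro j
    rw [aZ, ← inner_conj_symm]
    by_cases hij : j = i
    · rw [hij, hxz i, map_zero]
    · rw [hL _ _ (hinl i j (Ne.symm hij)) _ (mx i) _ (mz j), map_zero]
  have xz : Xs * Z = 0 := ext_basis b fun i => by
    show Xs (Z (b i)) = 0
    rw [Z2, hXZ]
  have zx : Zs * X = 0 := ext_basis b fun i => by
    show Zs (X (b i)) = 0
    rw [X2, hZX]
  have hXv : ∀ i, Xs (v i) = 0 := fun i => by
    apply eq_zero_of_orth b
    intro j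
    rw [aX]
    exact hL (Sum.inl j) (Sum.inr i) (by simp) _ (mx j) _ (mv i)
  have hZv : ∀ i, Zs (v i) = 0 := fun i => by
    apply eq_zero_of_orth b
    intro j
    rw [aZ]
    exact hL (Sum.inl j) (Sum.inr i) (by simp) _ (mz j) _ (mv i)
  have xw : Xs * W = 0 := ext_basis b fun i => by
    show Xs (W (b i)) = 0
    rw [W2, hXv]
  have zw : Zs * W = 0 := ext_basis b fun i => by
    show Zs (W (b i)) = 0
    rw [W2, hZv]
  set F : H →L[ℂ] H := 1 - X * Xs - Z * Zs with hF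
  have hFF : F * F = F := by
    have : F * F = 1 - X * Xs - Z * Zs - (1 - X * Xs - Z * Zs) * X * Xs
        - (1 - X * Xs - Z * Zs) * Z * Zs := by rw [hF]; noncomm_ring
    rw [this]
    have e1 : (1 - X * Xs - Z * Zs) * X * Xs = X * Xs - X * (Xs * X) * Xs - Z * (Zs * X) * Xs := by
      noncomm_ring
    have e2 : (1 - X * Xs - Z * Zs) * Z * Zs = Z * Zs - X * (Xs * Z) * Zs - Z * (Zs * Z) * Zs := by
      noncomm_ring
    rw [e1, e2, X1, Z1, xz, zx, hF]
    noncomm_ring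
  have hFW : F * W = W := by
    have : F * W = W - X * (Xs * W) - Z * (Zs * W) := by rw [hF]; noncomm_ring
    rw [this, xw, zw]; noncomm_ring
  obtain ⟨ρ, ρs, r1, r2⟩ := mvn hH F W _ hFF W1 hFW
  have hXF : Xs * F = 0 := by
    have : Xs * F = Xs - (Xs * X) * Xs - (Xs * Z) * Zs := by rw [hF]; noncomm_ring
    rw [this, X1, xz]; noncomm_ring
  have hZF : Zs * F = 0 := by
    have : Zs * F = Zs - (Zs * X) * Xs - (Zs * Z) * Zs := by rw [hF]; noncomm_ring
    rw [this, Z1, zx]; noncomm_ring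
  have hFX : F * X = 0 := by
    have : F * X = X - X * (Xs * X) - Z * (Zs * X) := by rw [hF]; noncomm_ring
    rw [this, X1, zx]; noncomm_ring
  have hFZ : F * Z = 0 := by
    have : F * Z = Z - X * (Xs * Z) - Z * (Zs * Z) := by rw [hF]; noncomm_ring
    rw [this, Z1, xz]; noncomm_ring
  have xr : Xs * ρ = 0 := by
    have : Xs * ρ = Xs * (ρ * ρs) * ρ := by
      have : Xs * (ρ * ρs) * ρ = Xs * ρ * (ρs * ρ) := by noncomm_ring
      rw [this, r1, mul_one]
    rw [this, r2, hXF, zero_mul]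
  have zr : Zs * ρ = 0 := by
    have : Zs * ρ = Zs * (ρ * ρs) * ρ := by
      have : Zs * (ρ * ρs) * ρ = Zs * ρ * (ρs * ρ) := by noncomm_ring
      rw [this, r1, mul_one]
    rw [this, r2, hZF, zero_mul]
  have rx : ρs * X = 0 := by
    have : ρs * X = ρs * ((ρ * ρs) * X) := by
      have : ρs * ((ρ * ρs) * X) = (ρs * ρ) * (ρs * X) := by noncomm_ring
      rw [this, r1, one_mul]
    rw [this, r2, hFX, mul_zero]
  have rz : ρs * Z = 0 := by
    have : ρs * Z = ρs * ((ρ * ρs) * Z) := by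
      have : ρs * ((ρ * ρs) * Z) = (ρs * ρ) * (ρs * Z) := by noncomm_ring
      rw [this, r1, one_mul]
    rw [this, r2, hFZ, mul_zero]
  -- `α` and `β`
  set α : H →L[ℂ] H := Xs * A * X with hα
  set β : H →L[ℂ] H := Zs * A * X with hβ
  have hαb : ∀ i, α (b i) = al i • b i := fun i => by
    show Xs (A (X (b i))) = _
    rw [X2, hAx, map_add, map_smul, map_smul, hXX, hXZ, smul_zero, add_zero]
  have hβb : ∀ i, β (b i) = ((be i : ℝ) : ℂ) • b i := fun i => by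
    show Zs (A (X (b i))) = _
    rw [X2, hAx, map_add, map_smul, map_smul, hZX, hZZ, smul_zero, zero_add]
  have hAX : A * X = X * α + Z * β := ext_basis b fun i => by
    show A (X (b i)) = X (α (b i)) + Z (β (b i))
    rw [X2, hαb, hβb, map_smul, map_smul, X2, Z2, hAx]
  obtain ⟨uβ, huβ⟩ := unit_of_diag b β (fun i => ((be i : ℝ) : ℂ)) hβb ε hε (fun i => by
    rw [Complex.ofReal_re]; exact hbe1 i)
  set βi : H →L[ℂ] H := uβ.inv with hβi
  have b1 : β * βi = 1 := by rw [← huβ]; exact uβ.val_inv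
  have b2 : βi * β = 1 := by rw [← huβ]; exact uβ.inv_val
  have hβib : ∀ i, βi (b i) = (((be i)⁻¹ : ℝ) : ℂ) • b i := fun i => by
    have h1 : βi (β (b i)) = b i := congrArg (fun T : H →L[ℂ] H => T (b i)) b2
    rw [hβb, map_smul] at h1
    have h2 : (((be i)⁻¹ : ℝ) : ℂ) • (((be i : ℝ) : ℂ) • βi (b i)) = βi (b i) := by
      rw [smul_smul, ← Complex.ofReal_mul, inv_mul_cancel₀ (hbe0 i).ne', Complex.ofReal_one,
        one_smul]
    rw [← h2, h1]
  -- diagonal operators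
  have hc1 : ∀ i j, j ≠ i → ⟪b j, (Xs * A * Z) (b i)⟫_ℂ = 0 := fun i j hij => by
    show ⟪b j, Xs (A (Z (b i)))⟫_ℂ = 0
    rw [aX, Z2]
    exact hL _ _ (hinl j i hij) _ (mx j) _ (mAz i)
  have hc2 : ∀ i j, j ≠ i → ⟪b j, (Zs * A * Z) (b i)⟫_ℂ = 0 := fun i j hij => by
    show ⟪b j, Zs (A (Z (b i)))⟫_ℂ = 0
    rw [aZ, Z2]
    exact hL _ _ (hinl j i hij) _ (mz j) _ (mAz i)
  set c1 : ι → ℂ := fun i => ⟪b i, (Xs * A * Z) (b i)⟫_ℂ with hc1d
  set c2 : ι → ℂ := fun i => ⟪b i, (Zs * A * Z) (b i)⟫_ℂ with hc2d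
  have k1 : ∀ i, (Xs * A * Z) (b i) = c1 i • b i := fun i => vec_of_single b i _ (hc1 i)
  have k2 : ∀ i, (Zs * A * Z) (b i) = c2 i • b i := fun i => vec_of_single b i _ (hc2 i)
  set Q11 : H →L[ℂ] H := Xs * A * Z - α * βi * (Zs * A * Z) with hQ11
  set om : ι → ℂ := fun i => c1 i - c2 i * (((be i)⁻¹ : ℝ) : ℂ) * al i with hom
  have hQb : ∀ i, Q11 (b i) = om i • b i := fun i => by
    show (Xs * A * Z) (b i) - α (βi ((Zs * A * Z) (b i))) = _
    rw [k1, k2, map_smul, map_smul, hβib, map_smul, hαb, smul_smul, smul_smul, ← sub_smul]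
  set G : H →L[ℂ] H := F * A * Z with hG
  set Gs := ContinuousLinearMap.adjoint G with hGs
  have hGb : ∀ i, G (b i) = A (z i) - c1 i • x i - c2 i • z i := fun i => by
    have e : G (b i) = A (Z (b i)) - X ((Xs * A * Z) (b i)) - Z ((Zs * A * Z) (b i)) := by
      have : G = A * Z - X * (Xs * A * Z) - Z * (Zs * A * Z) := by rw [hG, hF]; noncomm_ring
      rw [this]; rfl
    rw [e, k1, k2, map_smul, map_smul, X2, Z2]
  have mG : ∀ i, G (b i) ∈ L (Sum.inl i) := fun i => by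
    rw [hGb]
    exact Submodule.sub_mem _ (Submodule.sub_mem _ (mAz i) (Submodule.smul_mem _ _ (mx i)))
      (Submodule.smul_mem _ _ (mz i))
  have hGG : ∀ i, (Gs * G) (b i) = ((‖G (b i)‖ ^ 2 : ℝ) : ℂ) • b i := fun i => by
    have h1 := vec_of_single b i ((Gs * G) (b i)) (fun j hij => by
      show ⟪b j, Gs (G (b i))⟫_ℂ = 0
      rw [hGs, ContinuousLinearMap.adjoint_inner_right]
      exact hL _ _ (hinl j i hij) _ (mG j) _ (mG i))
    have h2 : ⟪b i, (Gs * G) (b i)⟫_ℂ = ((‖G (b i)‖ ^ 2 : ℝ) : ℂ) := by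
      show ⟪b i, Gs (G (b i))⟫_ℂ = _
      rw [hGs, ContinuousLinearMap.adjoint_inner_right, inner_self_eq_norm_sq_to_K]
      push_cast; rfl
    rw [h2] at h1
    exact h1
  -- the lower bound
  have hlow : ∀ i, 1 ≤ ‖Ai‖ * (‖om i‖ + ‖G (b i)‖) := by
    intro i
    set v : H := z i - (c2 i * (((be i)⁻¹ : ℝ) : ℂ)) • x i with hv
    have hAv : A v = om i • x i + G (b i) := by
      rw [hGb, hv, map_sub, map_smul, hAx, hom, smul_add, smul_smul, smul_smul]
      have : c2 i * (((be i)⁻¹ : ℝ) : ℂ) * ((be i : ℝ) : ℂ) = c2 i := by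
        rw [mul_assoc, ← Complex.ofReal_mul, inv_mul_cancel₀ (hbe0 i).ne', Complex.ofReal_one,
          mul_one]
      rw [this]
      module
    have hzx : ⟪z i, x i⟫_ℂ = 0 := by rw [← inner_conj_symm, hxz, map_zero]
    have hzz : ⟪z i, z i⟫_ℂ = 1 := by rw [inner_self_eq_norm_sq_to_K, hzn i]; simp
    have hzv : ⟪z i, v⟫_ℂ = 1 := by
      rw [hv, inner_sub_right, inner_smul_right, hzz, hzx]; ring
    have hv1 : 1 ≤ ‖v‖ := by
      have := norm_inner_le_norm (𝕜 := ℂ) (z i) v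
      rw [hzv, hzn, norm_one, one_mul] at this
      exact this
    have hvA : v = Ai (A v) := (congrArg (fun T : H →L[ℂ] H => T v) a2).symm
    calc 1 ≤ ‖v‖ := hv1
      _ = ‖Ai (A v)‖ := by rw [← hvA]
      _ ≤ ‖Ai‖ * ‖A v‖ := Ai.le_opNorm _
      _ ≤ ‖Ai‖ * (‖om i‖ + ‖G (b i)‖) := by
          gcongr
          rw [hAv]
          refine (norm_add_le _ _).trans ?_
          rw [norm_smul, hx1, mul_one]
  set m : ℝ := (‖Ai‖ + 1)⁻¹ with hm
  have hm0 : 0 < m := by positivity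
  have hm1 : m ≤ 1 := inv_le_one_of_one_le₀ (by linarith [norm_nonneg Ai])
  have hlow2 : ∀ i, m ^ 2 / 4 ≤ ‖om i‖ + ‖G (b i)‖ ^ 2 := by
    intro i
    have h1 : m ≤ ‖om i‖ + ‖G (b i)‖ := by
      have h2 := hlow i
      have h3 : (‖Ai‖ + 1) * m = 1 := mul_inv_cancel₀ (by positivity)
      have h4 := norm_nonneg (om i)
      have h5 := norm_nonneg (G (b i))
      by_contra hcon
      push Not at hcon
      nlinarith [norm_nonneg Ai]
    have h4 := norm_nonneg (om i)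
    have h5 := norm_nonneg (G (b i))
    by_cases hc : m / 2 ≤ ‖om i‖
    · nlinarith [sq_nonneg ‖G (b i)‖]
    · push Not at hc
      have : m / 2 ≤ ‖G (b i)‖ := by linarith
      nlinarith
  -- phases
  set ph : ι → ℂ := fun i => if om i = 0 then 1 else om i / ((‖om i‖ : ℝ) : ℂ) with hph
  have hph1 : ∀ i, ‖ph i‖ = 1 := by
    intro i
    rw [hph]
    simp only
    split_ifs with h
    · exact norm_one
    · rw [norm_div, Complex.norm_real, norm_norm, div_self (norm_ne_zero_iff.2 h)]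
  have hph2 : ∀ i, om i = ph i * ((‖om i‖ : ℝ) : ℂ) := by
    intro i
    rw [hph]
    simp only
    split_ifs with h
    · rw [h]; simp
    · have : ((‖om i‖ : ℝ) : ℂ) ≠ 0 := by exact_mod_cast (norm_ne_zero_iff.2 h)
      field_simp
  have hph3 : ∀ i, (starRingEnd ℂ) (ph i) * ph i = 1 := fun i => by
    rw [← Complex.normSq_eq_conj_mul_self, Complex.normSq_eq_norm_sq, hph1]; simp
  have hph3' : ∀ i, ph i * (starRingEnd ℂ) (ph i) = 1 := fun i => by rw [mul_comm]; exact hph3 i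
  obtain ⟨Lam, hLam⟩ := exists_phase b ph hph1
  obtain ⟨Lam', hLam'⟩ := exists_phase b (fun i => (starRingEnd ℂ) (ph i)) (fun i => by
    rw [RCLike.norm_conj]; exact hph1 i)
  have l1 : Lam * Lam' = 1 := ext_basis b fun i => by
    show Lam (Lam' (b i)) = b i
    rw [hLam', map_smul, hLam, smul_smul, hph3, one_smul]
  have l2 : Lam' * Lam = 1 := ext_basis b fun i => by
    show Lam' (Lam (b i)) = b i
    rw [hLam, map_smul, hLam', smul_smul, hph3', one_smul]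
  set θ : H →L[ℂ] H := -(Lam * Gs * ρ) with hθ
  have hp : Q11 - θ * (ρs * A * Z) = Q11 + Lam * (Gs * G) := by
    have : θ * (ρs * A * Z) = -(Lam * Gs * ((ρ * ρs) * A * Z)) := by rw [hθ]; noncomm_ring
    rw [this, r2, ← hG]; noncomm_ring
  obtain ⟨up, hup⟩ := unit_of_diag b (Lam' * (Q11 + Lam * (Gs * G)))
    (fun i => ((‖om i‖ + ‖G (b i)‖ ^ 2 : ℝ) : ℂ)) (fun i => by
      show Lam' (Q11 (b i) + Lam ((Gs * G) (b i))) = _
      rw [hQb, hGG, map_smul, hLam, map_add, map_smul, map_smul, map_smul, hLam', smul_smul,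
        smul_smul, smul_smul, ← add_smul]
      congr 1
      rw [mul_assoc, hph3']
      conv_lhs => rw [hph2 i]
      have : ph i * ((‖om i‖ : ℝ) : ℂ) * (starRingEnd ℂ) (ph i) =
        (ph i * (starRingEnd ℂ) (ph i)) * ((‖om i‖ : ℝ) : ℂ) := by ring
      rw [this, hph3']
      push_cast
      ring) (m ^ 2 / 4) (by positivity) (fun i => by rw [Complex.ofReal_re]; exact hlow2 i)
  have p1 : (Xs * A * Z - α * βi * (Zs * A * Z) - θ * (ρs * A * Z)) * (up.inv * Lam') = 1 := by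
    rw [← hQ11, hp]
    have e : Q11 + Lam * (Gs * G) = Lam * (Lam' * (Q11 + Lam * (Gs * G))) := by
      have h : Lam * (Lam' * (Q11 + Lam * (Gs * G))) = (Lam * Lam') * (Q11 + Lam * (Gs * G)) := by
        noncomm_ring
      rw [h, l1, one_mul]
    rw [e, ← hup]
    have : Lam * (up : H →L[ℂ] H) * (up.inv * Lam') = Lam * ((up : H →L[ℂ] H) * up.inv) * Lam' := by
      noncomm_ring
    rw [this, up.val_inv, mul_one, l1]
  exact I4_of_structure hH X Xs Z Zs ρ ρs A Ai α β βi θ _ X1 Z1 r1 xz zx xr rx zr rz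
    (by rw [r2, hF]; abel) a1 a2 hAX b1 b2 p1

end Pool.Agent.KS6_87.Inv4
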