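import Pool.Agent.KS6_87.Inv4.Fam

set_option autoImplicit false
set_option linter.unusedSectionVars false

open scoped InnerProductSpace ENNReal
open Cardinal Filter Topology
open Pool.Agent.H100R3.Inv

namespace Pool.Agent.KS6_87.Inv4

universe u

variable {H : Type u} [NormedAddCommGroup H] [InnerProductSpace ℂ H] [CompleteSpace H]

/-- `‖T x‖ ≤ c ‖x‖` off a small set -/
def EssB {ι : Type u} (_ : HilbertBasis ι ℂ H) (T : H →L[ℂ] H) (c : ℝ) : Prop :=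
  ∃ s : Set H, #s < #ι ∧ ∀ x : H, (∀ v ∈ s, ⟪v, x⟫_ℂ = 0) → ‖T x‖ ≤ c * ‖x‖

section

variable {ι : Type u} (b : HilbertBasis ι ℂ H)

theorem EssB.mono {T : H →L[ℂ] H} {c d : ℝ} (h : EssB b T c) (hcd : c ≤ d) : EssB b T d := by
  obtain ⟨s, hs, h⟩ := h
  exact ⟨s, hs, fun x hx => (h x hx).trans (by gcongr)⟩

theorem negl_iff {T : H →L[ℂ] H} : Negl b T ↔ ∀ ε : ℝ, 0 < ε → EssB b T ε := Iff.rfl

theorem EssB.add (hι : ℵ₀ ≤ #ι) {S T : H →L[ℂ] H} {c d : ℝ} (h : EssB b S c) (h' : EssB b T d) :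
    EssB b (S + T) (c + d) := by
  obtain ⟨s, hs, h⟩ := h
  obtain ⟨t, ht, h'⟩ := h'
  refine ⟨s ∪ t, small_union hι hs ht, fun x hx => ?_⟩
  calc ‖(S + T) x‖ ≤ ‖S x‖ + ‖T x‖ := norm_add_le _ _
    _ ≤ c * ‖x‖ + d * ‖x‖ :=
        add_le_add (h x fun v hv => hx v (Or.inl hv)) (h' x fun v hv => hx v (Or.inr hv))
    _ = (c + d) * ‖x‖ := by ring

theorem EssB.mul_left {T : H →L[ℂ] H} {c : ℝ} (hc : 0 ≤ c) (P : H →L[ℂ] H) (h : EssB b T c) :
    EssB b (P * T) (‖P‖ * c) := by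
  obtain ⟨s, hs, h⟩ := h
  refine ⟨s, hs, fun x hx => ?_⟩
  calc ‖(P * T) x‖ ≤ ‖P‖ * ‖T x‖ := P.le_opNorm _
    _ ≤ ‖P‖ * (c * ‖x‖) := by gcongr; exact h x hx
    _ = ‖P‖ * c * ‖x‖ := by ring

theorem EssB.mul_right {T : H →L[ℂ] H} {c : ℝ} (hc : 0 ≤ c) (Q : H →L[ℂ] H) (h : EssB b T c) :
    EssB b (T * Q) (c * ‖Q‖) := by
  obtain ⟨s, hs, h⟩ := h
  refine ⟨(fun v => ContinuousLinearMap.adjoint Q v) '' s, lt_of_le_of_lt Cardinal.mk_image_le hs,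
    fun x hx => ?_⟩
  have hQ : ∀ v ∈ s, ⟪v, Q x⟫_ℂ = 0 := fun v hv => by
    rw [← ContinuousLinearMap.adjoint_inner_left]
    exact hx _ ⟨v, hv, rfl⟩
  calc ‖(T * Q) x‖ ≤ c * ‖Q x‖ := h _ hQ
    _ ≤ c * (‖Q‖ * ‖x‖) := by gcongr; exact Q.le_opNorm _
    _ = c * ‖Q‖ * ‖x‖ := by ring

theorem EssB.smul {T : H →L[ℂ] H} {c : ℝ} (a : ℂ) (h : EssB b T c) :
    EssB b (a • T) (‖a‖ * c) := by
  obtain ⟨s, hs, h⟩ := h
  refine ⟨s, hs, fun x hx => ?_⟩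
  calc ‖(a • T) x‖ = ‖a‖ * ‖T x‖ := by
        show ‖a • T x‖ = _
        rw [norm_smul]
    _ ≤ ‖a‖ * (c * ‖x‖) := by gcongr; exact h x hx
    _ = ‖a‖ * c * ‖x‖ := by ring

theorem negl_add (hι : ℵ₀ ≤ #ι) {S T : H →L[ℂ] H} (h : Negl b S) (h' : Negl b T) :
    Negl b (S + T) := by
  intro ε hε
  have := EssB.add b hι (h (ε / 2) (by positivity)) (h' (ε / 2) (by positivity))
  rwa [add_halves] at this

theorem negl_mul_left {T : H →L[ℂ] H} (P : H →L[ℂ] H) (h : Negl b T) : Negl b (P * T) := by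
  intro ε hε
  have h1 := EssB.mul_left b (c := ε / (‖P‖ + 1)) (by positivity) P (h _ (by positivity))
  refine EssB.mono b h1 ?_
  rw [mul_div_assoc', div_le_iff₀ (by positivity)]
  nlinarith [norm_nonneg P]

theorem negl_mul_right {T : H →L[ℂ] H} (P : H →L[ℂ] H) (h : Negl b T) : Negl b (T * P) := by
  intro ε hε
  have h1 := EssB.mul_right b (c := ε / (‖P‖ + 1)) (by positivity) P (h _ (by positivity))
  refine EssB.mono b h1 ?_
  rw [div_mul_eq_mul_div, div_le_iff₀ (by positivity)]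
  nlinarith [norm_nonneg P]

theorem negl_smul {T : H →L[ℂ] H} (a : ℂ) (h : Negl b T) : Negl b (a • T) := by
  have : a • T = (a • (1 : H →L[ℂ] H)) * T := by rw [smul_mul_assoc, one_mul]
  rw [this]
  exact negl_mul_left b _ h

theorem negl_neg {T : H →L[ℂ] H} (h : Negl b T) : Negl b (-T) := by
  have : -T = (-1 : ℂ) • T := by rw [neg_one_smul]
  rw [this]
  exact negl_smul b _ h

/-- the essential norm -/
noncomputable def ess (T : H →L[ℂ] H) : ℝ := sInf {c : ℝ | 0 ≤ c ∧ EssB b T c}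

theorem ess_bdd (T : H →L[ℂ] H) : BddBelow {c : ℝ | 0 ≤ c ∧ EssB b T c} :=
  ⟨0, fun _ hc => hc.1⟩

theorem ess_le {T : H →L[ℂ] H} {c : ℝ} (hc : 0 ≤ c) (h : EssB b T c) : ess b T ≤ c :=
  csInf_le (ess_bdd b T) ⟨hc, h⟩

theorem ess_nonempty (hι : ℵ₀ ≤ #ι) (T : H →L[ℂ] H) :
    {c : ℝ | 0 ≤ c ∧ EssB b T c}.Nonempty := by
  refine ⟨‖T‖, norm_nonneg _, ∅, ?_, fun x _ => T.le_opNorm x⟩
  rw [Cardinal.mk_eq_zero]
  exact lt_of_lt_of_le Cardinal.aleph0_pos hι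

theorem ess_nonneg (hι : ℵ₀ ≤ #ι) (T : H →L[ℂ] H) : 0 ≤ ess b T :=
  le_csInf (ess_nonempty b hι T) fun _ hc => hc.1

theorem essB_of_lt (hι : ℵ₀ ≤ #ι) {T : H →L[ℂ] H} {c : ℝ} (h : ess b T < c) : EssB b T c := by
  obtain ⟨d, hd, hlt⟩ := exists_lt_of_csInf_lt (ess_nonempty b hι T) h
  exact EssB.mono b hd.2 hlt.le

theorem ess_lin (hι : ℵ₀ ≤ #ι) {T S K : H →L[ℂ] H} (a : ℂ) (h : T = a • S + K) (hK : Negl b K) :
    ess b T ≤ ‖a‖ * ess b S := by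
  refine le_of_forall_pos_le_add fun ε hε => ?_
  have h1 : EssB b S (ess b S + ε / (2 * (‖a‖ + 1))) :=
    essB_of_lt b hι (by linarith [show 0 < ε / (2 * (‖a‖ + 1)) by positivity])
  have h2 := EssB.add b hι (EssB.smul b a h1) (hK (ε / 2) (by positivity))
  rw [← h] at h2
  have h3 := ess_nonneg b hι S
  refine (ess_le b (by positivity) h2).trans ?_
  have h4 : ‖a‖ * (ε / (2 * (‖a‖ + 1))) ≤ ε / 2 := by
    rw [mul_div_assoc', div_le_div_iff₀ (by positivity) (by positivity)]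
    nlinarith [norm_nonneg a]
  nlinarith

theorem ess_conj (hι : ℵ₀ ≤ #ι) (P Q T : H →L[ℂ] H) :
    ess b (P * T * Q) ≤ ‖P‖ * ‖Q‖ * ess b T := by
  refine le_of_forall_pos_le_add fun ε hε => ?_
  have h0 := ess_nonneg b hι T
  set δ : ℝ := ε / ((‖P‖ + 1) * (‖Q‖ + 1)) with hδ
  have hδ0 : 0 < δ := by positivity
  have h1 : EssB b T (ess b T + δ) := essB_of_lt b hι (by linarith)
  have h2 := EssB.mul_right b (by positivity) Q (EssB.mul_left b (by positivity) P h1)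
  refine (ess_le b (by positivity) h2).trans ?_
  have h4 : (‖P‖ + 1) * (‖Q‖ + 1) * δ = ε := by
    rw [hδ]; field_simp
  have hP := norm_nonneg P
  have hQ := norm_nonneg Q
  have h5 : ‖P‖ * ‖Q‖ ≤ (‖P‖ + 1) * (‖Q‖ + 1) := by nlinarith
  have h6 : ‖P‖ * ‖Q‖ * δ ≤ ε := by
    rw [← h4]
    gcongr
  calc ‖P‖ * (ess b T + δ) * ‖Q‖ = ‖P‖ * ‖Q‖ * ess b T + ‖P‖ * ‖Q‖ * δ := by ring
    _ ≤ ‖P‖ * ‖Q‖ * ess b T + ε := by linarith

theorem ess_pos (hH : ¬ FiniteDimensional ℂ H) (T S : H →L[ℂ] H) (h : S * T = 1) :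
    0 < ess b T := by
  have hinf : Infinite ι := infinite_index b hH
  have hι : ℵ₀ ≤ #ι := Cardinal.aleph0_le_mk ι
  have hle : ∀ c : ℝ, 0 ≤ c → EssB b T c → 1 / (‖S‖ + 1) ≤ c := by
    rintro c hc ⟨s, hs, hx⟩
    obtain ⟨x, hx1, hxs⟩ := exists_unit_orthogonal b hH s hs
    have h1 := hx x hxs
    rw [hx1, mul_one] at h1
    have h2 : S (T x) = x := congrArg (fun R : H →L[ℂ] H => R x) h
    have h3 : 1 ≤ ‖S‖ * c := by
      calc 1 = ‖S (T x)‖ := by rw [h2, hx1]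
        _ ≤ ‖S‖ * ‖T x‖ := S.le_opNorm _
        _ ≤ ‖S‖ * c := by gcongr
    rw [div_le_iff₀ (by positivity)]
    nlinarith
  exact lt_of_lt_of_le (by positivity) (le_csInf (ess_nonempty b hι T) fun c hc => hle c hc.1 hc.2)

theorem ess_negl (hι : ℵ₀ ≤ #ι) {K : H →L[ℂ] H} (hK : Negl b K) : ess b K ≤ 0 := by
  refine le_of_forall_pos_le_add fun ε hε => ?_
  rw [zero_add]
  exact ess_le b hε.le (hK ε hε)

/-- powers modulo negligible operators -/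
theorem pow_negl (hι : ℵ₀ ≤ #ι) {B D : H →L[ℂ] H} (a : ℂ) (h : Negl b (B - a • D)) (n : ℕ) :
    Negl b (B ^ n - a ^ n • D ^ n) := by
  induction n with
  | zero =>
    simp only [pow_zero, one_smul, sub_self]
    have : (0 : H →L[ℂ] H) = (0 : ℂ) • (B - a • D) := by rw [zero_smul]
    rw [this]
    exact negl_smul b 0 h
  | succ n ih =>
    have : B ^ (n + 1) - a ^ (n + 1) • D ^ (n + 1) =
        (B ^ n - a ^ n • D ^ n) * B + (a ^ n • D ^ n) * (B - a • D) := by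
      rw [pow_succ, pow_succ, pow_succ, sub_mul, mul_sub, smul_mul_assoc, smul_mul_assoc,
        mul_smul_comm, smul_smul]
      abel
    rw [this]
    exact negl_add b hι (negl_mul_right b _ ih) (negl_mul_left b _ h)

/-- **The obstruction**, one half -/
theorem obst_aux (hH : ¬ FiniteDimensional ℂ H) (α : ℂ) (hα : 1 < ‖α‖)
    (J1 J2 J3 J4 : H →L[ℂ] H) (j1 : J1 * J1 = 1) (j2 : J2 * J2 = 1) (j3 : J3 * J3 = 1)
    (j4 : J4 * J4 = 1) (hK : Negl b (J1 * J2 * J3 * J4 - α • 1)) : False := by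
  have hinf : Infinite ι := infinite_index b hH
  have hι : ℵ₀ ≤ #ι := Cardinal.aleph0_le_mk ι
  have hα0 : α ≠ 0 := fun h => by rw [h, norm_zero] at hα; linarith
  set K := J1 * J2 * J3 * J4 - α • 1 with hKd
  set B := J1 * J2 with hB
  set B' := J2 * J1 with hB'
  set D := J4 * J3 with hD
  set D' := J3 * J4 with hD'
  have bb : B * B' = 1 := by
    have : B * B' = J1 * (J2 * J2) * J1 := by rw [hB, hB']; noncomm_ring
    rw [this, j2, mul_one, j1]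
  have bb' : B' * B = 1 := by
    have : B' * B = J2 * (J1 * J1) * J2 := by rw [hB, hB']; noncomm_ring
    rw [this, j1, mul_one, j2]
  have dd : D * D' = 1 := by
    have : D * D' = J4 * (J3 * J3) * J4 := by rw [hD, hD']; noncomm_ring
    rw [this, j3, mul_one, j4]
  have dd' : D' * D = 1 := by
    have : D' * D = J3 * (J4 * J4) * J3 := by rw [hD, hD']; noncomm_ring
    rw [this, j4, mul_one, j3]
  have hA : B * D' = K + α • 1 := by rw [hKd, hB, hD']; noncomm_ring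
  -- `B = α D + K D`
  have hBD : B - α • D = K * D := by
    have : B * D' * D = B := by rw [mul_assoc, dd', mul_one]
    rw [← this, hA, add_mul, smul_mul_assoc, one_mul]
    abel
  have hBD' : B' - α⁻¹ • D' = (-α⁻¹) • (B' * K) := by
    have : B' * (B * D') = D' := by rw [← mul_assoc, bb', one_mul]
    rw [hA, mul_add, mul_smul_comm, mul_one] at this
    rw [← this, smul_add, smul_smul, inv_mul_cancel₀ hα0, one_smul, neg_smul]
    abel
  have n1 : Negl b (B - α • D) := by rw [hBD]; exact negl_mul_right b _ hK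
  have n2 : Negl b (B' - α⁻¹ • D') := by
    rw [hBD']; exact negl_smul b _ (negl_mul_left b _ hK)
  -- conjugations
  have cB : ∀ n : ℕ, B ^ n = J2 * B' ^ n * J2 := by
    intro n
    induction n with
    | zero => rw [pow_zero, pow_zero, mul_one, j2]
    | succ n ih =>
      have : J2 * B' ^ (n + 1) * J2 = J2 * B' ^ n * (J2 * J2) * B' * J2 := by
        rw [j2, pow_succ]; noncomm_ring
      rw [this]
      have : J2 * B' ^ n * (J2 * J2) * B' * J2 = (J2 * B' ^ n * J2) * (J2 * B' * J2) := by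
        noncomm_ring
      rw [this, ← ih, pow_succ]
      congr 1
      have : J2 * B' * J2 = (J2 * J2) * J1 * J2 := by rw [hB']; noncomm_ring
      rw [this, j2, one_mul]
  have cD : ∀ n : ℕ, D' ^ n = J4 * D ^ n * J4 := by
    intro n
    induction n with
    | zero => rw [pow_zero, pow_zero, mul_one, j4]
    | succ n ih =>
      have : J4 * D ^ (n + 1) * J4 = J4 * D ^ n * (J4 * J4) * D * J4 := by
        rw [j4, pow_succ]; noncomm_ring
      rw [this]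
      have : J4 * D ^ n * (J4 * J4) * D * J4 = (J4 * D ^ n * J4) * (J4 * D * J4) := by
        noncomm_ring
      rw [this, ← ih, pow_succ]
      congr 1
      have : J4 * D * J4 = (J4 * J4) * J3 * J4 := by rw [hD]; noncomm_ring
      rw [this, j4, one_mul]
  have bn : ∀ n : ℕ, B' ^ n * B ^ n = 1 := by
    intro n
    induction n with
    | zero => simp
    | succ n ih =>
      have : B' ^ (n + 1) * B ^ (n + 1) = B' ^ n * (B' * B) * B ^ n := by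
        rw [pow_succ, pow_succ']; noncomm_ring
      rw [this, bb', mul_one, ih]
  have hbound : ∀ n : ℕ, ‖α‖ ^ n ≤ ‖J2‖ * ‖J2‖ * (‖J4‖ * ‖J4‖) := by
    intro n
    have p0 : 0 < ess b (B ^ n) := ess_pos b hH _ _ (bn n)
    have e1 : ess b (B ^ n) ≤ ‖J2‖ * ‖J2‖ * ess b (B' ^ n) := by
      rw [cB n]; exact ess_conj b hι _ _ _
    have e2 : ess b (B' ^ n) ≤ ‖α⁻¹ ^ n‖ * ess b (D' ^ n) :=
      ess_lin b hι (α⁻¹ ^ n) (by abel) (pow_negl b hι α⁻¹ n2 n)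
    have e3 : ess b (D' ^ n) ≤ ‖J4‖ * ‖J4‖ * ess b (D ^ n) := by
      rw [cD n]; exact ess_conj b hι _ _ _
    have e4 : ess b (D ^ n) ≤ ‖α⁻¹ ^ n‖ * ess b (B ^ n) := by
      refine ess_lin b hι (K := (-(α⁻¹ ^ n)) • (B ^ n - α ^ n • D ^ n)) (α⁻¹ ^ n) ?_
        (negl_smul b _ (pow_negl b hι α n1 n))
      have : α⁻¹ ^ n * α ^ n = 1 := by rw [← mul_pow, inv_mul_cancel₀ hα0, one_pow]
      rw [neg_smul, smul_sub, smul_smul, this, one_smul]
      abel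
    set C := ‖J2‖ * ‖J2‖ * (‖J4‖ * ‖J4‖) with hC
    have hai : ‖α⁻¹ ^ n‖ = (‖α‖ ^ n)⁻¹ := by rw [norm_pow, norm_inv, inv_pow]
    have hap : 0 < ‖α‖ ^ n := by positivity
    have hap1 : 1 ≤ ‖α‖ ^ n := one_le_pow₀ hα.le
    have e5 : ess b (B ^ n) ≤ C * ((‖α‖ ^ n)⁻¹ * (‖α‖ ^ n)⁻¹) * ess b (B ^ n) := by
      rw [hai] at e2 e4
      calc ess b (B ^ n) ≤ ‖J2‖ * ‖J2‖ * ess b (B' ^ n) := e1
        _ ≤ ‖J2‖ * ‖J2‖ * ((‖α‖ ^ n)⁻¹ * ess b (D' ^ n)) := by gcongr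
        _ ≤ ‖J2‖ * ‖J2‖ * ((‖α‖ ^ n)⁻¹ * (‖J4‖ * ‖J4‖ * ess b (D ^ n))) := by gcongr
        _ ≤ ‖J2‖ * ‖J2‖ * ((‖α‖ ^ n)⁻¹ * (‖J4‖ * ‖J4‖ * ((‖α‖ ^ n)⁻¹ * ess b (B ^ n)))) := by
            gcongr
        _ = C * ((‖α‖ ^ n)⁻¹ * (‖α‖ ^ n)⁻¹) * ess b (B ^ n) := by rw [hC]; ring
    have e6 : 1 ≤ C * ((‖α‖ ^ n)⁻¹ * (‖α‖ ^ n)⁻¹) := by
      by_contra hcon
      push Not at hcon
      nlinarith
    have e7 : ‖α‖ ^ n * ‖α‖ ^ n ≤ C := by
      have h7 : ‖α‖ ^ n * ‖α‖ ^ n * 1 ≤ ‖α‖ ^ n * ‖α‖ ^ n * (C * ((‖α‖ ^ n)⁻¹ * (‖α‖ ^ n)⁻¹)) := by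
        gcongr
      have h8 : ‖α‖ ^ n * ‖α‖ ^ n * (C * ((‖α‖ ^ n)⁻¹ * (‖α‖ ^ n)⁻¹)) = C := by
        field_simp
      rw [h8, mul_one] at h7
      exact h7
    nlinarith
  obtain ⟨n, hn⟩ := pow_unbounded_of_one_lt (‖J2‖ * ‖J2‖ * (‖J4‖ * ‖J4‖)) hα
  exact absurd (hbound n) (not_le.2 hn)

/-- **The obstruction.** -/
theorem obst (hH : ¬ FiniteDimensional ℂ H) (A : H →L[ℂ] H) (α : ℂ) (hα : ‖α‖ ≠ 1)
    (hK : Negl b (A - α • 1)) (hA : I4 A) : False := by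
  have hinf : Infinite ι := infinite_index b hH
  have hι : ℵ₀ ≤ #ι := Cardinal.aleph0_le_mk ι
  obtain ⟨J1, J2, J3, J4, j1, j2, j3, j4, rfl⟩ := hA
  set A := J1 * J2 * J3 * J4 with hA
  set Ai := J4 * J3 * J2 * J1 with hAi
  have h1 : Ai * A = 1 := by
    have : Ai * A = J4 * (J3 * (J2 * (J1 * J1) * J2) * J3) * J4 := by rw [hA, hAi]; noncomm_ring
    rw [this, j1, mul_one, j2, mul_one, j3, mul_one, j4]
  have hα0 : α ≠ 0 := by
    rintro rfl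
    have h2 : Negl b A := by rwa [zero_smul, sub_zero] at hK
    have h3 := ess_negl b hι h2
    have h4 := ess_pos b hH A Ai h1
    linarith
  rcases lt_or_gt_of_ne hα with h | h
  · have hlt : 1 < ‖α⁻¹‖ := by
      rw [norm_inv]
      exact (one_lt_inv₀ (norm_pos_iff.2 hα0)).2 h
    refine obst_aux b hH α⁻¹ hlt J4 J3 J2 J1 j4 j3 j2 j1 ?_
    have e : J4 * J3 * J2 * J1 - α⁻¹ • (1 : H →L[ℂ] H) = (-α⁻¹) • (Ai * (A - α • 1)) := by
      rw [mul_sub, h1, mul_smul_comm, mul_one, smul_sub, smul_smul]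
      have : -α⁻¹ * α = -1 := by rw [neg_mul, inv_mul_cancel₀ hα0]
      rw [this, ← hAi]
      module
    rw [e]
    exact negl_smul b _ (negl_mul_left b _ hK)
  · exact obst_aux b hH α h J1 J2 J3 J4 j1 j2 j3 j4 hK

end

end Pool.Agent.KS6_87.Inv4
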