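import Pool.Agent.KS6_87.Inv4.Kato

set_option autoImplicit false
set_option linter.unusedSectionVars false

open scoped InnerProductSpace ENNReal
open Cardinal Filter Topology

namespace Pool.Agent.KS6_87.Inv4

universe u

namespace ZZ

/-- the weights -/
noncomputable def r (j : ℤ) : ℝ := (1 / 2) ^ j.natAbs

theorem r_pos (j : ℤ) : 0 < r j := by unfold r; positivity

theorem r_le_one (j : ℤ) : r j ≤ 1 := pow_le_one₀ (by norm_num) (by norm_num)

theorem r_mul_le (m n : ℤ) : r m * r (m - n) ≤ r n := by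
  unfold r
  rw [← pow_add]
  refine pow_le_pow_of_le_one (by norm_num) (by norm_num) ?_
  omega

theorem hasSum_r : HasSum r 3 := by
  have h1 : HasSum (fun n : ℕ => r n) 2 := by
    have := hasSum_geometric_two
    simpa [r] using this
  have h2 : HasSum (fun n : ℕ => r (-((n : ℤ) + 1))) (1 / 2 * 2) := by
    have := hasSum_geometric_two.mul_left (1 / 2)
    have e : (fun n : ℕ => r (-((n : ℤ) + 1))) = fun n : ℕ => 1 / 2 * (1 / 2 : ℝ) ^ n := by
      funext n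
      unfold r
      have : (-((n : ℤ) + 1)).natAbs = n + 1 := by omega
      rw [this, pow_succ]; ring
    rw [e]
    exact this
  have h3 := HasSum.of_nat_of_neg_add_one h1 h2
  have e : (2 : ℝ) + 1 / 2 * 2 = 3 := by norm_num
  rwa [e] at h3

variable {H : Type u} [NormedAddCommGroup H] [NormedSpace ℂ H] [CompleteSpace H]

theorem norm_r_smul_le (j : ℤ) : ‖((r j : ℝ) : ℂ) • (1 : H →L[ℂ] H)‖ ≤ 1 := by
  rw [norm_smul, Complex.norm_real, Real.norm_of_nonneg (r_pos j).le]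
  have := norm_one_le (E := H)
  have h2 := r_le_one j
  have h3 := (r_pos j).le
  nlinarith [norm_nonneg (1 : H →L[ℂ] H)]

/-- the weight operator -/
noncomputable def bb : Z H →L[ℂ] Z H :=
  blk (Equiv.refl ℤ) (fun j => ((r j : ℝ) : ℂ) • (1 : H →L[ℂ] H)) 1 norm_r_smul_le

theorem bb_apply (f : Z H) (n : ℤ) : (bb f) n = ((r n : ℝ) : ℂ) • f n := rfl

/-- the bilateral shift and its powers -/
noncomputable def U (m : ℤ) : Z H →L[ℂ] Z H := shf (-m)

theorem U_apply (m : ℤ) (f : Z H) (n : ℤ) : (U m f) n = f (n - m) := by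
  show f (n + -m) = _
  rw [sub_eq_add_neg]

theorem U_zero : (U 0 : Z H →L[ℂ] Z H) = 1 := Z_ext fun f n => by
  rw [U_apply, sub_zero]; rfl

theorem U_add (m n : ℤ) : (U (m + n) : Z H →L[ℂ] Z H) = U m * U n := Z_ext fun f k => by
  show (U (m + n) f) k = (U m (U n f)) k
  have e : k - (m + n) = k - m - n := by ring
  rw [U_apply, U_apply, U_apply, e]

theorem bUb_norm (n : ℤ) : ‖(bb * U n * bb : Z H →L[ℂ] Z H)‖ ≤ r n := by
  have hF : ∀ m : ℤ, ‖((r m * r (m - n) : ℝ) : ℂ) • (1 : H →L[ℂ] H)‖ ≤ r n := fun m => by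
    rw [norm_smul, Complex.norm_real, Real.norm_of_nonneg (mul_nonneg (r_pos _).le (r_pos _).le)]
    have h1 := norm_one_le (E := H)
    have h2 := r_mul_le m n
    have h3 : 0 ≤ r m * r (m - n) := mul_nonneg (r_pos _).le (r_pos _).le
    nlinarith [norm_nonneg (1 : H →L[ℂ] H)]
  have e : (bb * U n * bb : Z H →L[ℂ] Z H) =
      blk (sh (-n)) (fun m => ((r m * r (m - n) : ℝ) : ℂ) • (1 : H →L[ℂ] H)) (r n) hF := by
    refine Z_ext fun f m => ?_
    show (bb (U n (bb f))) m = ((r m * r (m - n) : ℝ) : ℂ) • f (m + -n)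
    rw [bb_apply, U_apply, bb_apply, smul_smul, ← sub_eq_add_neg]
    push_cast
    rfl
  rw [e]
  exact norm_blk_le _ _ _ _

/-- summands of `V` -/
noncomputable def Vj (j : ℤ) : Z H →L[ℂ] Z (Z H) :=
  ((r j : ℝ) : ℂ) • blk (E := H) (F := Z H) (sh j) (fun _ => sg (E := H) j) 1
    (fun _ => norm_sg_le (E := H) j)

theorem norm_Vj (j : ℤ) : ‖(Vj j : Z H →L[ℂ] Z (Z H))‖ ≤ r j := by
  unfold Vj
  rw [norm_smul, Complex.norm_real, Real.norm_of_nonneg (r_pos j).le]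
  have := norm_blk_le (E := H) (F := Z H) (sh j) (fun _ => sg (E := H) j) 1
    (fun _ => norm_sg_le (E := H) j)
  have h := (r_pos j).le
  nlinarith

theorem summable_Vj : Summable (fun j : ℤ => (Vj j : Z H →L[ℂ] Z (Z H))) :=
  Summable.of_norm_bounded (g := r) hasSum_r.summable (fun j => norm_Vj (H := H) j)

/-- `f ↦ (b U^{-m} f)_m` -/
noncomputable def V : Z H →L[ℂ] Z (Z H) := ∑' j : ℤ, (Vj j : Z H →L[ℂ] Z (Z H))

theorem norm_V : ‖(V : Z H →L[ℂ] Z (Z H))‖ ≤ 3 :=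
  tsum_of_norm_bounded (f := fun j : ℤ => (Vj j : Z H →L[ℂ] Z (Z H))) hasSum_r
    (fun j => norm_Vj (H := H) j)

theorem V_apply (f : Z H) (m : ℤ) : (V f) m = bb (U (-m) f) := by
  have h1 : HasSum (fun j => (Vj j f) m) ((V f) m) := by
    have h := (summable_Vj (H := H)).hasSum.mapL (ContinuousLinearMap.apply ℂ (Z (Z H)) f)
    exact h.mapL (ev (E := Z H) m)
  have h2 := lp.hasSum_single (p := 2) (by norm_num) (bb (U (-m) f) : Z H)
  refine h1.unique ?_
  convert h2 using 1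
  funext j
  show ((r j : ℝ) : ℂ) • (sg j (f (m + j))) = lp.single 2 j ((bb (U (-m) f)) j)
  have e : j - -m = m + j := by ring
  rw [bb_apply, U_apply, ← map_smul, sg_apply, e]

/-- summands of `V'` -/
noncomputable def Vj' (j : ℤ) : Z (Z H) →L[ℂ] Z H :=
  ((r j : ℝ) : ℂ) • blk (E := Z H) (F := H) (sh (-j)) (fun _ => ev (E := H) j) 1
    (fun _ => norm_ev_le (E := H) j)

theorem norm_Vj' (j : ℤ) : ‖(Vj' j : Z (Z H) →L[ℂ] Z H)‖ ≤ r j := by
  unfold Vj'
  rw [norm_smul, Complex.norm_real, Real.norm_of_nonneg (r_pos j).le]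
  have := norm_blk_le (E := Z H) (F := H) (sh (-j)) (fun _ => ev (E := H) j) 1
    (fun _ => norm_ev_le (E := H) j)
  have h := (r_pos j).le
  nlinarith

theorem summable_Vj' : Summable (fun j : ℤ => (Vj' j : Z (Z H) →L[ℂ] Z H)) :=
  Summable.of_norm_bounded (g := r) hasSum_r.summable (fun j => norm_Vj' (H := H) j)

/-- the dual of `V` -/
noncomputable def V' : Z (Z H) →L[ℂ] Z H := ∑' j : ℤ, (Vj' j : Z (Z H) →L[ℂ] Z H)

theorem norm_V' : ‖(V' : Z (Z H) →L[ℂ] Z H)‖ ≤ 3 :=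
  tsum_of_norm_bounded (f := fun j : ℤ => (Vj' j : Z (Z H) →L[ℂ] Z H)) hasSum_r
    (fun j => norm_Vj' (H := H) j)

theorem V'_sg (m : ℤ) (v : Z H) : V' (sg m v) = U m (bb v) := by
  ext n
  have h1 : HasSum (fun j => (Vj' j (sg m v)) n) ((V' (sg m v)) n) := by
    have h := (summable_Vj' (H := H)).hasSum.mapL
      (ContinuousLinearMap.apply ℂ (Z H) (sg (E := Z H) m v))
    exact h.mapL (ev (E := H) n)
  have h2 : HasSum (fun j => (Vj' j (sg m v)) n) ((Vj' (n - m) (sg m v)) n) := by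
    refine hasSum_single _ fun j hj => ?_
    show ((r j : ℝ) : ℂ) • ((sg m v) (n + -j)) j = 0
    rw [sg_ne (fun h => hj (by omega))]
    exact smul_zero _
  rw [h1.unique h2, U_apply, bb_apply]
  show ((r (n - m) : ℝ) : ℂ) • ((sg m v) (n + -(n - m))) (n - m) = _
  have : n + -(n - m) = m := by ring
  rw [this, sg_self]

/-- the coefficient of `Q` -/
noncomputable def qc (x : Z H →L[ℂ] Z H) (n : ℤ) : Z H →L[ℂ] Z H := bb * U n * bb * x

/-- summands of `Q` -/
noncomputable def Qn (x : Z H →L[ℂ] Z H) (n : ℕ) : Z (Z H) →L[ℂ] Z (Z H) :=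
  blk (E := Z H) (F := Z H) (sh ((n : ℤ) + 1)) (fun _ => qc x ((n : ℤ) + 1))
    (r ((n : ℤ) + 1) * ‖x‖) (fun _ => by
      unfold qc
      refine (norm_mul_le _ _).trans ?_
      gcongr
      exact bUb_norm _)

theorem hasSum_bound (c : ℝ) : HasSum (fun n : ℕ => r ((n : ℤ) + 1) * c) c := by
  have h := (hasSum_geometric_two.mul_left (1 / 2)).mul_right c
  have e : (fun n : ℕ => r ((n : ℤ) + 1) * c) = fun n : ℕ => 1 / 2 * (1 / 2 : ℝ) ^ n * c := by
    funext n
    unfold r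
    have : ((n : ℤ) + 1).natAbs = n + 1 := by omega
    rw [this, pow_succ]; ring
  have e2 : (1 / 2 : ℝ) * 2 * c = c := by ring
  rw [e2] at h
  rw [e]
  exact h


theorem norm_Qn (x : Z H →L[ℂ] Z H) (n : ℕ) : ‖Qn x n‖ ≤ r ((n : ℤ) + 1) * ‖x‖ :=
  norm_blk_le _ _ _ _

theorem summable_Qn (x : Z H →L[ℂ] Z H) : Summable (Qn x) :=
  Summable.of_norm_bounded (hasSum_bound ‖x‖).summable (norm_Qn x)

/-- the perturbation series -/
@[irreducible] noncomputable def Q (x : Z H →L[ℂ] Z H) : Z (Z H) →L[ℂ] Z (Z H) := ∑' n : ℕ, Qn x n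

theorem hasSum_Q (x : Z H →L[ℂ] Z H) : HasSum (fun n : ℕ => Qn x n) (Q x) := by
  unfold Q
  exact (summable_Qn x).hasSum

theorem norm_Q (x : Z H →L[ℂ] Z H) : ‖Q x‖ ≤ ‖x‖ := by
  unfold Q
  exact tsum_of_norm_bounded (f := fun n : ℕ => Qn x n) (hasSum_bound ‖x‖) (norm_Qn x)

theorem Q_comm (x : Z H →L[ℂ] Z H) : Q x * shf 1 = shf 1 * Q x := by
  unfold Q
  rw [← (summable_Qn x).tsum_mul_right, ← (summable_Qn x).tsum_mul_left]
  congr 1
  funext n
  refine Z_ext fun f k => ?_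
  show qc x ((n : ℤ) + 1) (f (k + ((n : ℤ) + 1) + 1)) = qc x ((n : ℤ) + 1) (f (k + 1 + ((n : ℤ) + 1)))
  have e : k + ((n : ℤ) + 1) + 1 = k + 1 + ((n : ℤ) + 1) := by ring
  rw [e]

theorem Q_zero (x : Z H →L[ℂ] Z H) (g : Z (Z H)) : (Q x g) 0 = bb (V' (EX x g)) := by
  have this : (ev (E := Z H) 0) ∘L (Q x) = bb ∘L V' ∘L EX x := by
    refine ext_sg fun j v => ?_
    show (Q x (sg j v)) 0 = bb (V' (EX x (sg j v)))
    have h1 : HasSum (fun n => (Qn x n (sg j v)) 0) ((Q x (sg j v)) 0) := by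
      have h := (hasSum_Q x).mapL
        (ContinuousLinearMap.apply ℂ (Z (Z H)) (sg (E := Z H) j v))
      exact h.mapL (ev (E := Z H) 0)
    rw [EX_sg, V'_sg]
    by_cases hj : 1 ≤ j
    · rw [if_pos hj]
      obtain ⟨k, hk⟩ : ∃ k : ℕ, j = (k : ℤ) + 1 := ⟨(j - 1).toNat, by omega⟩
      have h2 : HasSum (fun n => (Qn x n (sg j v)) 0) ((Qn x k (sg j v)) 0) := by
        refine hasSum_single _ fun n hn => ?_
        show qc x ((n : ℤ) + 1) ((sg (E := Z H) j v) (0 + ((n : ℤ) + 1))) = 0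
        rw [sg_ne (fun h => hn (by omega)), map_zero]
      rw [h1.unique h2]
      show qc x ((k : ℤ) + 1) ((sg (E := Z H) j v) (0 + ((k : ℤ) + 1))) = _
      have e0 : (0 : ℤ) + ((k : ℤ) + 1) = j := by omega
      rw [e0, sg_self, ← hk]
      rfl
    · rw [if_neg hj]
      have h2 : HasSum (fun n => (Qn x n (sg j v)) 0) 0 := by
        have : (fun n => (Qn x n (sg j v)) 0) = fun _ => 0 := by
          funext n
          show qc x ((n : ℤ) + 1) ((sg (E := Z H) j v) (0 + ((n : ℤ) + 1))) = 0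
          rw [sg_ne (fun h => hj (by omega)), map_zero]
        rw [this]
        exact hasSum_zero
      rw [h1.unique h2]
      simp
  have h := DFunLike.congr_fun this g
  rw [ContinuousLinearMap.comp_apply, ContinuousLinearMap.comp_apply,
    ContinuousLinearMap.comp_apply, ev_apply] at h
  exact h

/-- small smooth perturbations of the bilateral shift are similar to it -/
theorem bilateral (x : Z H →L[ℂ] Z H) (hx : ‖x‖ ≤ 1 / 20) :
    ∃ W Wi : Z H →L[ℂ] Z H, W * Wi = 1 ∧ Wi * W = 1 ∧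
      U 1 * (1 + bb * x * bb) = W * U 1 * Wi := by
  have hQ : ‖Q x‖ ≤ 1 / 20 := (norm_Q x).trans hx
  refine kato U U_zero U_add bb x V V' V_apply V'_sg (Q x) (Q_comm x) (Q_zero x)
    (by linarith) ?_
  have h1 := norm_V (H := H)
  have h2 := norm_V' (H := H)
  have h3 := norm_nonneg x
  have h4 : ‖(V : Z H →L[ℂ] Z (Z H))‖ / (1 - ‖Q x‖) ≤ 3 / (19 / 20) := by
    gcongr
    linarith
  calc ‖(V' : Z (Z H) →L[ℂ] Z H)‖ * ‖x‖ * (‖(V : Z H →L[ℂ] Z (Z H))‖ / (1 - ‖Q x‖))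
      ≤ 3 * (1 / 20) * (3 / (19 / 20)) := by
        have h5 : 0 ≤ ‖(V : Z H →L[ℂ] Z (Z H))‖ / (1 - ‖Q x‖) := by
          have : 0 < 1 - ‖Q x‖ := by linarith
          positivity
        gcongr
    _ < 1 := by norm_num

end ZZ

end Pool.Agent.KS6_87.Inv4
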