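import Pool.Agent.KS6_87.Inv4.Good

set_option autoImplicit false
set_option linter.unusedSectionVars false

open Pool.Agent.H100R3.Inv

namespace Pool.Agent.KS6_87.Inv4

universe u

section Alg

variable {R : Type u} [Ring R]

theorem Sys.map {X Xs Y Ys : R} (S : Sys X Xs Y Ys) (E Ei : R) (h1 : E * Ei = 1) (h2 : Ei * E = 1) :
    Sys (E * X) (Xs * Ei) (E * Y) (Ys * Ei) := by
  refine ⟨?_, ?_, ?_, ?_, ?_⟩
  · have : Xs * Ei * (E * X) = Xs * (Ei * E) * X := by noncomm_ring
    rw [this, h2, mul_one, S.xx]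
  · have : Ys * Ei * (E * Y) = Ys * (Ei * E) * Y := by noncomm_ring
    rw [this, h2, mul_one, S.yy]
  · have : Xs * Ei * (E * Y) = Xs * (Ei * E) * Y := by noncomm_ring
    rw [this, h2, mul_one, S.xy]
  · have : Ys * Ei * (E * X) = Ys * (Ei * E) * X := by noncomm_ring
    rw [this, h2, mul_one, S.yx]
  · have : E * X * (Xs * Ei) + E * Y * (Ys * Ei) = E * (X * Xs + Y * Ys) * Ei := by noncomm_ring
    rw [this, S.sum, mul_one, h1]

/-- every element is its matrix -/
theorem Sys.full {X Xs Y Ys : R} (S : Sys X Xs Y Ys) (B : R) :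
    B = Phi X Xs Y Ys (Xs * B * X) (Xs * B * Y) (Ys * B * X) (Ys * B * Y) := by
  have e1 : B = (X * Xs + Y * Ys) * B * (X * Xs + Y * Ys) := by rw [S.sum, one_mul, mul_one]
  refine e1.trans ?_
  unfold Phi
  noncomm_ring

theorem Phi_corner {X Xs Y Ys : R} (S : Sys X Xs Y Ys) (a b c d : R) :
    Xs * Phi X Xs Y Ys a b c d * X = a ∧ Xs * Phi X Xs Y Ys a b c d * Y = b ∧
    Ys * Phi X Xs Y Ys a b c d * X = c ∧ Ys * Phi X Xs Y Ys a b c d * Y = d := by
  have key : ∀ L M : R, L * Phi X Xs Y Ys a b c d * M =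
      (L * X) * a * (Xs * M) + (L * X) * b * (Ys * M) + (L * Y) * c * (Xs * M)
        + (L * Y) * d * (Ys * M) := by
    intro L M; unfold Phi; noncomm_ring
  refine ⟨?_, ?_, ?_, ?_⟩
  · rw [key, S.xx, S.xy, S.yx]; noncomm_ring
  · rw [key, S.xx, S.xy, S.yy]; noncomm_ring
  · rw [key, S.xx, S.yx, S.yy]; noncomm_ring
  · rw [key, S.xy, S.yx, S.yy]; noncomm_ring

theorem Phi_inj {X Xs Y Ys : R} (S : Sys X Xs Y Ys) {a b c d a' b' c' d' : R}
    (h : Phi X Xs Y Ys a b c d = Phi X Xs Y Ys a' b' c' d') : a = a' ∧ b = b' ∧ c = c' ∧ d = d' := by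
  obtain ⟨h1, h2, h3, h4⟩ := Phi_corner S a b c d
  obtain ⟨k1, k2, k3, k4⟩ := Phi_corner S a' b' c' d'
  rw [h] at h1 h2 h3 h4
  exact ⟨h1.symm.trans k1, h2.symm.trans k2, h3.symm.trans k3, h4.symm.trans k4⟩

/-- the Schur complement of an invertible matrix with upper left corner `1` -/
theorem schur_unit {X Xs Y Ys : R} (S : Sys X Xs Y Ys) {m l d : R}
    (h : IsUnit (Phi X Xs Y Ys 1 m l d)) : ∃ t, (d - l * m) * t = 1 ∧ t * (d - l * m) = 1 := by
  obtain ⟨v, hv⟩ := h
  have h1 : Phi X Xs Y Ys 1 m l d * v.inv = 1 := by rw [← hv]; exact v.val_inv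
  have h2 : v.inv * Phi X Xs Y Ys 1 m l d = 1 := by rw [← hv]; exact v.inv_val
  rw [Sys.full S v.inv, Phi_mul S] at h1
  rw [Sys.full S v.inv, Phi_mul S] at h2
  replace h1 := h1.trans (Phi_one S).symm
  replace h2 := h2.trans (Phi_one S).symm
  obtain ⟨-, a2, -, a4⟩ := Phi_inj S h1
  obtain ⟨-, -, b3, b4⟩ := Phi_inj S h2
  set p := Xs * v.inv * X
  set q := Xs * v.inv * Y
  set s := Ys * v.inv * X
  set t := Ys * v.inv * Y
  refine ⟨t, ?_, ?_⟩
  · have : (d - l * m) * t = (l * q + d * t) - l * (1 * q + m * t) := by noncomm_ring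
    rw [this, a2, a4, mul_zero, sub_zero]
  · have : t * (d - l * m) = (s * m + t * d) - (s * 1 + t * l) * m := by noncomm_ring
    rw [this, b3, b4, zero_mul, sub_zero]

/-- the matrix `(θ, 1 + θ y; 1, y)` is invertible -/
theorem special_unit {X Xs Y Ys : R} (S : Sys X Xs Y Ys) (θ x y : R) (h : x - θ * y = 1) :
    ∃ F, Phi X Xs Y Ys θ x 1 y * F = 1 ∧ F * Phi X Xs Y Ys θ x 1 y = 1 := by
  have hx : x = 1 + θ * y := by rw [← h]; abel
  subst hx
  refine ⟨Phi X Xs Y Ys (-y) (1 + y * θ) 1 (-θ), ?_, ?_⟩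
  · rw [Phi_mul S]
    apply Phi_eq_one S <;> noncomm_ring
  · rw [Phi_mul S]
    apply Phi_eq_one S <;> noncomm_ring

/-- **The reduction.**  `X`, `Z`, `ρ` are three complementary copies, `A X = X α + Z β`, and
`X* A Z - α β⁻¹ Z* A Z - θ ρ* A Z` is invertible for some `θ`.  Then `A` is a matrix to which the
extension step applies, with a good Schur complement. -/
theorem reduction (X Xs Z Zs ρ ρs ι ιs r rs A Ai α β βi θ pi : R)
    (xx : Xs * X = 1) (zz : Zs * Z = 1) (rr : ρs * ρ = 1) (xz : Xs * Z = 0) (zx : Zs * X = 0)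
    (xr : Xs * ρ = 0) (rx : ρs * X = 0) (zr : Zs * ρ = 0) (rz : ρs * Z = 0)
    (hsum : X * Xs + Z * Zs + ρ * ρs = 1) (T : Sys ι ιs r rs)
    (a1 : A * Ai = 1) (a2 : Ai * A = 1) (hAX : A * X = X * α + Z * β) (b1 : β * βi = 1)
    (b2 : βi * β = 1)
    (p1 : (Xs * A * Z - α * βi * (Zs * A * Z) - θ * (ρs * A * Z)) * pi = 1) :
    ∃ (U V w : R), Sys X Xs U V ∧ Xs * A * X + w * (V * A * X) = 1 ∧
      ∃ X' Xs' Y' Ys' Wi : R, Sys X' Xs' Y' Ys' ∧
        (V * A * U - V * A * X * (Xs * A * U + w * (V * A * U))) * X' = Y' ∧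
        (V * A * U - V * A * X * (Xs * A * U + w * (V * A * U))) * Wi = 1 ∧
        Wi * (V * A * U - V * A * X * (Xs * A * U + w * (V * A * U))) = 1 := by
  have hα : Xs * A * X = α := by
    rw [mul_assoc, hAX, mul_add, ← mul_assoc, ← mul_assoc, xx, xz]; noncomm_ring
  have hβ : Zs * A * X = β := by
    rw [mul_assoc, hAX, mul_add, ← mul_assoc, ← mul_assoc, zx, zz]; noncomm_ring
  have hρ : ρs * A * X = 0 := by
    rw [mul_assoc, hAX, mul_add, ← mul_assoc, ← mul_assoc, rx, rz]; noncomm_ring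
  set U := Z * ιs + ρ * rs with hU
  set V := ι * Zs + r * ρs with hV
  have S : Sys X Xs U V := by
    refine ⟨xx, ?_, ?_, ?_, ?_⟩
    · have : V * U = ι * (Zs * Z) * ιs + ι * (Zs * ρ) * rs + r * (ρs * Z) * ιs + r * (ρs * ρ) * rs := by
        rw [hV, hU]; noncomm_ring
      rw [this, zz, zr, rz, rr]
      have : ι * 1 * ιs + ι * 0 * rs + r * 0 * ιs + r * 1 * rs = ι * ιs + r * rs := by noncomm_ring
      rw [this, T.sum]
    · have : Xs * U = (Xs * Z) * ιs + (Xs * ρ) * rs := by rw [hU]; noncomm_ring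
      rw [this, xz, xr]; noncomm_ring
    · have : V * X = ι * (Zs * X) + r * (ρs * X) := by rw [hV]; noncomm_ring
      rw [this, zx, rx]; noncomm_ring
    · have : X * Xs + U * V = X * Xs + (Z * (ιs * ι) * Zs + Z * (ιs * r) * ρs + ρ * (rs * ι) * Zs
          + ρ * (rs * r) * ρs) := by rw [hV, hU]; noncomm_ring
      rw [this, T.xx, T.xy, T.yx, T.yy]
      refine Eq.trans ?_ hsum
      noncomm_ring
  -- the entries
  set b := Xs * A * U with hb
  set d := V * A * U with hd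
  have hc : V * A * X = ι * β := by
    have : V * A * X = ι * (Zs * A * X) + r * (ρs * A * X) := by rw [hV]; noncomm_ring
    rw [this, hβ, hρ]; noncomm_ring
  have hιd : ιs * d = Zs * A * U := by
    have : ιs * d = (ιs * ι) * Zs * A * U + (ιs * r) * ρs * A * U := by rw [hd, hV]; noncomm_ring
    rw [this, T.xx, T.xy]; noncomm_ring
  have hrd : rs * d = ρs * A * U := by
    have : rs * d = (rs * ι) * Zs * A * U + (rs * r) * ρs * A * U := by rw [hd, hV]; noncomm_ring
    rw [this, T.yx, T.yy]; noncomm_ring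
  set δ := rs * d with hδ
  set q1 := b - α * βi * (ιs * d) with hq1
  set Q := ι * q1 + r * δ with hQ
  -- `A (U - X βi (ιs d)) = X q1 + ρ δ`
  set TT := U - X * βi * (ιs * d) with hTT
  have hAT : A * TT = X * q1 + ρ * δ := by
    have hAU : A * U = X * b + Z * (ιs * d) + ρ * δ := by
      have e : A * U = (X * Xs + Z * Zs + ρ * ρs) * (A * U) := by rw [hsum, one_mul]
      rw [hιd, hrd, hb, e]; noncomm_ring
    have : A * TT = A * U - (A * X) * βi * (ιs * d) := by rw [hTT]; noncomm_ring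
    rw [this, hAU, hAX, hq1]
    have : X * b + Z * (ιs * d) + ρ * δ - (X * α + Z * β) * βi * (ιs * d) =
      X * (b - α * βi * (ιs * d)) + ρ * δ + Z * ((1 - β * βi) * (ιs * d)) := by noncomm_ring
    rw [this, b1]; noncomm_ring
  set EE := X * ιs + ρ * rs with hEE
  have hEQ : EE * Q = X * q1 + ρ * δ := by
    have : EE * Q = X * (ιs * ι) * q1 + X * (ιs * r) * δ + ρ * (rs * ι) * q1 + ρ * (rs * r) * δ := by
      rw [hEE, hQ]; noncomm_ring
    rw [this, T.xx, T.xy, T.yx, T.yy]; noncomm_ring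
  set Es := ι * Xs + r * ρs with hEs
  have hEsE : Es * EE = 1 := by
    have : Es * EE = ι * (Xs * X) * ιs + ι * (Xs * ρ) * rs + r * (ρs * X) * ιs + r * (ρs * ρ) * rs := by
      rw [hEE, hEs]; noncomm_ring
    rw [this, xx, xr, rx, rr]
    have : ι * 1 * ιs + ι * 0 * rs + r * 0 * ιs + r * 1 * rs = ι * ιs + r * rs := by noncomm_ring
    rw [this, T.sum]
  have hVT : V * TT = 1 := by
    have : V * TT = V * U - (V * X) * βi * (ιs * d) := by rw [hTT]; noncomm_ring
    rw [this, S.yy, S.yx]; noncomm_ring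
  set Qi := V * Ai * EE with hQi
  have hQiQ : Qi * Q = 1 := by
    have : Qi * Q = V * Ai * (EE * Q) := by rw [hQi]; noncomm_ring
    rw [this, hEQ, ← hAT]
    have : V * Ai * (A * TT) = V * (Ai * A) * TT := by noncomm_ring
    rw [this, a2, mul_one, hVT]
  have hQQi : Q * Qi = 1 := by
    -- `Ai EE = TT V Ai EE`
    have hZE : Zs * EE = 0 := by
      have : Zs * EE = (Zs * X) * ιs + (Zs * ρ) * rs := by rw [hEE]; noncomm_ring
      rw [this, zx, zr]; noncomm_ring
    have e1 : β * (Xs * Ai * EE) + ιs * d * (V * Ai * EE) = 0 := by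
      have : β * (Xs * Ai * EE) + ιs * d * (V * Ai * EE) =
          Zs * A * (X * Xs + U * V) * Ai * EE := by
        rw [hιd, ← hβ]; noncomm_ring
      rw [this, S.sum]
      have : Zs * A * 1 * Ai * EE = Zs * (A * Ai) * EE := by noncomm_ring
      rw [this, a1, mul_one, hZE]
    have e2 : Xs * Ai * EE = -(βi * (ιs * d * (V * Ai * EE))) := by
      have h3 : βi * (β * (Xs * Ai * EE) + ιs * d * (V * Ai * EE)) =
          (βi * β) * (Xs * Ai * EE) + βi * (ιs * d * (V * Ai * EE)) := by noncomm_ring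
      rw [e1, b2, mul_zero, one_mul] at h3
      exact eq_neg_of_add_eq_zero_left h3.symm
    have e3 : Ai * EE = TT * (V * Ai * EE) := by
      have : Ai * EE = (X * Xs + U * V) * (Ai * EE) := by rw [S.sum, one_mul]
      rw [this]
      have : (X * Xs + U * V) * (Ai * EE) = X * (Xs * Ai * EE) + U * (V * Ai * EE) := by noncomm_ring
      rw [this, e2, hTT]; noncomm_ring
    have e4 : Q = Es * (A * TT) := by
      rw [hAT, ← hEQ]
      have : Es * (EE * Q) = (Es * EE) * Q := by noncomm_ring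
      rw [this, hEsE, one_mul]
    rw [e4, hQi]
    have : Es * (A * TT) * (V * Ai * EE) = Es * A * (TT * (V * Ai * EE)) := by noncomm_ring
    rw [this, ← e3]
    have : Es * A * (Ai * EE) = Es * (A * Ai) * EE := by noncomm_ring
    rw [this, a1, mul_one, hEsE]
  -- blocks of `Q`
  have q11 : ιs * Q * ι = Xs * A * Z - α * βi * (Zs * A * Z) := by
    have e1 : ιs * Q = q1 := by
      have : ιs * Q = (ιs * ι) * q1 + (ιs * r) * δ := by rw [hQ]; noncomm_ring
      rw [this, T.xx, T.xy]; noncomm_ring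
    have hUι : U * ι = Z := by
      have : U * ι = Z * (ιs * ι) + ρ * (rs * ι) := by rw [hU]; noncomm_ring
      rw [this, T.xx, T.yx]; noncomm_ring
    rw [e1, hq1, hιd, hb]
    have : (Xs * A * U - α * βi * (Zs * A * U)) * ι =
      Xs * A * (U * ι) - α * βi * (Zs * A * (U * ι)) := by noncomm_ring
    rw [this, hUι]
  have q21 : rs * Q * ι = ρs * A * Z := by
    have e1 : rs * Q = δ := by
      have : rs * Q = (rs * ι) * q1 + (rs * r) * δ := by rw [hQ]; noncomm_ring
      rw [this, T.yx, T.yy]; noncomm_ring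
    have hUι : U * ι = Z := by
      have : U * ι = Z * (ιs * ι) + ρ * (rs * ι) := by rw [hU]; noncomm_ring
      rw [this, T.xx, T.yx]; noncomm_ring
    rw [e1, hrd]
    have : ρs * A * U * ι = ρs * A * (U * ι) := by noncomm_ring
    rw [this, hUι]
  set Q11 := ιs * Q * ι with hQ11
  set Q12 := ιs * Q * r with hQ12
  set Q21 := rs * Q * ι with hQ21
  set Q22 := rs * Q * r with hQ22
  have hQP : Q = Phi ι ιs r rs Q11 Q12 Q21 Q22 := Sys.full T Q
  have hp : (Q11 - θ * Q21) * pi = 1 := by rw [q11, q21]; exact p1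
  set τ := pi * (1 - Q12 + θ * Q22) with hτ
  have hs : (Q11 * τ + Q12) - θ * (Q21 * τ + Q22) = 1 := by
    have : (Q11 * τ + Q12) - θ * (Q21 * τ + Q22) =
      ((Q11 - θ * Q21) * pi) * (1 - Q12 + θ * Q22) + Q12 - θ * Q22 := by rw [hτ]; noncomm_ring
    rw [this, hp]; noncomm_ring
  obtain ⟨F, hF1, hF2⟩ := special_unit T θ _ _ hs
  -- `E = X' ιs + Y' rs`
  set E := Qi * Phi ι ιs r rs θ (Q11 * τ + Q12) 1 (Q21 * τ + Q22) with hE
  set Ei := F * Q with hEi
  have hEE1 : E * Ei = 1 := by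
    have : E * Ei = Qi * (Phi ι ιs r rs θ (Q11 * τ + Q12) 1 (Q21 * τ + Q22) * F) * Q := by
      rw [hE, hEi]; noncomm_ring
    rw [this, hF1, mul_one, hQiQ]
  have hEE2 : Ei * E = 1 := by
    have : Ei * E = F * (Q * Qi) * Phi ι ιs r rs θ (Q11 * τ + Q12) 1 (Q21 * τ + Q22) := by
      rw [hE, hEi]; noncomm_ring
    rw [this, hQQi, mul_one, hF2]
  have S' := Sys.map T E Ei hEE1 hEE2
  set X' := E * ι with hX'
  set Y' := E * r with hY'
  set ς := -θ - βi * τ with hς
  set w := (1 - α) * βi * ιs + ς * rs with hw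
  have hwc : α + w * (ι * β) = 1 := by
    have : α + w * (ι * β) = α + (1 - α) * βi * (ιs * ι) * β + ς * (rs * ι) * β := by
      rw [hw]; noncomm_ring
    rw [this, T.xx, T.yx]
    have : α + (1 - α) * βi * 1 * β + ς * 0 * β = α + (1 - α) * (βi * β) := by noncomm_ring
    rw [this, b2]; noncomm_ring
  have hQX' : Q * X' = ι * θ + r := by
    have : Q * X' = (Q * Qi) * (Phi ι ιs r rs θ (Q11 * τ + Q12) 1 (Q21 * τ + Q22) * ι) := by
      rw [hX', hE]; noncomm_ring
    rw [this, hQQi, one_mul]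
    unfold Phi
    have : (ι * θ * ιs + ι * (Q11 * τ + Q12) * rs + r * 1 * ιs + r * (Q21 * τ + Q22) * rs) * ι =
      ι * θ * (ιs * ι) + ι * (Q11 * τ + Q12) * (rs * ι) + r * (ιs * ι) + r * (Q21 * τ + Q22) * (rs * ι)
      := by noncomm_ring
    rw [this, T.xx, T.yx]; noncomm_ring
  have hq1X' : q1 * X' = θ := by
    have e1 : ιs * Q = q1 := by
      have : ιs * Q = (ιs * ι) * q1 + (ιs * r) * δ := by rw [hQ]; noncomm_ring
      rw [this, T.xx, T.xy]; noncomm_ring
    rw [← e1, mul_assoc, hQX', mul_add, ← mul_assoc, T.xx, T.xy]; noncomm_ring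
  have hδX' : δ * X' = 1 := by
    have e1 : rs * Q = δ := by
      have : rs * Q = (rs * ι) * q1 + (rs * r) * δ := by rw [hQ]; noncomm_ring
      rw [this, T.yx, T.yy]; noncomm_ring
    rw [← e1, mul_assoc, hQX', mul_add, ← mul_assoc, T.yx, T.yy]; noncomm_ring
  -- the Schur complement
  set W := d - ι * β * (b + w * d) with hW
  have hWQ : W = ι * (-(β * (q1 + ς * δ))) + r * δ := by
    have e1 : W = (ι * ιs + r * rs) * W := by rw [T.sum, one_mul]
    have e2 : (ι * ιs + r * rs) * W = ι * (ιs * W) + r * (rs * W) := by noncomm_ring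
    have e3 : ιs * W = -(β * (q1 + ς * δ)) := by
      have : ιs * W = ιs * d - (ιs * ι) * β * (b + w * d) := by rw [hW]; noncomm_ring
      rw [this, T.xx, one_mul]
      have : w * d = (1 - α) * βi * (ιs * d) + ς * δ := by rw [hw, hδ]; noncomm_ring
      rw [this, hq1]
      have : ιs * d - β * (b + ((1 - α) * βi * (ιs * d) + ς * δ)) =
        (1 - β * βi) * (ιs * d) + -(β * (b - α * βi * (ιs * d) + ς * δ)) := by noncomm_ring
      rw [this, b1]; noncomm_ring
    have e4 : rs * W = δ := by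
      have : rs * W = rs * d - (rs * ι) * β * (b + w * d) := by rw [hW]; noncomm_ring
      rw [this, T.yx, ← hδ]; noncomm_ring
    rw [e1, e2, e3, e4]
  have hWX' : W * X' = ι * τ + r := by
    have : W * X' = ι * (-(β * (q1 * X' + ς * (δ * X')))) + r * (δ * X') := by
      rw [hWQ]; noncomm_ring
    rw [this, hq1X', hδX', hς]
    have : ι * -(β * (θ + (-θ - βi * τ) * 1)) + r * 1 = ι * ((β * βi) * τ) + r := by noncomm_ring
    rw [this, b1, one_mul]
  have hY'' : Y' = ι * τ + r := by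
    have h1 : Q * Y' = Q * (ι * τ + r) := by
      have : Q * Y' = (Q * Qi) * (Phi ι ιs r rs θ (Q11 * τ + Q12) 1 (Q21 * τ + Q22) * r) := by
        rw [hY', hE]; noncomm_ring
      rw [this, hQQi, one_mul, hQP]
      unfold Phi
      have : (ι * θ * ιs + ι * (Q11 * τ + Q12) * rs + r * 1 * ιs + r * (Q21 * τ + Q22) * rs) * r =
        ι * θ * (ιs * r) + ι * (Q11 * τ + Q12) * (rs * r) + r * (ιs * r)
          + r * (Q21 * τ + Q22) * (rs * r) := by noncomm_ring
      rw [this, T.xy, T.yy]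
      have : (ι * Q11 * ιs + ι * Q12 * rs + r * Q21 * ιs + r * Q22 * rs) * (ι * τ + r) =
        ι * Q11 * (ιs * ι) * τ + ι * Q12 * (rs * ι) * τ + r * Q21 * (ιs * ι) * τ
          + r * Q22 * (rs * ι) * τ + ι * Q11 * (ιs * r) + ι * Q12 * (rs * r) + r * Q21 * (ιs * r)
          + r * Q22 * (rs * r) := by noncomm_ring
      rw [this, T.xx, T.xy, T.yx, T.yy]; noncomm_ring
    have h2 := congrArg (fun t => Qi * t) h1
    simp only [← mul_assoc, hQiQ, one_mul] at h2
    exact h2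
  have hWe : V * A * U - V * A * X * (Xs * A * U + w * (V * A * U)) = W := by
    rw [hW, hc]
  refine ⟨U, V, w, S, ?_, X', ιs * Ei, Y', rs * Ei, ?_⟩
  · rw [hα, hc, hwc]
  · rw [hWe]
    -- invertibility of `W`
    have hM : IsUnit (Phi X Xs U V 1 (b + w * d - w) (ι * β) (d - ι * β * w)) := by
      have e1 : Phi X Xs U V 1 w 0 1 * Phi X Xs U V 1 (-w) 0 1 = 1 := by
        rw [Phi_mul S]
        apply Phi_eq_one S <;> noncomm_ring
      have e2 : Phi X Xs U V 1 (-w) 0 1 * Phi X Xs U V 1 w 0 1 = 1 := by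
        rw [Phi_mul S]
        apply Phi_eq_one S <;> noncomm_ring
      have hA : A = Phi X Xs U V α b (ι * β) d := by
        have := Sys.full S A
        rw [hα, hc] at this
        exact this
      have : Phi X Xs U V 1 (b + w * d - w) (ι * β) (d - ι * β * w) =
          Phi X Xs U V 1 w 0 1 * A * Phi X Xs U V 1 (-w) 0 1 := by
        rw [hA, Phi_mul S, Phi_mul S]
        apply Phi_congr
        · have : (1 * α + w * (ι * β)) * 1 + (1 * b + w * d) * 0 = α + w * (ι * β) := by noncomm_ring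
          rw [this, hwc]
        · have : (1 * α + w * (ι * β)) * -w + (1 * b + w * d) * 1 =
            -((α + w * (ι * β)) * w) + (b + w * d) := by noncomm_ring
          rw [this, hwc]; noncomm_ring
        · noncomm_ring
        · noncomm_ring
      rw [this]
      exact IsUnit.mul (IsUnit.mul ⟨⟨_, _, e1, e2⟩, rfl⟩ ⟨⟨A, Ai, a1, a2⟩, rfl⟩) ⟨⟨_, _, e2, e1⟩, rfl⟩
    obtain ⟨t, t1, t2⟩ := schur_unit S hM
    have hWW : d - ι * β * w - ι * β * (b + w * d - w) = W := by rw [hW]; noncomm_ring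
    rw [hWW] at t1 t2
    exact ⟨t, S', hWX'.trans hY''.symm, t1, t2⟩

end Alg

variable {H : Type u} [NormedAddCommGroup H] [InnerProductSpace ℂ H] [CompleteSpace H]

/-- Under the hypotheses of `reduction` the operator is a product of four involutions. -/
theorem I4_of_structure (hH : ¬ FiniteDimensional ℂ H)
    (X Xs Z Zs ρ ρs A Ai α β βi θ pi : H →L[ℂ] H)
    (xx : Xs * X = 1) (zz : Zs * Z = 1) (rr : ρs * ρ = 1) (xz : Xs * Z = 0) (zx : Zs * X = 0)
    (xr : Xs * ρ = 0) (rx : ρs * X = 0) (zr : Zs * ρ = 0) (rz : ρs * Z = 0)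
    (hsum : X * Xs + Z * Zs + ρ * ρs = 1)
    (a1 : A * Ai = 1) (a2 : Ai * A = 1) (hAX : A * X = X * α + Z * β) (b1 : β * βi = 1)
    (b2 : βi * β = 1)
    (p1 : (Xs * A * Z - α * βi * (Zs * A * Z) - θ * (ρs * A * Z)) * pi = 1) : I4 A := by
  obtain ⟨ι, ιs, r, rs, T⟩ := exists_two hH
  obtain ⟨U, V, w, S, hw, X', Xs', Y', Ys', Wi, S', hXY, w1, w2⟩ :=
    reduction X Xs Z Zs ρ ρs ι ιs r rs A Ai α β βi θ pi xx zz rr xz zx xr rx zr rz hsum T a1 a2 hAX
      b1 b2 p1
  have hZ := good_I4s hH _ Wi w1 w2 S' hXY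
  have h := extend_I4' S (Xs * A * X) (Xs * A * U) (V * A * X) (V * A * U) w hw hZ
  rwa [← Sys.full S A] at h

end Pool.Agent.KS6_87.Inv4
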