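import Pool.Agent.KS6_87.Inv4.Shift

set_option autoImplicit false
set_option linter.unusedSectionVars false

open scoped InnerProductSpace ENNReal
open Cardinal Filter Topology
open Pool.Agent.H100R3.Inv

namespace Pool.Agent.KS6_87.Inv4

universe u

namespace ZZ

variable {H : Type u} [NormedAddCommGroup H] [NormedSpace ℂ H] [CompleteSpace H]

/-- reflection -/
noncomputable def Rf (m : ℤ) : Z H →L[ℂ] Z H :=
  blk (E := H) (F := H) (Equiv.subLeft m) (fun _ => 1) 1 (fun _ => norm_one_le)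

theorem Rf_apply (m : ℤ) (f : Z H) (n : ℤ) : (Rf m f) n = f (m - n) := rfl

theorem Rf_Rf (m : ℤ) : (Rf m * Rf m : Z H →L[ℂ] Z H) = 1 := Z_ext fun f n => by
  show (Rf m (Rf m f)) n = f n
  rw [Rf_apply, Rf_apply, sub_sub_cancel]

theorem I2_U (m : ℤ) : I2 (U m : Z H →L[ℂ] Z H) := by
  refine ⟨Rf m, Rf 0, Rf_Rf m, Rf_Rf 0, Z_ext fun f n => ?_⟩
  show (U m f) n = (Rf m (Rf 0 f)) n
  have e : (0 : ℤ) - (m - n) = n - m := by ring
  rw [U_apply, Rf_apply, Rf_apply, e]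

/-- block diagonal operators -/
noncomputable def dg (T : ℤ → H →L[ℂ] H) (C : ℝ) (hT : ∀ n, ‖T n‖ ≤ C) : Z H →L[ℂ] Z H :=
  blk (E := H) (F := H) (Equiv.refl ℤ) T C hT

theorem dg_apply (T : ℤ → H →L[ℂ] H) (C : ℝ) (hT : ∀ n, ‖T n‖ ≤ C) (f : Z H) (n : ℤ) :
    (dg T C hT f) n = T n (f n) := rfl

theorem norm_dg_le (T : ℤ → H →L[ℂ] H) (C : ℝ) (hT : ∀ n, ‖T n‖ ≤ C) : ‖dg T C hT‖ ≤ C :=
  norm_blk_le _ _ _ _

theorem bb_dg (T : ℤ → H →L[ℂ] H) (C : ℝ) (hT : ∀ n, ‖T n‖ ≤ C) :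
    bb * dg T C hT = dg T C hT * bb := Z_ext fun f n => by
  show (bb (dg T C hT f)) n = (dg T C hT (bb f)) n
  rw [bb_apply, dg_apply, dg_apply, bb_apply, map_smul]

theorem norm_bb : ‖(bb : Z H →L[ℂ] Z H)‖ ≤ 1 := norm_blk_le _ _ _ _

/-- **Unimodular multiples of perturbations** of block diagonal operators with one nontrivial block
are products of four involutions. -/
theorem uni (α : ℂ) (hα : ‖α‖ = 1) (B Bi y : Z H →L[ℂ] Z H) (a : H →L[ℂ] H)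
    (h1 : B * Bi = 1) (h2 : Bi * B = 1)
    (hy : ‖y‖ * (20 * (2 + ‖B‖) * (1 + 2 * ‖Bi‖) ^ 2) ≤ 1)
    (hB : ∀ f n, (B f) n = (if n = 0 then a else 1 : H →L[ℂ] H) (f n) + (bb (y (bb f))) n) :
    I4 (α • B) := by
  have hα0 : α ≠ 0 := fun h => by rw [h, norm_zero] at hα; exact zero_ne_one hα
  have nB := norm_nonneg B
  have nBi := norm_nonneg Bi
  have ny := norm_nonneg y
  have hsq : (1 : ℝ) ≤ (1 + 2 * ‖Bi‖) ^ 2 := one_le_pow₀ (by linarith)
  have hy1 : ‖y‖ ≤ 1 := by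
    have : 1 ≤ 20 * (2 + ‖B‖) * (1 + 2 * ‖Bi‖) ^ 2 := by nlinarith
    nlinarith
  have hy2 : ‖Bi‖ * ‖y‖ ≤ 1 / 2 := by
    have h3 : 1 + 2 * ‖Bi‖ ≤ (1 + 2 * ‖Bi‖) ^ 2 := by nlinarith
    have h4 : 2 * ‖Bi‖ ≤ 20 * (2 + ‖B‖) * (1 + 2 * ‖Bi‖) ^ 2 := by nlinarith
    nlinarith
  -- `D`
  set P : Z H →L[ℂ] Z H := bb * y * bb with hP
  set D : Z H →L[ℂ] Z H := B - P with hD
  have hDa : ∀ f n, (D f) n = (if n = 0 then a else 1 : H →L[ℂ] H) (f n) := fun f n => by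
    show (B f) n - (bb (y (bb f))) n = _
    rw [hB, add_sub_cancel_right]
  have nbyb : ‖P‖ ≤ ‖y‖ := by
    have h3 := norm_bb (H := H)
    calc ‖P‖ ≤ ‖(bb : Z H →L[ℂ] Z H)‖ * ‖y‖ * ‖(bb : Z H →L[ℂ] Z H)‖ :=
          (norm_mul_le _ _).trans (by gcongr; exact norm_mul_le _ _)
      _ ≤ 1 * ‖y‖ * 1 := by gcongr
      _ = ‖y‖ := by ring
  have nD : ‖D‖ ≤ ‖B‖ + 1 := (norm_sub_le _ _).trans (by linarith)
  have hsm : ‖Bi * P‖ < 1 := by
    have : ‖Bi * P‖ ≤ ‖Bi‖ * ‖y‖ := (norm_mul_le _ _).trans (by gcongr)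
    linarith
  set u := Units.oneSub (Bi * P) hsm with hu
  set R : Z H →L[ℂ] Z H := u.inv with hR
  have r1 : (1 - Bi * P) * R = 1 := u.val_inv
  have r2 : R * (1 - Bi * P) = 1 := u.inv_val
  have hDB : D = B * (1 - Bi * P) := by
    have : B * (1 - Bi * P) = B - (B * Bi) * P := by noncomm_ring
    rw [this, h1, one_mul]
  set Dn : Z H →L[ℂ] Z H := R * Bi with hDn
  have d1 : D * Dn = 1 := by
    have : D * Dn = B * ((1 - Bi * P) * R) * Bi := by rw [hDB, hDn]; noncomm_ring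
    rw [this, r1, mul_one, h1]
  have d2 : Dn * D = 1 := by
    have : Dn * D = R * (Bi * B) * (1 - Bi * P) := by rw [hDB, hDn]; noncomm_ring
    rw [this, h2, mul_one, r2]
  have nR : ∀ g, ‖R g‖ ≤ 2 * ‖g‖ := by
    intro g
    have h3 : R = 1 + (Bi * P) * R := by
      have : (1 - Bi * P) * R = R - (Bi * P) * R := by noncomm_ring
      rw [this] at r1
      rw [← r1]; noncomm_ring
    have h4 : R g = g + (Bi * P) (R g) := DFunLike.congr_fun h3 g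
    have h5 : ‖R g‖ ≤ ‖g‖ + 1 / 2 * ‖R g‖ := by
      calc ‖R g‖ = ‖g + (Bi * P) (R g)‖ := by rw [← h4]
        _ ≤ ‖g‖ + ‖(Bi * P) (R g)‖ := norm_add_le _ _
        _ ≤ ‖g‖ + 1 / 2 * ‖R g‖ := by
            gcongr
            refine ContinuousLinearMap.le_of_opNorm_le _ ?_ _
            exact ((norm_mul_le _ _).trans (by gcongr)).trans hy2
    linarith
  have nDn : ∀ g, ‖Dn g‖ ≤ 2 * ‖Bi‖ * ‖g‖ := by
    intro g
    calc ‖Dn g‖ ≤ 2 * ‖Bi g‖ := nR _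
      _ ≤ 2 * (‖Bi‖ * ‖g‖) := by gcongr; exact Bi.le_opNorm _
      _ = _ := by ring
  -- the block and its inverse
  have hDsg : ∀ v : H, D (sg 0 v) = sg 0 (a v) := fun v => by
    ext n
    rw [hDa]
    by_cases hn : n = 0
    · subst hn
      rw [if_pos rfl, sg_self, sg_self]
    · rw [if_neg hn, sg_ne hn, sg_ne hn, map_zero]
  set ai : H →L[ℂ] H := (ev (E := H) 0) ∘L Dn ∘L (sg (E := H) 0) with hai
  have a1 : a * ai = 1 := by
    refine ContinuousLinearMap.ext fun v => ?_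
    have h3 : D (Dn (sg 0 v)) = sg 0 v := DFunLike.congr_fun d1 _
    have h4 : (D (Dn (sg 0 v))) 0 = a ((Dn (sg 0 v)) 0) := by rw [hDa, if_pos rfl]
    rw [h3, sg_self] at h4
    exact h4.symm
  have a2 : ai * a = 1 := by
    refine ContinuousLinearMap.ext fun v => ?_
    show (Dn (sg 0 (a v))) 0 = v
    rw [← hDsg]
    have h3 : Dn (D (sg 0 v)) = sg 0 v := DFunLike.congr_fun d2 _
    rw [h3, sg_self]
  have na : ‖a‖ ≤ 2 + ‖B‖ := by
    refine ContinuousLinearMap.opNorm_le_bound _ (by linarith) fun v => ?_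
    have h3 : ‖D (sg 0 v)‖ = ‖a v‖ := by rw [hDsg, norm_sg]
    rw [← h3]
    calc ‖D (sg 0 v)‖ ≤ ‖D‖ * ‖(sg 0 v : Z H)‖ := D.le_opNorm _
      _ ≤ (2 + ‖B‖) * ‖v‖ := by rw [norm_sg]; gcongr; linarith
  have nai : ‖ai‖ ≤ 1 + 2 * ‖Bi‖ := by
    refine ContinuousLinearMap.opNorm_le_bound _ (by linarith) fun v => ?_
    show ‖(Dn (sg 0 v)) 0‖ ≤ _
    calc ‖(Dn (sg 0 v)) 0‖ ≤ ‖Dn (sg 0 v)‖ := lp.norm_apply_le_norm (by norm_num) _ _
      _ ≤ 2 * ‖Bi‖ * ‖(sg 0 v : Z H)‖ := nDn _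
      _ ≤ (1 + 2 * ‖Bi‖) * ‖v‖ := by rw [norm_sg]; gcongr; linarith
  have n1 : ‖(1 : H →L[ℂ] H)‖ ≤ 1 := norm_one_le
  have hαn : ∀ n : ℤ, ‖α ^ n‖ = 1 := fun n => by rw [norm_zpow, hα, one_zpow]
  -- the diagonal operators
  have bDi : ∀ n : ℤ, ‖(if n = 0 then ai else 1 : H →L[ℂ] H)‖ ≤ 1 + 2 * ‖Bi‖ := fun n => by
    split_ifs
    · exact nai
    · linarith
  have bS : ∀ n : ℤ, ‖α ^ n • (if 1 ≤ n then a else 1 : H →L[ℂ] H)‖ ≤ 2 + ‖B‖ := fun n => by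
    rw [norm_smul, hαn, one_mul]
    split_ifs
    · exact na
    · linarith
  have bSi : ∀ n : ℤ, ‖(α ^ n)⁻¹ • (if 1 ≤ n then ai else 1 : H →L[ℂ] H)‖ ≤ 1 + 2 * ‖Bi‖ :=
    fun n => by
    rw [norm_smul, norm_inv, hαn, inv_one, one_mul]
    split_ifs
    · exact nai
    · linarith
  set Di := dg (fun n : ℤ => (if n = 0 then ai else 1 : H →L[ℂ] H)) _ bDi with hDi
  set S := dg (fun n : ℤ => α ^ n • (if 1 ≤ n then a else 1 : H →L[ℂ] H)) _ bS with hS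
  set Si := dg (fun n : ℤ => (α ^ n)⁻¹ • (if 1 ≤ n then ai else 1 : H →L[ℂ] H)) _ bSi with hSi
  have ea1 : ∀ v, a (ai v) = v := fun v => DFunLike.congr_fun a1 v
  have ea2 : ∀ v, ai (a v) = v := fun v => DFunLike.congr_fun a2 v
  have hαα : ∀ n : ℤ, α ^ n * (α ^ n)⁻¹ = 1 := fun n => mul_inv_cancel₀ (zpow_ne_zero _ hα0)
  have hαα' : ∀ n : ℤ, (α ^ n)⁻¹ * α ^ n = 1 := fun n => inv_mul_cancel₀ (zpow_ne_zero _ hα0)
  have s1 : S * Si = 1 := Z_ext fun f n => by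
    show α ^ n • (if 1 ≤ n then a else 1 : H →L[ℂ] H)
      ((α ^ n)⁻¹ • (if 1 ≤ n then ai else 1 : H →L[ℂ] H) (f n)) = f n
    rw [map_smul, smul_smul, hαα, one_smul]
    split_ifs
    · exact ea1 _
    · rfl
  have s2 : Si * S = 1 := Z_ext fun f n => by
    show (α ^ n)⁻¹ • (if 1 ≤ n then ai else 1 : H →L[ℂ] H)
      (α ^ n • (if 1 ≤ n then a else 1 : H →L[ℂ] H) (f n)) = f n
    rw [map_smul, smul_smul, hαα', one_smul]
    split_ifs
    · exact ea2 _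
    · rfl
  have e1 : D * Di = 1 := Z_ext fun f n => by
    show (D (Di f)) n = f n
    rw [hDa, hDi, dg_apply]
    split_ifs
    · exact ea1 _
    · rfl
  have e2 : Di * D = 1 := by
    have h3 : Dn * (D * Di) = Dn := by rw [e1, mul_one]
    have h4 : Di = Dn := by rw [← h3, ← mul_assoc, d2, one_mul]
    rw [h4, d2]
  have hUD : α • (U 1 * D) = S * U 1 * Si := Z_ext fun f n => by
    show α • (U 1 (D f)) n = (S (U 1 (Si f))) n
    rw [U_apply, hDa, hS, dg_apply, U_apply, hSi, dg_apply]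
    show _ = α ^ n • (if 1 ≤ n then a else 1 : H →L[ℂ] H)
      ((α ^ (n - 1))⁻¹ • (if 1 ≤ n - 1 then ai else 1 : H →L[ℂ] H) (f (n - 1)))
    rw [map_smul, smul_smul]
    have h3 : α ^ n * (α ^ (n - 1))⁻¹ = α := by
      have : α ^ n = α * α ^ (n - 1) := by
        rw [← zpow_one_add₀ hα0]; congr 1; ring
      rw [this, mul_assoc, hαα, mul_one]
    rw [h3]
    congr 1
    by_cases hn : n - 1 = 0
    · rw [if_pos hn, if_pos (by omega), if_neg (by omega)]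
      rfl
    · rw [if_neg hn]
      by_cases hn2 : 1 ≤ n
      · rw [if_pos hn2, if_pos (by omega), ea1]
        rfl
      · rw [if_neg hn2, if_neg (by omega)]
        rfl
  -- the perturbation
  set x : Z H →L[ℂ] Z H := Si * Di * y * S with hx
  have nx : ‖x‖ ≤ 1 / 20 := by
    have nS : ‖S‖ ≤ 2 + ‖B‖ := norm_dg_le _ _ _
    have nSi : ‖Si‖ ≤ 1 + 2 * ‖Bi‖ := norm_dg_le _ _ _
    have nDi : ‖Di‖ ≤ 1 + 2 * ‖Bi‖ := norm_dg_le _ _ _
    calc ‖x‖ ≤ ‖Si‖ * ‖Di‖ * ‖y‖ * ‖S‖ := by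
          rw [hx]
          refine (norm_mul_le _ _).trans ?_
          gcongr
          refine (norm_mul_le _ _).trans ?_
          gcongr
          exact norm_mul_le _ _
      _ ≤ (1 + 2 * ‖Bi‖) * (1 + 2 * ‖Bi‖) * ‖y‖ * (2 + ‖B‖) := by gcongr
      _ = (‖y‖ * (20 * (2 + ‖B‖) * (1 + 2 * ‖Bi‖) ^ 2)) / 20 := by ring
      _ ≤ 1 / 20 := by gcongr
  obtain ⟨W, Wi, w1, w2, hW⟩ := bilateral x nx
  have c1 : bb * Si = Si * bb := bb_dg _ _ _
  have c2 : bb * Di = Di * bb := bb_dg _ _ _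
  have c3 : bb * S = S * bb := bb_dg _ _ _
  have hx1 : 1 + bb * x * bb = Si * Di * B * S := by
    have h3 : bb * x * bb = Si * Di * P * S := by
      rw [hP]
      have : bb * x * bb = (bb * Si) * Di * y * (S * bb) := by rw [hx]; noncomm_ring
      rw [this, c1, ← c3]
      have : Si * bb * Di * y * (bb * S) = Si * (bb * Di) * y * (bb * S) := by noncomm_ring
      rw [this, c2]; noncomm_ring
    have h4 : B = D + P := by rw [hD]; abel
    rw [h3]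
    conv_rhs => rw [h4]
    have : Si * Di * (D + P) * S = Si * (Di * D) * S + Si * Di * P * S := by
      noncomm_ring
    rw [this, e2, mul_one, s2]
  have hfin : α • (U 1 * B) = S * (W * U 1 * Wi) * Si := by
    rw [← hW, hx1]
    have h3 : U 1 * B = (U 1 * D) * (Di * B) := by
      have : (U 1 * D) * (Di * B) = U 1 * (D * Di) * B := by noncomm_ring
      rw [this, e1, mul_one]
    rw [h3, ← smul_mul_assoc, hUD]
    have : S * (U 1 * (Si * Di * B * S)) * Si = S * U 1 * Si * (Di * B) * (S * Si) := by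
      noncomm_ring
    rw [this, s1, mul_one]
  have hI2 : I2 (α • (U 1 * B)) := by
    rw [hfin]
    exact ((I2_U 1).conj W Wi w2 w1).conj S Si s2 s1
  have hfac : α • B = U (-1) * (α • (U 1 * B)) := by
    have h3 : (U (-1) * U 1 : Z H →L[ℂ] Z H) = 1 := by
      rw [← U_add, neg_add_cancel, U_zero]
    rw [mul_smul_comm, ← mul_assoc, h3, one_mul]
  rw [hfac]
  exact (I2_U (-1)).mul hI2

end ZZ

end Pool.Agent.KS6_87.Inv4
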