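import Pool.Agent.KS6_87.Inv4.Adapt

set_option autoImplicit false
set_option linter.unusedSectionVars false

open scoped InnerProductSpace ENNReal
open Cardinal Filter Topology
open Pool.Agent.H100R3.Inv

namespace Pool.Agent.KS6_87.Inv4

universe u

variable {H : Type u} [NormedAddCommGroup H] [InnerProductSpace ℂ H] [CompleteSpace H]

open ZZ

theorem bb_sg (j : ℤ) (v : H) : bb (sg j v) = ((r j : ℝ) : ℂ) • sg j v := by
  ext n
  rw [bb_apply]
  show _ = ((r j : ℝ) : ℂ) • (sg j v) n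
  by_cases h : n = j
  · subst h; rfl
  · rw [sg_ne h, smul_zero, smul_zero]

theorem hasSum_rr (θ : ℝ) : HasSum (fun p : ℤ × ℤ => θ * (r p.1 * r p.2)) (θ * 9) := by
  have hs : Summable (fun p : ℤ × ℤ => r p.1 * r p.2) :=
    Summable.mul_of_nonneg hasSum_r.summable hasSum_r.summable (fun j => (r_pos j).le)
      (fun j => (r_pos j).le)
  have h := (hasSum_r.mul hasSum_r hs).mul_left θ
  have e : (3 : ℝ) * 3 = 9 := by norm_num
  rwa [e] at h

theorem r_anti {i j : ℤ} (h : i.natAbs ≤ j.natAbs) : r j ≤ r i :=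
  pow_le_pow_of_le_one (by norm_num) (by norm_num) h

/-- the perturbation is smooth: if the blocks off the zeroth one decay, then `B` has the form
required by `uni` -/
theorem four_of_blocks (α : ℂ) (hα : ‖α‖ = 1) (B Bi : Z H →L[ℂ] Z H) (h1 : B * Bi = 1)
    (h2 : Bi * B = 1) (k : ℤ → ℤ → (H →L[ℂ] H)) (θ : ℝ)
    (hθ : θ * 9 * (20 * (2 + ‖B‖) * (1 + 2 * ‖Bi‖) ^ 2) ≤ 1) (hθ0 : 0 ≤ θ)
    (hk : ∀ j v n, (B (sg j v)) n = (sg j v) n + k n j v)
    (hkn : ∀ i j, ¬ (i = 0 ∧ j = 0) → ‖k i j‖ ≤ θ * (r i ^ 2 * r j ^ 2)) : I4 (α • B) := by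
  let Y : ℤ × ℤ → (Z H →L[ℂ] Z H) := fun p => if p.1 = 0 ∧ p.2 = 0 then 0 else
    (((r p.1 * r p.2)⁻¹ : ℝ) : ℂ) • ((sg (E := H) p.1) ∘L (k p.1 p.2) ∘L (ev (E := H) p.2))
  have hYn : ∀ p, ‖Y p‖ ≤ θ * (r p.1 * r p.2) := by
    rintro ⟨i, j⟩
    have hi := r_pos i
    have hj := r_pos j
    show ‖if i = 0 ∧ j = 0 then (0 : Z H →L[ℂ] Z H) else
      (((r i * r j)⁻¹ : ℝ) : ℂ) • ((sg (E := H) i) ∘L (k i j) ∘L (ev (E := H) j))‖ ≤
        θ * (r i * r j)
    split_ifs with h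
    · rw [norm_zero]; positivity
    · rw [norm_smul, Complex.norm_real, Real.norm_of_nonneg (by positivity)]
      have h3 : ‖(sg (E := H) i) ∘L (k i j) ∘L (ev (E := H) j)‖ ≤ θ * (r i ^ 2 * r j ^ 2) := by
        refine ContinuousLinearMap.opNorm_le_bound _ (by positivity) fun f => ?_
        show ‖sg i (k i j (f j))‖ ≤ _
        rw [norm_sg]
        calc ‖k i j (f j)‖ ≤ ‖k i j‖ * ‖f j‖ := (k i j).le_opNorm _
          _ ≤ (θ * (r i ^ 2 * r j ^ 2)) * ‖f‖ := by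
              gcongr
              · exact hkn i j h
              · exact lp.norm_apply_le_norm (by norm_num) _ _
      calc (r i * r j)⁻¹ * ‖(sg (E := H) i) ∘L (k i j) ∘L (ev (E := H) j)‖
          ≤ (r i * r j)⁻¹ * (θ * (r i ^ 2 * r j ^ 2)) := by gcongr
        _ = θ * (r i * r j) := by field_simp
  have hsum : Summable Y := Summable.of_norm_bounded (hasSum_rr θ).summable hYn
  obtain ⟨y, hy⟩ : ∃ y, HasSum Y y := ⟨_, hsum.hasSum⟩
  have hyn : ‖y‖ ≤ θ * 9 := hy.norm_le_of_bounded (hasSum_rr θ) hYn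
  -- blocks of `y`
  have hyb : ∀ j v n, (y (sg j v)) n =
      if n = 0 ∧ j = 0 then 0 else (((r n * r j)⁻¹ : ℝ) : ℂ) • k n j v := by
    intro j v n
    have h3 : HasSum (fun p => (Y p (sg j v)) n) ((y (sg j v)) n) := by
      have h := hy.mapL (ContinuousLinearMap.apply ℂ (Z H) (sg (E := H) j v))
      exact h.mapL (ev (E := H) n)
    have h4 : HasSum (fun p => (Y p (sg j v)) n) ((Y (n, j) (sg j v)) n) := by
      refine hasSum_single _ ?_
      rintro ⟨i, l⟩ hne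
      show ((if i = 0 ∧ l = 0 then (0 : Z H →L[ℂ] Z H) else
        (((r i * r l)⁻¹ : ℝ) : ℂ) • ((sg (E := H) i) ∘L (k i l) ∘L (ev (E := H) l))) (sg j v)) n = 0
      split_ifs with h
      · rfl
      · show (((r i * r l)⁻¹ : ℝ) : ℂ) • (sg i (k i l ((sg j v) l))) n = 0
        by_cases hl : l = j
        · subst hl
          have : n ≠ i := fun h' => hne (by rw [h'])
          rw [sg_ne this, smul_zero]
        · rw [sg_ne hl, map_zero, map_zero]
          exact smul_zero _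
    rw [h3.unique h4]
    show ((if n = 0 ∧ j = 0 then (0 : Z H →L[ℂ] Z H) else
        (((r n * r j)⁻¹ : ℝ) : ℂ) • ((sg (E := H) n) ∘L (k n j) ∘L (ev (E := H) j))) (sg j v)) n = _
    split_ifs with h
    · rfl
    · show (((r n * r j)⁻¹ : ℝ) : ℂ) • (sg n (k n j ((sg j v) j))) n = _
      rw [sg_self, sg_self]
  -- the decomposition
  set a : H →L[ℂ] H := 1 + k 0 0 with ha
  have hbd : ∀ n : ℤ, ‖(if n = 0 then a else 1 : H →L[ℂ] H)‖ ≤ ‖a‖ + 1 := fun n => by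
    split_ifs
    · linarith
    · have := norm_one_le (E := H)
      linarith [norm_nonneg a]
  have hdec : B = dg (fun n : ℤ => (if n = 0 then a else 1 : H →L[ℂ] H)) _ hbd + bb * y * bb := by
    refine ext_sg fun j v => ?_
    ext n
    show (B (sg j v)) n = (if n = 0 then a else 1 : H →L[ℂ] H) ((sg j v) n) +
      (bb (y (bb (sg j v)))) n
    rw [hk, bb_apply, bb_sg, map_smul]
    show _ = _ + ((r n : ℝ) : ℂ) • ((r j : ℝ) : ℂ) • (y (sg j v)) n
    rw [hyb]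
    by_cases h : n = 0 ∧ j = 0
    · obtain ⟨rfl, rfl⟩ := h
      rw [if_pos (rfl : (0 : ℤ) = 0), if_pos (And.intro (rfl : (0 : ℤ) = 0) (rfl : (0 : ℤ) = 0)),
        smul_zero, smul_zero, add_zero, sg_self]
      rfl
    · rw [if_neg h, smul_smul, smul_smul]
      have h3 : ((r n : ℝ) : ℂ) * ((r j : ℝ) : ℂ) * (((r n * r j)⁻¹ : ℝ) : ℂ) = 1 := by
        rw [← Complex.ofReal_mul, ← Complex.ofReal_mul,
          mul_inv_cancel₀ (mul_pos (r_pos n) (r_pos j)).ne', Complex.ofReal_one]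
      rw [h3, one_smul]
      congr 1
      by_cases hn : n = 0
      · subst hn
        have hj : (0 : ℤ) ≠ j := fun h' => h ⟨rfl, h'.symm⟩
        rw [sg_ne hj, map_zero]
      · rw [if_neg hn]
        rfl
  refine uni α hα B Bi y a h1 h2 ?_ ?_
  · refine le_trans ?_ hθ
    gcongr
  · intro f n
    exact congrArg (fun g : Z H => g n) (DFunLike.congr_fun hdec f)

/-- a continuous map that vanishes on a Hilbert basis vanishes -/
theorem inner_eq_zero_of_basis {ι : Type u} (b : HilbertBasis ι ℂ H) (T : H →L[ℂ] H) (w : H)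
    (h : ∀ i, ⟪w, T (b i)⟫_ℂ = 0) (v : H) : ⟪w, T v⟫_ℂ = 0 := by
  have h1 : ContinuousLinearMap.adjoint T w = 0 := by
    apply eq_zero_of_orth b
    intro i
    rw [← inner_conj_symm, ContinuousLinearMap.adjoint_inner_left, h i, map_zero]
  rw [← ContinuousLinearMap.adjoint_inner_left, h1, inner_zero_left]

/-- **The unimodular case.**  If `K` is negligible and `|α| = 1` then the invertible operator
`α + K` is a product of four involutions. -/
theorem unimod {ι : Type u} (b : HilbertBasis ι ℂ H) (hH : ¬ FiniteDimensional ℂ H)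
    (A Ai : H →L[ℂ] H) (a1 : A * Ai = 1) (a2 : Ai * A = 1) (α : ℂ) (hα : ‖α‖ = 1)
    (hK : Negl b (A - α • 1)) : I4 A := by
  classical
  have hinf : Infinite ι := infinite_index b hH
  have hι : ℵ₀ ≤ #ι := Cardinal.aleph0_le_mk ι
  have hα0 : α ≠ 0 := fun h => by rw [h, norm_zero] at hα; exact zero_ne_one hα
  set K : H →L[ℂ] H := A - α • 1 with hKd
  have hKs := negl_adjoint b hK
  set θ : ℝ := 1 / (180 * (2 + ‖A‖) * (1 + 2 * ‖Ai‖) ^ 2) with hθ
  have hθ0 : 0 < θ := by positivity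
  have hε : ∀ n : ℤ, 0 < θ * r n ^ 4 := fun n => by
    have := r_pos n
    positivity
  choose s1 hs1 h1 using fun n : ℤ => hK (θ * r n ^ 4) (hε n)
  choose s2 hs2 h2 using fun n : ℤ => hKs (θ * r n ^ 4) (hε n)
  obtain ⟨e, he⟩ := exists_adapted b hH (fun n => s1 n ∪ s2 n)
    (fun n => small_union hι (hs1 n) (hs2 n))
  obtain ⟨Φ, hΦ⟩ := exists_model b e
  have hperp : ∀ (j : ℤ), j ≠ 0 → ∀ (v : H), ∀ w ∈ s1 j ∪ s2 j, ⟪w, Φ.symm (lp.single 2 j v)⟫_ℂ = 0 := by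
    intro j hj v w hw
    let T : H →L[ℂ] H := Φ.symm.toContinuousLinearEquiv.toContinuousLinearMap ∘L (sg (E := H) j)
    refine inner_eq_zero_of_basis b T w (fun i => ?_) v
    show ⟪w, Φ.symm (lp.single 2 j (b i))⟫_ℂ = 0
    rw [hΦ]
    exact he j i hj w hw
  obtain ⟨Φc, hΦc⟩ : ∃ T : H →L[ℂ] Z H, ∀ x, T x = Φ x :=
    ⟨Φ.toContinuousLinearEquiv.toContinuousLinearMap, fun x => rfl⟩
  obtain ⟨Φi, hΦi⟩ : ∃ T : Z H →L[ℂ] H, ∀ f, T f = Φ.symm f :=
    ⟨Φ.symm.toContinuousLinearEquiv.toContinuousLinearMap, fun x => rfl⟩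
  have hci : ∀ f, Φc (Φi f) = f := fun f => by rw [hΦi, hΦc, Φ.apply_symm_apply]
  have hic : ∀ x, Φi (Φc x) = x := fun x => by rw [hΦc, hΦi, Φ.symm_apply_apply]
  have nci : ∀ x, ‖Φc x‖ = ‖x‖ := fun x => by rw [hΦc, Φ.norm_map]
  have nic : ∀ f, ‖Φi f‖ = ‖f‖ := fun f => by rw [hΦi, Φ.symm.norm_map]
  have hαi : ‖α⁻¹‖ = 1 := by rw [norm_inv, hα, inv_one]
  set B : Z H →L[ℂ] Z H := α⁻¹ • (Φc ∘L A ∘L Φi) with hB
  set Bi : Z H →L[ℂ] Z H := α • (Φc ∘L Ai ∘L Φi) with hBi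
  have eB : ∀ f, B f = α⁻¹ • Φc (A (Φi f)) := fun f => rfl
  have eBi : ∀ f, Bi f = α • Φc (Ai (Φi f)) := fun f => rfl
  have ea1 : ∀ x, A (Ai x) = x := fun x => DFunLike.congr_fun a1 x
  have ea2 : ∀ x, Ai (A x) = x := fun x => DFunLike.congr_fun a2 x
  have b1 : B * Bi = 1 := ContinuousLinearMap.ext fun f => by
    show B (Bi f) = f
    rw [eB, eBi, map_smul, map_smul, map_smul, smul_smul, inv_mul_cancel₀ hα0, one_smul, hic, ea1,
      hci]
  have b2 : Bi * B = 1 := ContinuousLinearMap.ext fun f => by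
    show Bi (B f) = f
    rw [eBi, eB, map_smul, map_smul, map_smul, smul_smul, mul_inv_cancel₀ hα0, one_smul, hic, ea2,
      hci]
  have nB : ‖B‖ ≤ ‖A‖ := ContinuousLinearMap.opNorm_le_bound _ (norm_nonneg _) fun f => by
    rw [eB, norm_smul, hαi, one_mul, nci]
    exact (A.le_opNorm _).trans (by rw [nic])
  have nBi : ‖Bi‖ ≤ ‖Ai‖ := ContinuousLinearMap.opNorm_le_bound _ (norm_nonneg _) fun f => by
    rw [eBi, norm_smul, hα, one_mul, nci]
    exact (Ai.le_opNorm _).trans (by rw [nic])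
  let k : ℤ → ℤ → (H →L[ℂ] H) := fun i j =>
    α⁻¹ • ((ev (E := H) i) ∘L Φc ∘L K ∘L Φi ∘L (sg (E := H) j))
  have ek : ∀ i j v, k i j v = α⁻¹ • (Φc (K (Φi (sg j v)))) i := fun i j v => rfl
  have hk : ∀ j v n, (B (sg j v)) n = (sg j v) n + k n j v := by
    intro j v n
    have h3 : A (Φi (sg j v)) = α • Φi (sg j v) + K (Φi (sg j v)) := by
      rw [hKd]
      show _ = α • Φi (sg j v) + (A (Φi (sg j v)) - α • Φi (sg j v))
      abel
    rw [ek, eB, h3, map_add, map_smul, hci, smul_add, smul_smul, inv_mul_cancel₀ hα0, one_smul]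
    rfl
  have hkn : ∀ i j, ¬ (i = 0 ∧ j = 0) → ‖k i j‖ ≤ θ * (r i ^ 2 * r j ^ 2) := by
    intro i j hij
    have ri := r_pos i
    have rj := r_pos j
    refine ContinuousLinearMap.opNorm_le_bound _ (by positivity) fun v => ?_
    rw [ek, norm_smul, hαi, one_mul]
    set x : H := Φi (sg j v) with hx
    have nx : ‖x‖ = ‖v‖ := by rw [hx, nic, norm_sg]
    by_cases hc : i.natAbs ≤ j.natAbs
    · have hj : j ≠ 0 := by
        rintro rfl
        exact hij ⟨by simpa using hc, rfl⟩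
      have h3 : ‖K x‖ ≤ θ * r j ^ 4 * ‖x‖ := h1 j x fun w hw => by
        rw [hx, hΦi]
        exact hperp j hj v w (Or.inl hw)
      have h4 : r j ≤ r i := r_anti hc
      calc ‖(Φc (K x)) i‖ ≤ ‖Φc (K x)‖ := lp.norm_apply_le_norm (by norm_num) _ _
        _ = ‖K x‖ := nci _
        _ ≤ θ * r j ^ 4 * ‖v‖ := by rw [← nx]; exact h3
        _ = θ * (r j ^ 2 * r j ^ 2) * ‖v‖ := by ring
        _ ≤ θ * (r i ^ 2 * r j ^ 2) * ‖v‖ := by gcongr
    · push Not at hc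
      have hi : i ≠ 0 := by
        rintro rfl
        simp at hc
      set z : H := (Φc (K x)) i with hz
      have h4 : r i ≤ r j := r_anti hc.le
      have h3 : ‖ContinuousLinearMap.adjoint K (Φi (sg i z))‖ ≤ θ * r i ^ 4 * ‖Φi (sg i z)‖ :=
        h2 i _ fun w hw => by
          rw [hΦi]
          exact hperp i hi z w (Or.inr hw)
      have h5 : ‖z‖ ^ 2 ≤ θ * r i ^ 4 * ‖z‖ * ‖v‖ := by
        have e1 : ‖⟪z, z⟫_ℂ‖ = ‖z‖ ^ 2 := by
          rw [inner_self_eq_norm_sq_to_K, norm_pow]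
          simp
        have e2 : ⟪z, z⟫_ℂ = ⟪ContinuousLinearMap.adjoint K (Φi (sg i z)), x⟫_ℂ := by
          rw [ContinuousLinearMap.adjoint_inner_left, hΦi]
          have e3 : ⟪Φ.symm (sg i z), K x⟫_ℂ = ⟪(sg i z : Z H), Φ (K x)⟫_ℂ := by
            rw [← Φ.inner_map_map, Φ.apply_symm_apply]
          rw [e3, sg_apply, lp.inner_single_left, ← hΦc]
        rw [← e1, e2]
        refine (norm_inner_le_norm _ _).trans ?_
        rw [nx]
        rw [nic, norm_sg] at h3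
        gcongr
      have h6 : ‖z‖ ≤ θ * r i ^ 4 * ‖v‖ := by
        by_contra hcon
        push Not at hcon
        have h7 : 0 < ‖z‖ := lt_of_le_of_lt (by positivity) hcon
        nlinarith
      calc ‖z‖ ≤ θ * r i ^ 4 * ‖v‖ := h6
        _ = θ * (r i ^ 2 * r i ^ 2) * ‖v‖ := by ring
        _ ≤ θ * (r i ^ 2 * r j ^ 2) * ‖v‖ := by gcongr
  have hmain : I4 (α • B) := by
    refine four_of_blocks α hα B Bi b1 b2 k θ ?_ hθ0.le hk hkn
    have h3 : θ * (180 * (2 + ‖A‖) * (1 + 2 * ‖Ai‖) ^ 2) = 1 := by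
      rw [hθ]
      exact div_mul_cancel₀ _ (by positivity)
    have n1 := norm_nonneg B
    have n2 := norm_nonneg Bi
    calc θ * 9 * (20 * (2 + ‖B‖) * (1 + 2 * ‖Bi‖) ^ 2)
        ≤ θ * 9 * (20 * (2 + ‖A‖) * (1 + 2 * ‖Ai‖) ^ 2) := by gcongr
      _ = θ * (180 * (2 + ‖A‖) * (1 + 2 * ‖Ai‖) ^ 2) := by ring
      _ ≤ 1 := h3.le
  obtain ⟨P, Q, P', Q', p, q, p', q', h⟩ := hmain
  have tr : ∀ J : Z H →L[ℂ] Z H, J * J = 1 → (Φi ∘L J ∘L Φc) * (Φi ∘L J ∘L Φc) = 1 := by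
    intro J hJ
    refine ContinuousLinearMap.ext fun x => ?_
    show Φi (J (Φc (Φi (J (Φc x))))) = x
    rw [hci]
    have : J (J (Φc x)) = Φc x := DFunLike.congr_fun hJ _
    rw [this, hic]
  refine ⟨Φi ∘L P ∘L Φc, Φi ∘L Q ∘L Φc, Φi ∘L P' ∘L Φc, Φi ∘L Q' ∘L Φc, tr P p, tr Q q, tr P' p',
    tr Q' q', ContinuousLinearMap.ext fun x => ?_⟩
  show A x = Φi (P (Φc (Φi (Q (Φc (Φi (P' (Φc (Φi (Q' (Φc x)))))))))))
  rw [hci, hci, hci]
  have h3 : (α • B) (Φc x) = P (Q (P' (Q' (Φc x)))) := DFunLike.congr_fun h _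
  rw [← h3]
  show A x = Φi (α • (B (Φc x)))
  rw [eB, smul_smul, mul_inv_cancel₀ hα0, one_smul, hic, hic]

end Pool.Agent.KS6_87.Inv4
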