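import Pool.Agent.KS6_87.Inv4.Obst

set_option autoImplicit false
set_option linter.unusedSectionVars false

open scoped InnerProductSpace ENNReal
open Cardinal Filter Topology

namespace Pool.Agent.KS6_87.Inv4

universe u

/-- square summable two-sided sequences -/
abbrev Z (E : Type u) [NormedAddCommGroup E] := lp (fun _ : ℤ => E) 2

namespace ZZ

variable {E F G : Type u} [NormedAddCommGroup E] [NormedSpace ℂ E]
  [NormedAddCommGroup F] [NormedSpace ℂ F] [NormedAddCommGroup G] [NormedSpace ℂ G]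

theorem summable_sq (f : Z E) : Summable (fun n => ‖f n‖ ^ 2) := by
  have := (lp.memℓp f).summable (by norm_num)
  simpa using this

theorem memℓp_two {f : ℤ → E} (h : Summable (fun n => ‖f n‖ ^ 2)) : Memℓp f 2 := by
  apply memℓp_gen
  simpa using h

theorem norm_sq_eq (f : Z E) : ‖f‖ ^ 2 = ∑' n, ‖f n‖ ^ 2 := by
  have := lp.norm_rpow_eq_tsum (p := 2) (by norm_num) f
  simpa using this

theorem blk_summable (σ : ℤ ≃ ℤ) (T : ℤ → E →L[ℂ] F) (C : ℝ) (hT : ∀ n, ‖T n‖ ≤ C) (f : Z E) :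
    Summable (fun n => ‖T n (f (σ n))‖ ^ 2) := by
  have h1 : Summable (fun n => C ^ 2 * ‖f (σ n)‖ ^ 2) :=
    (((summable_sq f).comp_injective σ.injective)).mul_left _
  refine Summable.of_nonneg_of_le (fun n => by positivity) (fun n => ?_) h1
  rw [← mul_pow]
  exact pow_le_pow_left₀ (norm_nonneg _) ((T n).le_of_opNorm_le (hT n) _) 2

/-- permuted block diagonal operator -/
noncomputable def blk (σ : ℤ ≃ ℤ) (T : ℤ → E →L[ℂ] F) (C : ℝ) (hT : ∀ n, ‖T n‖ ≤ C) :
    Z E →L[ℂ] Z F :=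
  LinearMap.mkContinuous
    { toFun := fun f => ⟨fun n => T n (f (σ n)), memℓp_two (blk_summable σ T C hT f)⟩
      map_add' := fun f g => by
        ext n
        exact map_add (T n) _ _
      map_smul' := fun c f => by
        ext n
        exact map_smul (T n) _ _ } C (fun f => by
      have hC : 0 ≤ C := (norm_nonneg _).trans (hT 0)
      apply (pow_le_pow_iff_left₀ (norm_nonneg _) (by positivity) two_ne_zero).1
      rw [mul_pow, norm_sq_eq, norm_sq_eq]
      have h1 : Summable (fun n => C ^ 2 * ‖f (σ n)‖ ^ 2) :=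
        (((summable_sq f).comp_injective σ.injective)).mul_left _
      have h2 : ∑' n, C ^ 2 * ‖f (σ n)‖ ^ 2 = C ^ 2 * ∑' n, ‖f n‖ ^ 2 := by
        rw [tsum_mul_left]
        congr 1
        exact σ.tsum_eq (fun n => ‖f n‖ ^ 2)
      rw [← h2]
      refine (blk_summable σ T C hT f).tsum_le_tsum (fun n => ?_) h1
      rw [← mul_pow]
      exact pow_le_pow_left₀ (norm_nonneg _) ((T n).le_of_opNorm_le (hT n) _) 2)

theorem blk_apply (σ : ℤ ≃ ℤ) (T : ℤ → E →L[ℂ] F) (C : ℝ) (hT : ∀ n, ‖T n‖ ≤ C) (f : Z E)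
    (n : ℤ) : (blk σ T C hT f) n = T n (f (σ n)) := rfl

theorem norm_blk_le (σ : ℤ ≃ ℤ) (T : ℤ → E →L[ℂ] F) (C : ℝ) (hT : ∀ n, ‖T n‖ ≤ C) :
    ‖blk σ T C hT‖ ≤ C :=
  LinearMap.mkContinuous_norm_le _ ((norm_nonneg _).trans (hT 0)) _

theorem Z_ext {S T : G →L[ℂ] Z E} (h : ∀ f n, (S f) n = (T f) n) : S = T := by
  refine ContinuousLinearMap.ext fun f => ?_
  ext n
  exact h f n

/-- evaluation -/
noncomputable abbrev ev (j : ℤ) : Z E →L[ℂ] E := lp.evalCLM ℂ (fun _ : ℤ => E) 2 j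

/-- sequences with one entry -/
noncomputable abbrev sg (j : ℤ) : E →L[ℂ] Z E :=
  lp.singleContinuousLinearMap ℂ (fun _ : ℤ => E) 2 j

theorem ev_apply (j : ℤ) (f : Z E) : ev j f = f j := rfl

theorem sg_apply (j : ℤ) (v : E) : sg j v = lp.single 2 j v := rfl

theorem sg_self (j : ℤ) (v : E) : (sg j v) j = v := lp.single_apply_self (E := fun _ : ℤ => E) 2 j v

theorem sg_ne {i j : ℤ} (h : i ≠ j) (v : E) : (sg j v) i = 0 :=
  lp.single_apply_ne (E := fun _ : ℤ => E) 2 j v h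

theorem norm_sg (j : ℤ) (v : E) : ‖sg j v‖ = ‖v‖ := by
  rw [sg_apply]
  exact lp.norm_single (by norm_num) _ _

theorem norm_sg_le (j : ℤ) : ‖(sg j : E →L[ℂ] Z E)‖ ≤ 1 :=
  ContinuousLinearMap.opNorm_le_bound _ zero_le_one fun v => by rw [norm_sg, one_mul]

theorem norm_ev_le (j : ℤ) : ‖(ev j : Z E →L[ℂ] E)‖ ≤ 1 :=
  ContinuousLinearMap.opNorm_le_bound _ zero_le_one fun f => by
    rw [one_mul]
    exact lp.norm_apply_le_norm (by norm_num) f j

theorem ext_sg {S T : Z E →L[ℂ] F} (h : ∀ j v, S (sg j v) = T (sg j v)) : S = T := by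
  refine ContinuousLinearMap.ext fun f => ?_
  have h1 := lp.hasSum_single (p := 2) (by norm_num) f
  have h2 := h1.mapL S
  have h3 := h1.mapL T
  refine h2.unique ?_
  convert h3 using 1
  funext j
  exact h j (f j)

/-- shifts of the integers -/
def sh (m : ℤ) : ℤ ≃ ℤ := Equiv.addRight m

theorem sh_apply (m n : ℤ) : sh m n = n + m := rfl

end ZZ

end Pool.Agent.KS6_87.Inv4
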